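import Mathlib

/-!
The edge cases `a = 0` and `a = 1` of the frozen statement S06653.
-/

set_option autoImplicit false

open Polynomial

namespace Pool.Agent.Work.F0bc87

/-- AM-GM in the form: positive numbers with product at least one have sum at least their
number. -/
theorem card_le_sum_of_one_le_prod (s : Multiset ℝ) (hpos : ∀ x ∈ s, 0 < x)
    (hprod : 1 ≤ s.prod) : (Multiset.card s : ℝ) ≤ s.sum := by
  have key : ∀ s : Multiset ℝ, (∀ x ∈ s, 0 < x) →
      0 < s.prod ∧ (Multiset.card s : ℝ) + Real.log s.prod ≤ s.sum := by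
    intro s
    induction s using Multiset.induction_on with
    | empty => intro _; simp
    | cons x s ih =>
      intro h
      have hx : 0 < x := h x (Multiset.mem_cons_self x s)
      obtain ⟨h1, h2⟩ := ih fun y hy => h y (Multiset.mem_cons_of_mem hy)
      rw [Multiset.prod_cons, Multiset.sum_cons, Multiset.card_cons]
      refine ⟨mul_pos hx h1, ?_⟩
      rw [Real.log_mul hx.ne' h1.ne']
      have h3 := Real.add_one_le_exp (Real.log x)
      rw [Real.exp_log hx] at h3
      push_cast
      linarith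
  obtain ⟨_, h2⟩ := key s hpos
  have h3 := Real.log_nonneg hprod
  linarith

theorem natDegree_prod_lin {m : ℕ} (z : Fin m → ℂ) : (∏ j, (X - C (z j))).natDegree = m := by
  rw [natDegree_prod_of_monic _ _ (fun j _ => monic_X_sub_C _)]
  simp

theorem monic_prod_lin {m : ℕ} (z : Fin m → ℂ) : (∏ j, (X - C (z j))).Monic :=
  monic_prod_of_monic _ _ fun _ _ => monic_X_sub_C _

theorem monic_p {m : ℕ} (a : ℂ) (z : Fin m → ℂ) : ((X - C a) * ∏ j, (X - C (z j))).Monic :=
  (monic_X_sub_C a).mul (monic_prod_lin z)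

theorem natDegree_p {m : ℕ} (a : ℂ) (z : Fin m → ℂ) :
    ((X - C a) * ∏ j, (X - C (z j))).natDegree = m + 1 := by
  rw [(monic_X_sub_C a).natDegree_mul (monic_prod_lin z), natDegree_X_sub_C,
    natDegree_prod_lin]
  ring

theorem coeff_dp {m : ℕ} (a : ℂ) (z : Fin m → ℂ) :
    (derivative ((X - C a) * ∏ j, (X - C (z j)))).coeff m = (m : ℂ) + 1 := by
  rw [coeff_derivative]
  have h := (monic_p a z).coeff_natDegree
  rw [natDegree_p] at h
  rw [h]; ring

theorem natDegree_dp {m : ℕ} (a : ℂ) (z : Fin m → ℂ) :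
    (derivative ((X - C a) * ∏ j, (X - C (z j)))).natDegree = m := by
  apply le_antisymm
  · refine (natDegree_derivative_le _).trans ?_
    rw [natDegree_p]; simp
  · apply le_natDegree_of_ne_zero
    rw [coeff_dp]
    exact_mod_cast Nat.succ_ne_zero m

theorem leadingCoeff_dp {m : ℕ} (a : ℂ) (z : Fin m → ℂ) :
    (derivative ((X - C a) * ∏ j, (X - C (z j)))).leadingCoeff = (m : ℂ) + 1 := by
  rw [leadingCoeff, natDegree_dp, coeff_dp]

theorem dp_ne_zero {m : ℕ} (a : ℂ) (z : Fin m → ℂ) :
    derivative ((X - C a) * ∏ j, (X - C (z j))) ≠ 0 := by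
  intro h
  have h1 := coeff_dp a z
  rw [h, coeff_zero] at h1
  have h2 : ((m + 1 : ℕ) : ℂ) ≠ 0 := by exact_mod_cast Nat.succ_ne_zero m
  apply h2
  push_cast
  exact h1.symm

theorem card_roots_dp {m : ℕ} (a : ℂ) (z : Fin m → ℂ) :
    Multiset.card (derivative ((X - C a) * ∏ j, (X - C (z j)))).roots = m := by
  rw [← (IsAlgClosed.splits _).natDegree_eq_card_roots, natDegree_dp]

/-- the value of the derivative at `a` -/
theorem eval_dp {m : ℕ} (a : ℂ) (z : Fin m → ℂ) :
    (derivative ((X - C a) * ∏ j, (X - C (z j)))).eval a = ∏ j, (a - z j) := by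
  rw [derivative_mul, eval_add, eval_mul, eval_mul]
  simp [eval_prod]

theorem norm_prod_map (s : Multiset ℂ) (f : ℂ → ℂ) :
    ‖(s.map f).prod‖ = (s.map fun w => ‖f w‖).prod := by
  induction s using Multiset.induction_on with
  | empty => simp
  | cons x s ih => simp [ih]

theorem prod_map_inv_sq (s : Multiset ℂ) (f : ℂ → ℝ) :
    (s.map fun w => (f w ^ 2)⁻¹).prod = (((s.map f).prod) ^ 2)⁻¹ := by
  induction s using Multiset.induction_on with
  | empty => simp
  | cons x s ih =>
    rw [Multiset.map_cons, Multiset.prod_cons, ih, Multiset.map_cons, Multiset.prod_cons,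
      mul_pow, mul_inv]

theorem case_zero (m : ℕ) (hm : 1 ≤ m) (z : Fin m → ℂ) (hz : ∀ j, ‖z j‖ ≤ 1) :
    (((0 : ℝ) : ℂ) ∈ (derivative ((X - C ((0 : ℝ) : ℂ)) * ∏ j, (X - C (z j)))).roots) ∨
      (m : ℝ) ≤ (((derivative ((X - C ((0 : ℝ) : ℂ)) * ∏ j, (X - C (z j)))).roots).map
          (fun w : ℂ => (‖w - ((0 : ℝ) : ℂ)‖ ^ 2)⁻¹)).sum := by
  have _ := hm
  set a : ℂ := ((0 : ℝ) : ℂ) with ha
  set P := derivative ((X - C a) * ∏ j, (X - C (z j))) with hP
  by_cases h0 : a ∈ P.roots
  · exact Or.inl h0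
  right
  have ha0 : a = 0 := by rw [ha]; simp
  have hcard : Multiset.card P.roots = m := card_roots_dp a z
  set s : Multiset ℝ := P.roots.map (fun w : ℂ => (‖w - a‖ ^ 2)⁻¹) with hs
  have hscard : Multiset.card s = m := by rw [hs, Multiset.card_map, hcard]
  have hne : ∀ w ∈ P.roots, w - a ≠ 0 := by
    intro w hw h
    rw [sub_eq_zero] at h
    exact h0 (h ▸ hw)
  have hpos : ∀ x ∈ s, 0 < x := by
    intro x hx
    rw [hs, Multiset.mem_map] at hx
    obtain ⟨w, hw, rfl⟩ := hx
    have := norm_pos_iff.2 (hne w hw)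
    positivity
  rw [← hscard]
  apply card_le_sum_of_one_le_prod s hpos
  have hfac : P.eval a = ((m : ℂ) + 1) * (P.roots.map fun w => a - w).prod := by
    have h1 := (IsAlgClosed.splits P).eval_eq_prod_roots a
    rw [leadingCoeff_dp] at h1
    exact h1
  rw [eval_dp] at hfac
  have hn : ∏ j, ‖a - z j‖ = ((m : ℝ) + 1) * (P.roots.map fun w => ‖w - a‖).prod := by
    have h1 := congrArg norm hfac
    rw [norm_prod, norm_mul, norm_prod_map] at h1
    have h2 : ‖(m : ℂ) + 1‖ = (m : ℝ) + 1 := by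
      have : (m : ℂ) + 1 = ((m + 1 : ℕ) : ℂ) := by push_cast; rfl
      rw [this, Complex.norm_natCast]; push_cast; rfl
    rw [h2] at h1
    rw [h1]
    congr 2
    apply Multiset.map_congr rfl
    intro w _
    exact norm_sub_rev _ _
  have hle : ∏ j, ‖a - z j‖ ≤ 1 := by
    apply Finset.prod_le_one
    · intro j _; positivity
    · intro j _
      rw [ha0, zero_sub, norm_neg]
      exact hz j
  have hle2 : (P.roots.map fun w => ‖w - a‖).prod ≤ 1 := by
    have hm0 : (0 : ℝ) ≤ m := Nat.cast_nonneg m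
    have h3 : 0 ≤ (P.roots.map fun w => ‖w - a‖).prod := by
      apply Multiset.prod_nonneg
      intro x hx
      rw [Multiset.mem_map] at hx
      obtain ⟨w, _, rfl⟩ := hx
      positivity
    nlinarith
  have hpos2 : 0 < (P.roots.map fun w => ‖w - a‖).prod := by
    apply Multiset.prod_pos
    intro x hx
    rw [Multiset.mem_map] at hx
    obtain ⟨w, hw, rfl⟩ := hx
    exact norm_pos_iff.2 (hne w hw)
  rw [hs, prod_map_inv_sq, one_le_inv₀ (by positivity)]
  exact pow_le_one₀ hpos2.le hle2

theorem half_le_re {z : ℂ} (hz : ‖z‖ ≤ 1) (h1 : z ≠ 1) : 1 / 2 ≤ (1 / (1 - z)).re := by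
  have hne : 1 - z ≠ 0 := sub_ne_zero.2 (Ne.symm h1)
  have hpos : 0 < Complex.normSq (1 - z) := Complex.normSq_pos.2 hne
  have hz2 : z.re ^ 2 + z.im ^ 2 ≤ 1 := by
    have h := Complex.sq_norm z
    rw [Complex.normSq_apply] at h
    nlinarith [norm_nonneg z]
  have e : (1 / (1 - z)).re = (1 - z).re / Complex.normSq (1 - z) := by
    rw [one_div, Complex.inv_re]
  rw [e, le_div_iff₀ hpos, Complex.normSq_apply]
  simp only [Complex.sub_re, Complex.one_re, Complex.sub_im, Complex.one_im]
  nlinarith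

theorem case_one (m : ℕ) (hm : 1 ≤ m) (z : Fin m → ℂ) (hz : ∀ j, ‖z j‖ ≤ 1) :
    (((1 : ℝ) : ℂ) ∈ (derivative ((X - C ((1 : ℝ) : ℂ)) * ∏ j, (X - C (z j)))).roots) ∨
      (m : ℝ) ≤ (((derivative ((X - C ((1 : ℝ) : ℂ)) * ∏ j, (X - C (z j)))).roots).map
          (fun w : ℂ => (‖w - ((1 : ℝ) : ℂ)‖ ^ 2)⁻¹)).sum := by
  have _ := hm
  set a : ℂ := ((1 : ℝ) : ℂ) with ha
  set q := ∏ j, (X - C (z j)) with hq
  set P := derivative ((X - C a) * q) with hP
  by_cases h0 : a ∈ P.roots
  · exact Or.inl h0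
  right
  have ha1 : a = 1 := by rw [ha]; simp
  have hcard : Multiset.card P.roots = m := card_roots_dp a z
  have hPa : P.eval a ≠ 0 := by
    intro h
    exact h0 ((mem_roots (dp_ne_zero a z)).2 h)
  have hqa : q.eval a ≠ 0 := by
    intro h
    apply hPa
    rw [hP, derivative_mul, eval_add, eval_mul, eval_mul]
    simp [h]
  have hPq : P.eval a = q.eval a := by
    rw [hP, derivative_mul, eval_add, eval_mul, eval_mul]
    simp
  have hP' : (derivative P).eval a = 2 * (derivative q).eval a := by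
    rw [hP, derivative_mul, derivative_add, derivative_mul, derivative_mul]
    simp
    ring
  have hsum : (P.roots.map fun w => 1 / (a - w)).sum = 2 * ∑ j, 1 / (a - z j) := by
    rw [← (IsAlgClosed.splits P).eval_derivative_div_eval_of_ne_zero hPa, hP', hPq, mul_div_assoc,
      (IsAlgClosed.splits q).eval_derivative_div_eval_of_ne_zero hqa]
    have hroots : q.roots = (Finset.univ : Finset (Fin m)).val.map z := by
      rw [hq, Polynomial.roots_prod _ _ (Finset.prod_ne_zero_iff.2 fun j _ => X_sub_C_ne_zero _)]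
      simp
    rw [hroots, Multiset.map_map]
    rfl
  have hre : (m : ℝ) ≤ (P.roots.map fun w => (1 / (a - w)).re).sum := by
    have h1 : (P.roots.map fun w => (1 / (a - w)).re).sum =
        ((P.roots.map fun w => 1 / (a - w)).sum).re := by
      generalize P.roots = r
      induction r using Multiset.induction_on with
      | empty => simp
      | cons x s ih => simp only [Multiset.map_cons, Multiset.sum_cons, Complex.add_re, ih]
    rw [h1, hsum]
    have h2 : (2 * ∑ j, 1 / (a - z j)).re = 2 * ∑ j, (1 / (a - z j)).re := by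
      rw [← Complex.re_sum]; simp
    rw [h2, Finset.mul_sum]
    have h3 : ∑ _j : Fin m, (1 : ℝ) ≤ ∑ j, 2 * (1 / (a - z j)).re := by
      apply Finset.sum_le_sum
      intro j _
      have hzj : z j ≠ 1 := by
        intro h
        apply hqa
        rw [hq, eval_prod]
        apply Finset.prod_eq_zero (Finset.mem_univ j)
        rw [h, ha1]; simp
      have := half_le_re (hz j) hzj
      rw [ha1]
      linarith
    simpa using h3
  have hterm : ∀ w : ℂ, 2 * (1 / (a - w)).re - 1 ≤ (‖w - a‖ ^ 2)⁻¹ := by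
    intro w
    have h1 : (‖w - a‖ ^ 2)⁻¹ = ‖1 / (a - w)‖ ^ 2 := by
      rw [norm_div, norm_one, norm_sub_rev, one_div, inv_pow]
    rw [h1]
    have h2 := Complex.abs_re_le_norm (1 / (a - w))
    have h3 := le_abs_self (1 / (a - w)).re
    nlinarith [sq_nonneg (‖1 / (a - w)‖ - 1)]
  have hfin : (P.roots.map fun w => (2 * (1 / (a - w)).re - 1)).sum ≤
      (P.roots.map fun w => (‖w - a‖ ^ 2)⁻¹).sum :=
    Multiset.sum_map_le_sum_map _ _ fun w _ => hterm w
  refine le_trans ?_ hfin
  have h4 : (P.roots.map fun w => (2 * (1 / (a - w)).re - 1)).sum =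
      2 * (P.roots.map fun w => (1 / (a - w)).re).sum - Multiset.card P.roots := by
    generalize P.roots = r
    induction r using Multiset.induction_on with
    | empty => simp
    | cons x s ih =>
      simp only [Multiset.map_cons, Multiset.sum_cons, ih, Multiset.card_cons]
      push_cast
      ring
  rw [h4, hcard]
  linarith

end Pool.Agent.Work.F0bc87
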