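import Mathlib

/-!
From the polynomial to the vector `u`.
-/

set_option autoImplicit false

open Finset Polynomial MeasureTheory

namespace Pool.Agent.Work.F0bc87

section poly

variable {m : ℕ}

/-- the cofactor -/
noncomputable def qq (z : Fin m → ℂ) : ℂ[X] := ∏ j, (X - C (z j))

/-- the polynomial -/
noncomputable def pp (a : ℂ) (z : Fin m → ℂ) : ℂ[X] := (X - C a) * ∏ j, (X - C (z j))

lemma qq_monic (z : Fin m → ℂ) : (qq z).Monic := monic_prod_of_monic _ _ fun _ _ => monic_X_sub_C _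

lemma qq_natDegree (z : Fin m → ℂ) : (qq z).natDegree = m := by
  unfold qq
  rw [natDegree_prod_of_monic _ _ (fun _ _ => monic_X_sub_C _)]
  simp

lemma pp_eq (a : ℂ) (z : Fin m → ℂ) : pp a z = (X - C a) * qq z := rfl

lemma pp_monic (a : ℂ) (z : Fin m → ℂ) : (pp a z).Monic := (monic_X_sub_C a).mul (qq_monic z)

lemma pp_natDegree (a : ℂ) (z : Fin m → ℂ) : (pp a z).natDegree = m + 1 := by
  rw [pp_eq, (monic_X_sub_C a).natDegree_mul (qq_monic z), natDegree_X_sub_C, qq_natDegree]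
  ring

/-- enumeration of the critical points -/
lemma exists_w (a : ℂ) (z : Fin m → ℂ) :
    ∃ w : Fin m → ℂ, (derivative (pp a z)).roots = (univ : Finset (Fin m)).val.map w ∧
      derivative (pp a z) = C ((m : ℂ) + 1) * ∏ k, (X - C (w k)) := by
  have hlead : (derivative (pp a z)).leadingCoeff = (m : ℂ) + 1 := by
    rw [leadingCoeff_derivative, (pp_monic a z).leadingCoeff, pp_natDegree]
    push_cast
    ring
  have hdeg : (derivative (pp a z)).natDegree = m := by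
    rw [natDegree_derivative, pp_natDegree]
    simp
  have hsplit : (derivative (pp a z)).Splits := IsAlgClosed.splits _
  have hcard : Multiset.card (derivative (pp a z)).roots = m := by
    rw [← hsplit.natDegree_eq_card_roots, hdeg]
  obtain ⟨l, hl⟩ : ∃ l : List ℂ, (l : Multiset ℂ) = (derivative (pp a z)).roots :=
    Quotient.exists_rep _
  have hlen : l.length = m := by
    rw [← hcard, ← hl]
    rfl
  subst hlen
  refine ⟨l.get, ?_, ?_⟩
  · rw [← hl, Fin.univ_val_map, List.ofFn_get]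
  · have h1 := C_leadingCoeff_mul_prod_multiset_X_sub_C
      (p := derivative (pp a z)) (by rw [hcard, hdeg])
    rw [hlead, ← hl] at h1
    rw [← h1]
    congr 1
    have h2 : (∏ k : Fin l.length, (X - C (l.get k))) =
        ((univ : Finset (Fin l.length)).val.map (fun k => X - C (l.get k))).prod := rfl
    rw [h2]
    have h3 : (univ : Finset (Fin l.length)).val.map (fun k => X - C (l.get k))
        = Multiset.map (fun c : ℂ => X - C c) ((univ : Finset (Fin l.length)).val.map l.get) := by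
      rw [Multiset.map_map]
      rfl
    rw [h3, Fin.univ_val_map, List.ofFn_get]

lemma eval_deriv_pp (a : ℂ) (z : Fin m → ℂ) (x : ℂ) :
    (derivative (pp a z)).eval x
      = (qq z).eval x + (x - a) * ∑ j, ∏ i ∈ univ.erase j, (x - z i) := by
  rw [pp_eq, derivative_mul]
  unfold qq
  rw [derivative_prod_finset]
  simp [eval_finsetSum, eval_prod]

lemma eval_qq (z : Fin m → ℂ) (x : ℂ) : (qq z).eval x = ∏ j, (x - z j) := by
  unfold qq
  simp [eval_prod]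

/-- `|a - z| ≤ |1 - a z|` in the disc. -/
lemma norm_a_sub_le (a : ℝ) (ha0 : 0 < a) (ha1 : a < 1) (z : ℂ) (hz : ‖z‖ ≤ 1) :
    ‖(a : ℂ) - z‖ ≤ ‖1 - (a : ℂ) * z‖ := by
  have hz2 : z.re ^ 2 + z.im ^ 2 ≤ 1 := by
    have : ‖z‖ ^ 2 ≤ 1 := by nlinarith [norm_nonneg z]
    rw [Complex.sq_norm, Complex.normSq_apply] at this
    nlinarith
  have h : ‖(a : ℂ) - z‖ ^ 2 ≤ ‖1 - (a : ℂ) * z‖ ^ 2 := by
    rw [Complex.sq_norm, Complex.normSq_apply, Complex.sq_norm, Complex.normSq_apply]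
    simp
    have : 0 ≤ (1 - a ^ 2) * (1 - (z.re ^ 2 + z.im ^ 2)) :=
      mul_nonneg (by nlinarith) (by linarith)
    nlinarith
  exact le_of_sq_le_sq h (norm_nonneg _)

/-- `Re ((x - a)/(x - z)) ≥ (x - a)/(x + 1)` for real `x > 1`. -/
lemma re_inv_ge (x : ℝ) (hx : 1 < x) (z : ℂ) (hz : ‖z‖ ≤ 1) :
    1 / (x + 1) ≤ (((x : ℂ) - z)⁻¹).re := by
  have hz2 : z.re ^ 2 + z.im ^ 2 ≤ 1 := by
    have : ‖z‖ ^ 2 ≤ 1 := by nlinarith [norm_nonneg z]
    rw [Complex.sq_norm, Complex.normSq_apply] at this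
    nlinarith
  have hre : z.re ≤ 1 := by nlinarith [sq_nonneg z.im, sq_nonneg (z.re - 1)]
  rw [Complex.inv_re, Complex.normSq_apply]
  simp
  have hpos : 0 < (x - z.re) * (x - z.re) + z.im * z.im := by nlinarith [sq_nonneg z.im]
  rw [inv_eq_one_div, div_le_div_iff₀ (by linarith) hpos]
  have hre2 : -1 ≤ z.re := by nlinarith [sq_nonneg z.im, sq_nonneg (z.re + 1)]
  nlinarith [mul_nonneg (by linarith : 0 ≤ x - 1) (by linarith : 0 ≤ 1 + z.re)]

/-- The key inequality (K1), in product form. -/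
lemma key_K1 (hm : 1 ≤ m) (a : ℝ) (ha0 : 0 < a) (ha1 : a < 1) (z : Fin m → ℂ)
    (hz : ∀ j, ‖z j‖ ≤ 1) (w : Fin m → ℂ)
    (hw : derivative (pp (a : ℂ) z) = C ((m : ℂ) + 1) * ∏ k, (X - C (w k))) :
    (1 + m * (1 - a)) * ∏ k, ‖(a : ℂ) - w k‖ ≤ ∏ k, ‖1 - (a : ℂ) * w k‖ := by
  have hmR : (0 : ℝ) < (m : ℝ) + 1 := by positivity
  have hm1 : ‖(m : ℂ) + 1‖ = (m : ℝ) + 1 := by
    have : (m : ℂ) + 1 = ((m + 1 : ℕ) : ℂ) := by push_cast; ring
    rw [this, Complex.norm_natCast]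
    push_cast; ring
  have hev : ∀ x : ℂ, (derivative (pp (a : ℂ) z)).eval x = ((m : ℂ) + 1) * ∏ k, (x - w k) := by
    intro x
    rw [hw]
    simp [eval_prod]
  obtain ⟨x, hx⟩ : ∃ x : ℝ, x = 1 / a := ⟨_, rfl⟩
  have hxa : a * x = 1 := by rw [hx]; field_simp
  have hx1 : 1 < x := by rw [hx, lt_div_iff₀ ha0]; linarith
  -- at `a`
  have h1 : ((m : ℂ) + 1) * ∏ k, ((a : ℂ) - w k) = ∏ j, ((a : ℂ) - z j) := by
    rw [← hev, eval_deriv_pp, eval_qq]
    simp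
  -- at `x`
  have hne : ∀ j, (x : ℂ) - z j ≠ 0 := by
    intro j h
    have h2 : z j = (x : ℂ) := by linear_combination -h
    have h3 := hz j
    rw [h2, Complex.norm_real, Real.norm_eq_abs, abs_of_pos (by linarith)] at h3
    linarith
  have h2 : ((m : ℂ) + 1) * ∏ k, ((x : ℂ) - w k)
      = (∏ j, ((x : ℂ) - z j)) * (1 + ((x : ℂ) - a) * ∑ j, ((x : ℂ) - z j)⁻¹) := by
    rw [← hev, eval_deriv_pp, eval_qq]
    have : ∀ j ∈ (univ : Finset (Fin m)), ∏ i ∈ univ.erase j, ((x : ℂ) - z i)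
        = (∏ i, ((x : ℂ) - z i)) * ((x : ℂ) - z j)⁻¹ := by
      intro j _
      rw [← Finset.mul_prod_erase univ (fun i => (x : ℂ) - z i) (Finset.mem_univ j)]
      field_simp [hne j]
    rw [Finset.sum_congr rfl this, ← Finset.mul_sum]
    ring
  have h3 : 1 + m * (1 - a) ≤ ‖1 + ((x : ℂ) - a) * ∑ j, ((x : ℂ) - z j)⁻¹‖ := by
    refine le_trans ?_ (Complex.re_le_norm _)
    have e1 : (1 + ((x : ℂ) - a) * ∑ j, ((x : ℂ) - z j)⁻¹).re
        = 1 + (x - a) * ∑ j, (((x : ℂ) - z j)⁻¹).re := by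
      rw [Complex.add_re, Complex.one_re, ← Complex.ofReal_sub, Complex.re_ofReal_mul,
        Complex.re_sum]
    rw [e1]
    have e2 : (m : ℝ) * (1 / (x + 1)) ≤ ∑ j, (((x : ℂ) - z j)⁻¹).re := by
      have := Finset.sum_le_sum (s := (univ : Finset (Fin m)))
        (fun j _ => re_inv_ge x hx1 (z j) (hz j))
      simpa using this
    have e3 : (x - a) * (m * (1 / (x + 1))) = m * (1 - a) := by
      have hx0 : x + 1 ≠ 0 := by linarith
      field_simp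
      nlinarith
    have e4 := mul_le_mul_of_nonneg_left e2 (by linarith : 0 ≤ x - a)
    linarith
  -- norms
  have n1 : ((m : ℝ) + 1) * ∏ k, ‖(a : ℂ) - w k‖ = ∏ j, ‖(a : ℂ) - z j‖ := by
    have := congrArg norm h1
    rwa [norm_mul, hm1, norm_prod, norm_prod] at this
  have n2 : ((m : ℝ) + 1) * ∏ k, ‖(x : ℂ) - w k‖
      = (∏ j, ‖(x : ℂ) - z j‖) * ‖1 + ((x : ℂ) - a) * ∑ j, ((x : ℂ) - z j)⁻¹‖ := by
    have := congrArg norm h2
    rwa [norm_mul, norm_mul, hm1, norm_prod, norm_prod] at this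
  have n3 : ∀ y : Fin m → ℂ, ∏ k, ‖1 - (a : ℂ) * y k‖ = a ^ m * ∏ k, ‖(x : ℂ) - y k‖ := by
    intro y
    have : ∀ k ∈ (univ : Finset (Fin m)), ‖1 - (a : ℂ) * y k‖ = a * ‖(x : ℂ) - y k‖ := by
      intro k _
      have e : (1 : ℂ) - (a : ℂ) * y k = (a : ℂ) * ((x : ℂ) - y k) := by
        have : (a : ℂ) * (x : ℂ) = 1 := by rw [← Complex.ofReal_mul, hxa]; simp
        linear_combination -this
      rw [e, norm_mul, Complex.norm_real, Real.norm_eq_abs, abs_of_pos ha0]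
    rw [Finset.prod_congr rfl this, Finset.prod_mul_distrib, Finset.prod_const]
    simp
  have n4 : ∏ j, ‖(a : ℂ) - z j‖ ≤ ∏ j, ‖1 - (a : ℂ) * z j‖ :=
    Finset.prod_le_prod (fun _ _ => norm_nonneg _) (fun j _ => norm_a_sub_le a ha0 ha1 (z j) (hz j))
  have hc : 0 ≤ 1 + m * (1 - a) := by
    have : 0 ≤ (m : ℝ) * (1 - a) := mul_nonneg (by positivity) (by linarith)
    linarith
  have n5 : (1 + m * (1 - a)) * ∏ j, ‖(a : ℂ) - z j‖ ≤ ((m : ℝ) + 1) * ∏ k, ‖1 - (a : ℂ) * w k‖ := by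
    calc (1 + m * (1 - a)) * ∏ j, ‖(a : ℂ) - z j‖
        ≤ (1 + m * (1 - a)) * ∏ j, ‖1 - (a : ℂ) * z j‖ := mul_le_mul_of_nonneg_left n4 hc
      _ = a ^ m * ((∏ j, ‖(x : ℂ) - z j‖) * (1 + m * (1 - a))) := by rw [n3 z]; ring
      _ ≤ a ^ m * ((∏ j, ‖(x : ℂ) - z j‖) * ‖1 + ((x : ℂ) - a) * ∑ j, ((x : ℂ) - z j)⁻¹‖) := by
          apply mul_le_mul_of_nonneg_left _ (by positivity)
          apply mul_le_mul_of_nonneg_left h3
          exact Finset.prod_nonneg fun _ _ => norm_nonneg _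
      _ = ((m : ℝ) + 1) * ∏ k, ‖1 - (a : ℂ) * w k‖ := by rw [← n2, n3 w]; ring
  rw [← n1] at n5
  have n6 : ((m : ℝ) + 1) * ((1 + m * (1 - a)) * ∏ k, ‖(a : ℂ) - w k‖)
      ≤ ((m : ℝ) + 1) * ∏ k, ‖1 - (a : ℂ) * w k‖ := by linarith
  exact le_of_mul_le_mul_left n6 hmR

/-- Part 1. -/
theorem part1 (hm : 1 ≤ m) (a : ℝ) (ha0 : 0 < a) (ha1 : a < 1) (z : Fin m → ℂ)
    (hz : ∀ j, ‖z j‖ ≤ 1)
    (hroot : (a : ℂ) ∉ (derivative ((X - C (a : ℂ)) * ∏ j, (X - C (z j)))).roots)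
    (hsum : (((derivative ((X - C (a : ℂ)) * ∏ j, (X - C (z j)))).roots).map
          (fun w : ℂ => (‖w - (a : ℂ)‖ ^ 2)⁻¹)).sum ≤ m) :
    ∃ u : Fin m → ℂ, (∑ k, ‖u k‖ ^ 2 ≤ m) ∧
      ((1 + m * (1 - a)) ^ 2
        ≤ ∏ k, (1 + (1 - a ^ 2) * (‖u k‖ ^ 2 - ‖1 - (a : ℂ) * u k‖ ^ 2))) ∧
      ((m + 1) * ‖∫ s in (0:ℝ)..a, ∏ k, (1 - (s : ℂ) * u k)‖ ≤ a * ∏ k, ‖u k‖) := by
  obtain ⟨w, hw1, hw2⟩ := exists_w (a : ℂ) z
  unfold pp at hw1
  rw [hw1] at hroot hsum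
  have hwa : ∀ k, (a : ℂ) - w k ≠ 0 := by
    intro k h
    apply hroot
    rw [Multiset.mem_map]
    exact ⟨k, Finset.mem_univ_val k, by linear_combination -h⟩
  have hwpos : ∀ k, 0 < ‖(a : ℂ) - w k‖ := fun k => norm_pos_iff.mpr (hwa k)
  have hmR : (0 : ℝ) < (m : ℝ) + 1 := by positivity
  have hm1 : ‖(m : ℂ) + 1‖ = (m : ℝ) + 1 := by
    have : (m : ℂ) + 1 = ((m + 1 : ℕ) : ℂ) := by push_cast; ring
    rw [this, Complex.norm_natCast]
    push_cast; ring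
  have hev : ∀ x : ℂ, (derivative (pp (a : ℂ) z)).eval x = ((m : ℂ) + 1) * ∏ k, (x - w k) := by
    intro x
    rw [hw2]
    simp [eval_prod]
  refine ⟨fun k => ((a : ℂ) - w k)⁻¹, ?_, ?_, ?_⟩
  · rw [Multiset.map_map] at hsum
    have e : (Multiset.map ((fun w : ℂ => (‖w - (a : ℂ)‖ ^ 2)⁻¹) ∘ w)
        (univ : Finset (Fin m)).val).sum = ∑ k, ‖((a : ℂ) - w k)⁻¹‖ ^ 2 := by
      change ∑ k, ((fun w : ℂ => (‖w - (a : ℂ)‖ ^ 2)⁻¹) ∘ w) k = _
      apply Finset.sum_congr rfl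
      intro k _
      simp only [Function.comp_apply]
      rw [norm_inv, norm_sub_rev, inv_pow]
    rw [e] at hsum
    exact hsum
  · have h1 := key_K1 hm a ha0 ha1 z hz w hw2
    have hfac : ∀ k ∈ (univ : Finset (Fin m)),
        1 + (1 - a ^ 2) * (‖((a : ℂ) - w k)⁻¹‖ ^ 2 - ‖1 - (a : ℂ) * ((a : ℂ) - w k)⁻¹‖ ^ 2)
        = (‖1 - (a : ℂ) * w k‖ * ‖(a : ℂ) - w k‖⁻¹) ^ 2 := by
      intro k _
      have e1 : ‖1 - (a : ℂ) * w k‖ * ‖(a : ℂ) - w k‖⁻¹
          = ‖(a : ℂ) + (1 - (a : ℂ) ^ 2) * ((a : ℂ) - w k)⁻¹‖ := by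
        rw [← norm_inv, ← norm_mul]
        congr 1
        field_simp [hwa k]
        ring
      rw [e1]
      obtain ⟨v, hv⟩ : ∃ v : ℂ, v = ((a : ℂ) - w k)⁻¹ := ⟨_, rfl⟩
      rw [← hv, Complex.sq_norm, Complex.normSq_apply, Complex.sq_norm, Complex.normSq_apply,
        Complex.sq_norm, Complex.normSq_apply]
      have e2 : (1 : ℂ) - (a : ℂ) ^ 2 = ((1 - a ^ 2 : ℝ) : ℂ) := by push_cast; ring
      rw [e2]
      simp only [Complex.add_re, Complex.add_im, Complex.sub_re, Complex.sub_im, Complex.mul_re,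
        Complex.mul_im, Complex.ofReal_re, Complex.ofReal_im, Complex.one_re, Complex.one_im]
      ring
    rw [Finset.prod_congr rfl hfac, Finset.prod_pow]
    have h0 : 0 ≤ 1 + (m : ℝ) * (1 - a) := by
      have : 0 ≤ (m : ℝ) * (1 - a) := mul_nonneg (by positivity) (by linarith)
      linarith
    apply pow_le_pow_left₀ h0
    rw [Finset.prod_mul_distrib, Finset.prod_inv_distrib, ← div_eq_mul_inv,
      le_div_iff₀ (Finset.prod_pos fun k _ => hwpos k)]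
    exact h1
  · -- (R0)
    have hcont : Continuous (fun s : ℝ => ∏ k, (1 - (s : ℂ) * ((a : ℂ) - w k)⁻¹)) := by fun_prop
    have hder : ∀ s ∈ Set.uIcc 0 a, HasDerivAt
        (fun s : ℝ => -(pp (a : ℂ) z).eval ((a : ℂ) - (s : ℂ)))
        (((m : ℂ) + 1) * (∏ k, ((a : ℂ) - w k)) * ∏ k, (1 - (s : ℂ) * ((a : ℂ) - w k)⁻¹)) s := by
      intro s _
      have h1 : HasDerivAt (fun x : ℝ => (x : ℂ)) 1 s := by
        simpa using (hasDerivAt_id s).ofReal_comp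
      have h2 : HasDerivAt (fun x : ℝ => (a : ℂ) - (x : ℂ)) (-1) s := by
        simpa using h1.const_sub (a : ℂ)
      have h3 := ((pp (a : ℂ) z).hasDerivAt ((a : ℂ) - (s : ℂ))).comp_of_eq s h2 rfl
      have h4 := h3.neg
      refine h4.congr_deriv ?_
      rw [hev]
      have e : ∀ k ∈ (univ : Finset (Fin m)), (a : ℂ) - (s : ℂ) - w k
          = ((a : ℂ) - w k) * (1 - (s : ℂ) * ((a : ℂ) - w k)⁻¹) := by
        intro k _
        field_simp [hwa k]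
        ring
      rw [Finset.prod_congr rfl e, Finset.prod_mul_distrib]
      ring
    have hI := intervalIntegral.integral_eq_sub_of_hasDerivAt hder
      ((continuous_const.mul hcont).intervalIntegrable _ _)
    rw [intervalIntegral.integral_const_mul] at hI
    have hv0 : (pp (a : ℂ) z).eval ((a : ℂ) - ((0 : ℝ) : ℂ)) = 0 := by
      rw [pp_eq]; simp
    have hva : (pp (a : ℂ) z).eval ((a : ℂ) - (a : ℂ)) = -(a : ℂ) * ∏ j, (-(z j)) := by
      rw [pp_eq, eval_mul, eval_qq]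
      simp
    rw [hv0, hva] at hI
    have hn := congrArg norm hI
    rw [norm_mul, norm_mul, hm1, norm_prod] at hn
    have e5 : ‖-(-(a : ℂ) * ∏ j, (-(z j))) - -0‖ = a * ∏ j, ‖z j‖ := by
      rw [neg_zero, sub_zero, neg_mul, neg_neg, norm_mul, norm_prod, Complex.norm_real,
        Real.norm_eq_abs, abs_of_pos ha0]
      simp
    rw [e5] at hn
    have hprod1 : ∏ j, ‖z j‖ ≤ 1 := Finset.prod_le_one (fun _ _ => norm_nonneg _) fun j _ => hz j
    have hP : 0 < ∏ k, ‖(a : ℂ) - w k‖ := Finset.prod_pos fun k _ => hwpos k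
    have e6 : ∏ k, ‖((a : ℂ) - w k)⁻¹‖ = (∏ k, ‖(a : ℂ) - w k‖)⁻¹ := by
      rw [← Finset.prod_inv_distrib]
      apply Finset.prod_congr rfl
      intro k _
      rw [norm_inv]
    rw [e6, ← div_eq_mul_inv, le_div_iff₀ hP]
    calc _ = ((m : ℝ) + 1) * (∏ k, ‖(a : ℂ) - w k‖)
          * ‖∫ s in (0:ℝ)..a, ∏ k, (1 - (s : ℂ) * ((a : ℂ) - w k)⁻¹)‖ := by ring
      _ = a * ∏ j, ‖z j‖ := hn
      _ ≤ a * 1 := mul_le_mul_of_nonneg_left hprod1 ha0.le
      _ = a := mul_one a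

end poly

end Pool.Agent.Work.F0bc87
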