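import Mathlib

/-!
Common definitions for the proof of problem MP_f0bc87_an (frozen statement S06653).
-/

set_option autoImplicit false

namespace Pool.Agent.Work.F0bc87

/-- Upper bound for `m ∫_0^a s K(s) B(s)^((m-2)/2) ds`, where `B(s) = 1 - ((1-t^2+a^2)/a) s + s^2`,
`r^2 ≥ B(a/2)`, `t^2 = B(a)`. -/
noncomputable def Yb (m : ℕ) (a t r : ℝ) : ℝ :=
  a ^ 2 / 4 * (2 / ((1 - r) ^ 2 * (m - 1)) +
    27183 / 10000 * m * (2 / 3 * r ^ (m - 2) + 5 / 6 * t ^ (m - 2)))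

/-- The scalar statement needed at `(m, a)`. -/
def ScalarOK (m : ℕ) (a : ℝ) : Prop :=
  ∃ t r : ℝ, 0 < t ∧ t ≤ 1 ∧ (1 + (1 - a ^ 2) * (1 - t ^ 2)) ^ m ≤ (1 + m * (1 - a)) ^ 2 ∧
    0 < r ∧ r < 1 ∧ (1 + t ^ 2) / 2 - a ^ 2 / 4 ≤ r ^ 2 ∧
    ∀ U : ℝ, 1 - t ^ 2 + a ^ 2 ≤ 2 * a * U → U ≤ 1 →
      a * U + t ^ (m + 1) + Yb m a t r * (1 - U ^ 2) < 1

end Pool.Agent.Work.F0bc87
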