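import Mathlib

/-!
Algebraic and AM-GM lemmas for a finite family `u : Fin m → ℂ`.
-/

set_option autoImplicit false

open Finset

namespace Pool.Agent.Work.F0bc87

/-- AM-GM in exponential form. -/
lemma prod_le_exp {ι : Type*} (S : Finset ι) (x : ι → ℝ) (hx : ∀ i ∈ S, 0 ≤ x i) (M c : ℝ)
    (hM : 0 < M) (h : ∑ i ∈ S, x i ≤ c * M) :
    ∏ i ∈ S, x i ≤ M ^ S.card * Real.exp (c - S.card) := by
  have h1 : ∏ i ∈ S, x i ≤ ∏ i ∈ S, (M * Real.exp (x i / M - 1)) := by
    apply Finset.prod_le_prod hx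
    intro i hi
    have h2 := Real.add_one_le_exp (x i / M - 1)
    have h3 : x i / M ≤ Real.exp (x i / M - 1) := by linarith
    calc x i = M * (x i / M) := by field_simp
      _ ≤ M * Real.exp (x i / M - 1) := mul_le_mul_of_nonneg_left h3 hM.le
  refine h1.trans ?_
  rw [Finset.prod_mul_distrib, Finset.prod_const, ← Real.exp_sum]
  apply mul_le_mul_of_nonneg_left _ (pow_nonneg hM.le _)
  apply Real.exp_le_exp.mpr
  rw [Finset.sum_sub_distrib, ← Finset.sum_div]
  simp only [Finset.sum_const, nsmul_eq_mul, mul_one]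
  have : (∑ i ∈ S, x i) / M ≤ c := by rw [div_le_iff₀ hM]; exact h
  linarith

section vec

variable {m : ℕ} (u : Fin m → ℂ)

/-- mean -/
noncomputable def mu : ℂ := (∑ k, u k) / m

/-- product of all factors -/
noncomputable def PP (s : ℂ) : ℂ := ∏ k, (1 - s * u k)

/-- product omitting the factor `k` -/
noncomputable def Pe (k : Fin m) (s : ℂ) : ℂ := ∏ l ∈ univ.erase k, (1 - s * u l)

/-- product omitting the factors `k`, `l` -/
noncomputable def Pee (k l : Fin m) (s : ℂ) : ℂ := ∏ j ∈ (univ.erase k).erase l, (1 - s * u j)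

/-- the error term -/
noncomputable def TT (s : ℂ) : ℂ := ∑ k, u k * (u k - mu u) * Pe u k s

lemma PP_eq (k : Fin m) (s : ℂ) : PP u s = (1 - s * u k) * Pe u k s := by
  unfold PP Pe
  exact (Finset.mul_prod_erase univ (fun j => 1 - s * u j) (Finset.mem_univ k)).symm

lemma Pe_eq (k l : Fin m) (h : l ≠ k) (s : ℂ) : Pe u k s = (1 - s * u l) * Pee u k l s := by
  unfold Pee Pe
  exact (Finset.mul_prod_erase (univ.erase k) (fun j => 1 - s * u j)
    (Finset.mem_erase.mpr ⟨h, Finset.mem_univ l⟩)).symm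

lemma Pee_comm (k l : Fin m) (s : ℂ) : Pee u k l s = Pee u l k s := by
  unfold Pee
  rw [Finset.erase_right_comm]

lemma sum_delta (hm : 0 < m) : ∑ k, (u k - mu u) = 0 := by
  have : (m : ℂ) ≠ 0 := by exact_mod_cast hm.ne'
  rw [Finset.sum_sub_distrib]
  simp only [Finset.sum_const, Finset.card_univ, Fintype.card_fin, nsmul_eq_mul, mu]
  field_simp
  ring

lemma sum_u_delta (hm : 0 < m) : ∑ k, u k * (u k - mu u) = ∑ k, (u k - mu u) ^ 2 := by
  have h := sum_delta u hm
  have h1 : ∑ k, (u k - mu u) ^ 2 = ∑ k, u k * (u k - mu u) - mu u * ∑ k, (u k - mu u) := by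
    rw [Finset.mul_sum, ← Finset.sum_sub_distrib]
    apply Finset.sum_congr rfl
    intro k _
    ring
  rw [h1, h]
  ring

/-- Second formula for `T`. -/
lemma TT_eq2 (hm : 0 < m) (s : ℂ) :
    (1 - s * mu u) * TT u s = ∑ k, (u k - mu u) ^ 2 * Pe u k s := by
  unfold TT
  rw [Finset.mul_sum]
  have h1 : ∀ k : Fin m, (1 - s * mu u) * (u k * (u k - mu u) * Pe u k s)
      = (u k - mu u) ^ 2 * Pe u k s + PP u s * (u k * (u k - mu u) - (u k - mu u) ^ 2) := by
    intro k
    rw [PP_eq u k s]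
    ring
  rw [Finset.sum_congr rfl (fun k _ => h1 k), Finset.sum_add_distrib, ← Finset.mul_sum,
    Finset.sum_sub_distrib, sum_u_delta u hm, sub_self, mul_zero, add_zero]

/-- Third formula for `T`. -/
lemma TT_eq3 (hm : 0 < m) (s : ℂ) :
    2 * m * TT u s = ∑ k, ∑ l, (u k - u l) ^ 2 * (if l = k then 0 else Pee u k l s) := by
  have hm' : (m : ℂ) ≠ 0 := by exact_mod_cast hm.ne'
  have h0 : ∀ k, (m : ℂ) * (u k - mu u) = ∑ l, (u k - u l) := by
    intro k
    rw [Finset.sum_sub_distrib]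
    simp only [Finset.sum_const, Finset.card_univ, Fintype.card_fin, nsmul_eq_mul, mu]
    field_simp
  have h1 : (m : ℂ) * TT u s = ∑ k, ∑ l, u k * (u k - u l) * Pe u k s := by
    unfold TT
    rw [Finset.mul_sum]
    apply Finset.sum_congr rfl
    intro k _
    have : ∑ l, u k * (u k - u l) * Pe u k s = u k * Pe u k s * ∑ l, (u k - u l) := by
      rw [Finset.mul_sum]
      apply Finset.sum_congr rfl
      intro l _
      ring
    rw [this, ← h0 k]
    ring
  have h2 : (m : ℂ) * TT u s = ∑ k, ∑ l, u l * (u l - u k) * Pe u l s := by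
    rw [h1, Finset.sum_comm]
  have h3 : 2 * m * TT u s
      = ∑ k, ∑ l, (u k * (u k - u l) * Pe u k s + u l * (u l - u k) * Pe u l s) := by
    simp only [Finset.sum_add_distrib]
    rw [← h1, ← h2]
    ring
  rw [h3]
  apply Finset.sum_congr rfl
  intro k _
  apply Finset.sum_congr rfl
  intro l _
  by_cases h : l = k
  · subst h
    simp
  · rw [if_neg h, Pe_eq u k l h s, Pe_eq u l k (Ne.symm h) s, Pee_comm u l k s]
    ring

end vec

end Pool.Agent.Work.F0bc87
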