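import Mathlib
import Pool.Agent.Work.MP_f0bc87_an.Part2a

/-!
Norm bounds for the error term `TT`.
-/

set_option autoImplicit false

open Finset

namespace Pool.Agent.Work.F0bc87

section vec

variable {m : ℕ} (u : Fin m → ℂ)

/-- sum of squares -/
noncomputable def SS : ℝ := ∑ k, ‖u k‖ ^ 2

lemma norm_sq_re_im (z : ℂ) : ‖z‖ ^ 2 = z.re ^ 2 + z.im ^ 2 := by
  rw [Complex.sq_norm, Complex.normSq_apply]
  ring

lemma norm_sq_one_sub (s : ℝ) (z : ℂ) :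
    ‖1 - (s : ℂ) * z‖ ^ 2 = 1 - 2 * s * z.re + s ^ 2 * ‖z‖ ^ 2 := by
  rw [norm_sq_re_im, norm_sq_re_im]
  simp
  ring

lemma mu_re (hm : 0 < m) : (m : ℝ) * (mu u).re = ∑ k, (u k).re := by
  have hm' : (m : ℂ) ≠ 0 := by exact_mod_cast hm.ne'
  have h : (m : ℂ) * mu u = ∑ k, u k := by
    unfold mu
    field_simp
  have h2 := congrArg Complex.re h
  simpa using h2

lemma mu_im (hm : 0 < m) : (m : ℝ) * (mu u).im = ∑ k, (u k).im := by
  have hm' : (m : ℂ) ≠ 0 := by exact_mod_cast hm.ne'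
  have h : (m : ℂ) * mu u = ∑ k, u k := by
    unfold mu
    field_simp
  have h2 := congrArg Complex.im h
  simpa using h2

lemma sumB (hm : 0 < m) (s : ℝ) :
    ∑ k, ‖1 - (s : ℂ) * u k‖ ^ 2 = m - 2 * s * (m * (mu u).re) + s ^ 2 * SS u := by
  simp only [norm_sq_one_sub, Finset.sum_add_distrib, Finset.sum_sub_distrib, ← Finset.mul_sum,
    mu_re u hm, SS]
  simp

lemma D2_eq (hm : 0 < m) : ∑ k, ‖u k - mu u‖ ^ 2 = SS u - m * ‖mu u‖ ^ 2 := by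
  have h1 := mu_re u hm
  have h2 := mu_im u hm
  have h3 : ∀ k, ‖u k - mu u‖ ^ 2 = ‖u k‖ ^ 2 - 2 * (mu u).re * (u k).re
      - 2 * (mu u).im * (u k).im + ‖mu u‖ ^ 2 := by
    intro k
    rw [norm_sq_re_im, norm_sq_re_im, norm_sq_re_im]
    simp
    ring
  simp only [h3, Finset.sum_add_distrib, Finset.sum_sub_distrib, ← Finset.mul_sum, ← h1, ← h2, SS]
  simp
  rw [norm_sq_re_im]
  ring

lemma pair_sum (hm : 0 < m) :
    ∑ k, ∑ l, ‖u k - u l‖ ^ 2 = 2 * m * (SS u - m * ‖mu u‖ ^ 2) := by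
  have h1 := mu_re u hm
  have h2 := mu_im u hm
  have h3 : ∀ k l, ‖u k - u l‖ ^ 2 = ‖u k‖ ^ 2 + ‖u l‖ ^ 2 - 2 * ((u k).re * (u l).re)
      - 2 * ((u k).im * (u l).im) := by
    intro k l
    rw [norm_sq_re_im, norm_sq_re_im, norm_sq_re_im]
    simp
    ring
  simp only [h3, Finset.sum_add_distrib, Finset.sum_sub_distrib, ← Finset.mul_sum, ← Finset.sum_mul,
    ← h1, ← h2, SS]
  simp
  rw [norm_sq_re_im]
  simp only [← Finset.mul_sum]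
  ring

lemma Pee_bound (hm : 2 ≤ m) (s : ℂ) (M : ℝ) (hM : 0 < M) (k l : Fin m) (hkl : l ≠ k)
    (h : ∑ k, ‖1 - s * u k‖ ^ 2 ≤ m * M) :
    ‖Pee u k l s‖ ≤ Real.exp 1 * Real.sqrt M ^ (m - 2) := by
  have hc : ((univ.erase k).erase l).card = m - 2 := by
    rw [Finset.card_erase_of_mem (Finset.mem_erase.mpr ⟨hkl, Finset.mem_univ l⟩),
      Finset.card_erase_of_mem (Finset.mem_univ k), Finset.card_univ, Fintype.card_fin]
    omega
  have h1 : ‖Pee u k l s‖ ^ 2 ≤ M ^ (m - 2) * Real.exp 2 := by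
    unfold Pee
    rw [norm_prod, ← Finset.prod_pow]
    have h2 := prod_le_exp ((univ.erase k).erase l) (fun j => ‖1 - s * u j‖ ^ 2)
      (fun i _ => sq_nonneg _) M m hM (by
        refine le_trans ?_ h
        apply Finset.sum_le_sum_of_subset_of_nonneg (Finset.subset_univ _)
        intro i _ _
        exact sq_nonneg _)
    rw [hc] at h2
    refine h2.trans (le_of_eq ?_)
    congr 2
    push_cast [Nat.cast_sub hm]
    ring
  have h3 : (Real.exp 1 * Real.sqrt M ^ (m - 2)) ^ 2 = M ^ (m - 2) * Real.exp 2 := by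
    rw [mul_pow, ← pow_mul, mul_comm (m - 2) 2, pow_mul, Real.sq_sqrt hM.le, ← Real.exp_nat_mul]
    norm_num
    ring
  rw [← h3] at h1
  exact le_of_sq_le_sq h1 (by positivity)

lemma Pe_bound (hm : 1 ≤ m) (s : ℂ) (M : ℝ) (hM : 0 < M) (k : Fin m)
    (h : ∑ k, ‖1 - s * u k‖ ^ 2 ≤ m * M) :
    ‖Pe u k s‖ ^ 2 ≤ M ^ (m - 1) * Real.exp 1 := by
  have hc : (univ.erase k).card = m - 1 := by
    rw [Finset.card_erase_of_mem (Finset.mem_univ k), Finset.card_univ, Fintype.card_fin]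
  unfold Pe
  rw [norm_prod, ← Finset.prod_pow]
  have h2 := prod_le_exp (univ.erase k) (fun j => ‖1 - s * u j‖ ^ 2)
    (fun i _ => sq_nonneg _) M m hM (by
      refine le_trans ?_ h
      apply Finset.sum_le_sum_of_subset_of_nonneg (Finset.subset_univ _)
      intro i _ _
      exact sq_nonneg _)
  rw [hc] at h2
  refine h2.trans (le_of_eq ?_)
  congr 2
  push_cast [Nat.cast_sub hm]
  ring

lemma PP_bound (s : ℂ) (M : ℝ) (hM : 0 < M)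
    (h : ∑ k, ‖1 - s * u k‖ ^ 2 ≤ m * M) :
    ‖PP u s‖ ^ 2 ≤ M ^ m := by
  unfold PP
  rw [norm_prod, ← Finset.prod_pow]
  have h2 := prod_le_exp univ (fun j => ‖1 - s * u j‖ ^ 2)
    (fun i _ => sq_nonneg _) M m hM h
  simpa using h2

/-- First bound of the error term. -/
lemma TT_bound1 (hm : 2 ≤ m) (s : ℂ) (M : ℝ) (hM : 0 < M)
    (h : ∑ k, ‖1 - s * u k‖ ^ 2 ≤ m * M) :
    ‖TT u s‖ ≤ (SS u - m * ‖mu u‖ ^ 2) * (Real.exp 1 * Real.sqrt M ^ (m - 2)) := by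
  have hm0 : 0 < m := by omega
  have hmR : (0 : ℝ) < m := by exact_mod_cast hm0
  set C := Real.exp 1 * Real.sqrt M ^ (m - 2) with hC
  have hC0 : 0 ≤ C := by positivity
  have h1 : ‖2 * m * TT u s‖ ≤ ∑ k, ∑ l, ‖u k - u l‖ ^ 2 * C := by
    rw [TT_eq3 u hm0 s]
    refine (norm_sum_le _ _).trans (Finset.sum_le_sum fun k _ => ?_)
    refine (norm_sum_le _ _).trans (Finset.sum_le_sum fun l _ => ?_)
    rw [norm_mul, norm_pow]
    apply mul_le_mul_of_nonneg_left _ (sq_nonneg _)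
    by_cases hkl : l = k
    · rw [if_pos hkl, norm_zero]
      exact hC0
    · rw [if_neg hkl]
      exact Pee_bound u hm s M hM k l hkl h
  have h2 : ∑ k, ∑ l, ‖u k - u l‖ ^ 2 * C = 2 * m * ((SS u - m * ‖mu u‖ ^ 2) * C) := by
    simp only [← Finset.sum_mul]
    rw [pair_sum u hm0]
    ring
  rw [h2, norm_mul, norm_mul] at h1
  have h3 : ‖(2 : ℂ)‖ * ‖(m : ℂ)‖ = 2 * m := by
    rw [Complex.norm_natCast]
    norm_num
  rw [h3] at h1
  exact le_of_mul_le_mul_left h1 (by positivity)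

/-- Second bound of the error term. -/
lemma TT_bound2 (hm : 2 ≤ m) (hS : SS u ≤ m) (s : ℝ) (hs0 : 0 ≤ s) (hs : s ≤ 1 / 2) (M : ℝ)
    (h : ∑ k, ‖1 - (s : ℂ) * u k‖ ^ 2 ≤ m * M) :
    ‖TT u s‖ ≤ (SS u - m * ‖mu u‖ ^ 2) * (2 * Real.sqrt M ^ (m - 2)) := by
  have hm0 : 0 < m := by omega
  have hmR : (0 : ℝ) < m := by exact_mod_cast hm0
  set D := SS u - m * ‖mu u‖ ^ 2 with hD
  have hD0 : 0 ≤ D := by
    rw [hD, ← D2_eq u hm0]
    exact Finset.sum_nonneg fun k _ => sq_nonneg _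
  have hU : ‖mu u‖ ^ 2 ≤ 1 := by
    have : (m : ℝ) * ‖mu u‖ ^ 2 ≤ m * 1 := by linarith
    exact le_of_mul_le_mul_left this hmR
  have hU1 : ‖mu u‖ ≤ 1 := by
    nlinarith [norm_nonneg (mu u)]
  -- the actual mean
  obtain ⟨B, hB⟩ : ∃ B : ℝ, B = (∑ k, ‖1 - (s : ℂ) * u k‖ ^ 2) / m := ⟨_, rfl⟩
  have hBm : ∑ k, ‖1 - (s : ℂ) * u k‖ ^ 2 = m * B := by
    rw [hB]; field_simp
  have hBM : B ≤ M := by
    rw [hBm] at h
    exact le_of_mul_le_mul_left h hmR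
  have hlow : (1 / 2 : ℝ) ≤ ‖1 - (s : ℂ) * mu u‖ := by
    have h1 : ‖(1 : ℂ)‖ - ‖(s : ℂ) * mu u‖ ≤ ‖1 - (s : ℂ) * mu u‖ := norm_sub_norm_le _ _
    rw [norm_one, norm_mul, Complex.norm_real, Real.norm_of_nonneg hs0] at h1
    nlinarith [norm_nonneg (mu u)]
  have hBeq : m * B = m - 2 * s * (m * (mu u).re) + s ^ 2 * SS u := by
    rw [← hBm]; exact sumB u hm0 s
  have hmueq : ‖1 - (s : ℂ) * mu u‖ ^ 2 = 1 - 2 * s * (mu u).re + s ^ 2 * ‖mu u‖ ^ 2 :=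
    norm_sq_one_sub s (mu u)
  have hB1 : ‖1 - (s : ℂ) * mu u‖ ^ 2 ≤ B := by
    have : (m : ℝ) * ‖1 - (s : ℂ) * mu u‖ ^ 2 ≤ m * B := by
      rw [hBeq, hmueq]
      nlinarith [mul_nonneg (sq_nonneg s) hD0]
    exact le_of_mul_le_mul_left this hmR
  have hB0 : 0 < B := by nlinarith
  have hM0 : 0 < M := lt_of_lt_of_le hB0 hBM
  -- lower bound for |1 - s mu|^2
  have hlow2 : (1 - s ^ 2) * B ≤ ‖1 - (s : ℂ) * mu u‖ ^ 2 := by
    have hkey : (m : ℝ) * ((1 - s ^ 2) * B) ≤ m * ‖1 - (s : ℂ) * mu u‖ ^ 2 := by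
      have e1 : (m : ℝ) * ((1 - s ^ 2) * B) = (1 - s ^ 2) * (m * B) := by ring
      rw [e1, hBeq, hmueq]
      have e2 : ‖mu u - (s : ℂ)‖ ^ 2 = ‖mu u‖ ^ 2 - 2 * s * (mu u).re + s ^ 2 := by
        rw [norm_sq_re_im, norm_sq_re_im]
        simp
        ring
      have e3 : 0 ≤ m * s ^ 2 * ‖mu u - (s : ℂ)‖ ^ 2 := by positivity
      have e4 : 0 ≤ s ^ 2 * ((m - SS u) * (1 - s ^ 2)) := by
        apply mul_nonneg (sq_nonneg s)
        apply mul_nonneg (by linarith)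
        nlinarith
      rw [e2] at e3
      nlinarith
    exact le_of_mul_le_mul_left hkey hmR
  -- numerator bound
  have hnum : ‖1 - (s : ℂ) * mu u‖ * ‖TT u s‖ ≤ D * Real.sqrt (B ^ (m - 1) * Real.exp 1) := by
    rw [← norm_mul, TT_eq2 u hm0 s]
    refine (norm_sum_le _ _).trans ?_
    rw [hD, ← D2_eq u hm0, Finset.sum_mul]
    refine Finset.sum_le_sum fun k _ => ?_
    rw [norm_mul, norm_pow]
    apply mul_le_mul_of_nonneg_left _ (sq_nonneg _)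
    apply Real.le_sqrt_of_sq_le
    exact Pe_bound u (by omega) s B hB0 k hBm.le
  have hnum2 : ‖1 - (s : ℂ) * mu u‖ ^ 2 * ‖TT u s‖ ^ 2 ≤ D ^ 2 * (B ^ (m - 1) * Real.exp 1) := by
    have hnn : 0 ≤ B ^ (m - 1) * Real.exp 1 := mul_nonneg (pow_nonneg hB0.le _) (Real.exp_pos _).le
    have h4 : 0 ≤ ‖1 - (s : ℂ) * mu u‖ * ‖TT u s‖ := mul_nonneg (norm_nonneg _) (norm_nonneg _)
    have h5 := pow_le_pow_left₀ h4 hnum 2
    rw [mul_pow, mul_pow, Real.sq_sqrt hnn] at h5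
    exact h5
  have h6 : (1 - s ^ 2) * B * ‖TT u s‖ ^ 2 ≤ D ^ 2 * (B ^ (m - 1) * Real.exp 1) :=
    (mul_le_mul_of_nonneg_right hlow2 (sq_nonneg _)).trans hnum2
  have hpow : B ^ (m - 1) = B * B ^ (m - 2) := by
    rw [← pow_succ']
    congr 1
    omega
  have h7 : (1 - s ^ 2) * ‖TT u s‖ ^ 2 ≤ D ^ 2 * (B ^ (m - 2) * Real.exp 1) := by
    rw [hpow] at h6
    have : B * ((1 - s ^ 2) * ‖TT u s‖ ^ 2) ≤ B * (D ^ 2 * (B ^ (m - 2) * Real.exp 1)) := by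
      calc _ = (1 - s ^ 2) * B * ‖TT u s‖ ^ 2 := by ring
        _ ≤ _ := h6
        _ = _ := by ring
    exact le_of_mul_le_mul_left this hB0
  have h8 : ‖TT u s‖ ^ 2 ≤ D ^ 2 * (4 * M ^ (m - 2)) := by
    have hs2 : (3 / 4 : ℝ) ≤ 1 - s ^ 2 := by nlinarith
    have he : Real.exp 1 ≤ 3 := Real.exp_one_lt_three.le
    have hBp : B ^ (m - 2) ≤ M ^ (m - 2) := pow_le_pow_left₀ hB0.le hBM _
    have h9a : B ^ (m - 2) * Real.exp 1 ≤ M ^ (m - 2) * 3 :=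
      mul_le_mul hBp he (Real.exp_pos _).le (pow_nonneg hM0.le _)
    have h9b : D ^ 2 * (B ^ (m - 2) * Real.exp 1) ≤ D ^ 2 * (M ^ (m - 2) * 3) :=
      mul_le_mul_of_nonneg_left h9a (sq_nonneg D)
    have h9c : (3 / 4) * ‖TT u s‖ ^ 2 ≤ (1 - s ^ 2) * ‖TT u s‖ ^ 2 :=
      mul_le_mul_of_nonneg_right hs2 (sq_nonneg _)
    have h9 : (3 / 4) * ‖TT u s‖ ^ 2 ≤ D ^ 2 * (M ^ (m - 2) * 3) :=
      (h9c.trans h7).trans h9b
    linarith
  have h10 : (D * (2 * Real.sqrt M ^ (m - 2))) ^ 2 = D ^ 2 * (4 * M ^ (m - 2)) := by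
    rw [mul_pow, mul_pow, ← pow_mul, mul_comm (m - 2) 2, pow_mul, Real.sq_sqrt hM0.le]
    norm_num
  rw [← h10] at h8
  exact le_of_sq_le_sq h8 (by positivity)

end vec

end Pool.Agent.Work.F0bc87
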