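import Mathlib
import Pool.Agent.Work.MP_f0bc87_an.Part2b

/-!
The integral identity and the bounds of the integrals.
-/

set_option autoImplicit false

open Finset MeasureTheory

namespace Pool.Agent.Work.F0bc87

section vec

variable {m : ℕ} (u : Fin m → ℂ)

lemma hasDerivAt_fac (c : ℂ) (s : ℝ) :
    HasDerivAt (fun x : ℝ => (1 : ℂ) - (x : ℂ) * c) (-c) s := by
  have h1 : HasDerivAt (fun x : ℝ => (x : ℂ)) 1 s := by
    simpa using (hasDerivAt_id s).ofReal_comp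
  have h2 := (h1.mul_const c).const_sub 1
  simpa using h2

lemma hasDerivAt_PP (s : ℝ) :
    HasDerivAt (fun x : ℝ => PP u (x : ℂ)) (-∑ k, u k * Pe u k s) s := by
  have h := HasDerivAt.fun_finsetProd (u := (univ : Finset (Fin m)))
    (f := fun k => fun x : ℝ => (1 : ℂ) - (x : ℂ) * u k) (f' := fun k => - u k) (x := s)
    (fun k _ => hasDerivAt_fac (u k) s)
  have e : (∑ i : Fin m, (∏ j ∈ univ.erase i, ((1 : ℂ) - (s : ℂ) * u j)) • (-u i))
      = -∑ k, u k * Pe u k s := by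
    rw [← Finset.sum_neg_distrib]
    apply Finset.sum_congr rfl
    intro k _
    unfold Pe
    rw [smul_eq_mul]
    ring
  rw [e] at h
  exact h

lemma continuous_PP : Continuous (fun x : ℝ => PP u (x : ℂ)) := by
  unfold PP
  fun_prop

lemma continuous_TT : Continuous (fun x : ℝ => TT u (x : ℂ)) := by
  unfold TT Pe
  fun_prop

lemma sum_u_Pe (hm : 0 < m) (s : ℂ) :
    (1 - s * mu u) * ∑ k, u k * Pe u k s = m * mu u * PP u s + s * TT u s := by
  have hm' : (m : ℂ) ≠ 0 := by exact_mod_cast hm.ne'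
  have h : (m : ℂ) * mu u = ∑ k, u k := by
    unfold mu
    field_simp
  rw [h, Finset.mul_sum, Finset.sum_mul]
  unfold TT
  rw [Finset.mul_sum, ← Finset.sum_add_distrib]
  apply Finset.sum_congr rfl
  intro k _
  rw [PP_eq u k s]
  ring

/-- The exact identity. -/
lemma main_identity (hm : 0 < m) (a : ℝ) :
    ∫ s in (0:ℝ)..a, (s : ℂ) * TT u s
      = 1 - (1 - (a : ℂ) * mu u) * PP u a - (m + 1) * mu u * ∫ s in (0:ℝ)..a, PP u s := by
  have hder : ∀ s ∈ Set.uIcc 0 a, HasDerivAt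
      (fun x : ℝ => -((1 - (x : ℂ) * mu u) * PP u x) - (m + 1) * mu u * ∫ y in (0:ℝ)..x, PP u y)
      ((s : ℂ) * TT u s) s := by
    intro s _
    have h1 := (hasDerivAt_fac (mu u) s).mul (hasDerivAt_PP u s)
    have h2 : HasDerivAt (fun x : ℝ => ∫ y in (0:ℝ)..x, PP u y) (PP u s) s :=
      intervalIntegral.integral_hasDerivAt_right
        ((continuous_PP u).intervalIntegrable _ _)
        ((continuous_PP u).stronglyMeasurableAtFilter _ _) (continuous_PP u).continuousAt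
    have h3 := h1.neg.sub (h2.const_mul ((m + 1) * mu u))
    refine h3.congr_deriv ?_
    have h4 := sum_u_Pe u hm (s : ℂ)
    linear_combination h4
  have hint : IntervalIntegrable (fun s : ℝ => (s : ℂ) * TT u s) volume 0 a := by
    apply Continuous.intervalIntegrable
    exact Complex.continuous_ofReal.mul (continuous_TT u)
  rw [intervalIntegral.integral_eq_sub_of_hasDerivAt hder hint]
  simp [PP]
  ring

lemma key_norm (hm : 0 < m) (a : ℝ) :
    1 ≤ ‖1 - (a : ℂ) * mu u‖ * ‖PP u a‖ + ‖mu u‖ * ((m + 1) * ‖∫ s in (0:ℝ)..a, PP u s‖)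
      + ‖∫ s in (0:ℝ)..a, (s : ℂ) * TT u s‖ := by
  have h := main_identity u hm a
  have h1 : (1 : ℂ) = (1 - (a : ℂ) * mu u) * PP u a + (m + 1) * mu u * (∫ s in (0:ℝ)..a, PP u s)
      + ∫ s in (0:ℝ)..a, (s : ℂ) * TT u s := by
    rw [h]; ring
  have h2 : ‖(m : ℂ) + 1‖ = m + 1 := by
    have : (m : ℂ) + 1 = ((m + 1 : ℕ) : ℂ) := by push_cast; ring
    rw [this, Complex.norm_natCast]
    push_cast; ring
  calc (1 : ℝ) = ‖(1 : ℂ)‖ := by simp
    _ = ‖(1 - (a : ℂ) * mu u) * PP u a + (m + 1) * mu u * (∫ s in (0:ℝ)..a, PP u s)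
      + ∫ s in (0:ℝ)..a, (s : ℂ) * TT u s‖ := by rw [← h1]
    _ ≤ ‖(1 - (a : ℂ) * mu u) * PP u a‖ + ‖(m + 1) * mu u * (∫ s in (0:ℝ)..a, PP u s)‖
      + ‖∫ s in (0:ℝ)..a, (s : ℂ) * TT u s‖ := norm_add₃_le
    _ = _ := by
      rw [norm_mul, norm_mul, norm_mul, h2]
      ring

end vec

lemma sqrt_pow_conv (n : ℕ) (hn : 2 ≤ n) (M r t lam nu : ℝ) (hM : 0 ≤ M) (hr : 0 ≤ r) (ht : 0 ≤ t)
    (hl : 0 ≤ lam) (hnu : 0 ≤ nu) (hln : lam + nu = 1) (h : M ≤ lam * r ^ 2 + nu * t ^ 2) :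
    Real.sqrt M ^ n ≤ lam * r ^ n + nu * t ^ n := by
  have hp : (1 : ℝ) ≤ (n : ℝ) / 2 := by
    have : (2 : ℝ) ≤ n := by exact_mod_cast hn
    linarith
  have hpow : ∀ x : ℝ, 0 ≤ x → (x ^ 2) ^ ((n : ℝ) / 2) = x ^ n := by
    intro x hx
    rw [← Real.rpow_natCast x 2, ← Real.rpow_mul hx, ← Real.rpow_natCast x n]
    congr 1
    push_cast
    ring
  have h1 : Real.sqrt M ^ n = M ^ ((n : ℝ) / 2) := by
    rw [← hpow (Real.sqrt M) (Real.sqrt_nonneg M), Real.sq_sqrt hM]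
  rw [h1, ← hpow r hr, ← hpow t ht]
  have h2 : M ^ ((n : ℝ) / 2) ≤ (lam * r ^ 2 + nu * t ^ 2) ^ ((n : ℝ) / 2) :=
    Real.rpow_le_rpow hM h (by linarith)
  refine h2.trans ?_
  have h3 := (convexOn_rpow hp).2 (x := r ^ 2) (y := t ^ 2) (sq_nonneg r) (sq_nonneg t) hl hnu hln
  simpa [smul_eq_mul] using h3

end Pool.Agent.Work.F0bc87
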