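import Mathlib
import Pool.Agent.Work.MP_f0bc87_an.Part2c
import Pool.Agent.Work.MP_f0bc87_an.Defs

/-!
Bounds of the integrals, and the contradiction for the vector `u`.
-/

set_option autoImplicit false

open Finset MeasureTheory

namespace Pool.Agent.Work.F0bc87

/-- Integral bound on the first half. -/
lemma int_first (n : ℕ) (f : ℝ → ℂ) (D tau c : ℝ) (hc : 0 ≤ c) (htau : 0 < tau)
    (htc : tau * c ≤ 1) (hD : 0 ≤ D)
    (h : ∀ s : ℝ, 0 ≤ s → s ≤ c → ‖f s‖ ≤ D * (2 * (1 - tau * s) ^ n)) :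
    ‖∫ s in (0:ℝ)..c, (s : ℂ) * f s‖ ≤ D * (2 / (tau ^ 2 * ((n + 1) * (n + 2)))) := by
  have hn1 : (0 : ℝ) < (n : ℝ) + 1 := by positivity
  have hn2 : (0 : ℝ) < (n : ℝ) + 2 := by positivity
  have hder : ∀ s ∈ Set.uIcc 0 c, HasDerivAt
      (fun x : ℝ => -(2 * D * ((1 - tau * x) ^ (n + 1) * (1 + (n + 1) * tau * x))
        / (tau ^ 2 * ((n + 1) * (n + 2)))))
      (s * (D * (2 * (1 - tau * s) ^ n))) s := by
    intro s _
    have h1 : HasDerivAt (fun x : ℝ => 1 - tau * x) (-tau) s := by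
      simpa using ((hasDerivAt_id s).const_mul tau).const_sub 1
    have h2 := h1.pow (n + 1)
    have h3 : HasDerivAt (fun x : ℝ => 1 + ((n : ℝ) + 1) * tau * x) (((n : ℝ) + 1) * tau) s := by
      simpa using ((hasDerivAt_id s).const_mul (((n : ℝ) + 1) * tau)).const_add 1
    have h4 := (((h2.mul h3).const_mul (2 * D)).div_const (tau ^ 2 * (((n : ℝ) + 1) * (n + 2)))).neg
    refine h4.congr_deriv ?_
    simp only [Nat.add_sub_cancel, Pi.pow_apply]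
    push_cast
    field_simp
    ring
  have hcont : Continuous (fun s : ℝ => s * (D * (2 * (1 - tau * s) ^ n))) := by fun_prop
  have hint : IntervalIntegrable (fun s : ℝ => s * (D * (2 * (1 - tau * s) ^ n))) volume 0 c :=
    hcont.intervalIntegrable _ _
  have h5 : ‖∫ s in (0:ℝ)..c, (s : ℂ) * f s‖ ≤ ∫ s in (0:ℝ)..c, s * (D * (2 * (1 - tau * s) ^ n)) := by
    apply intervalIntegral.norm_integral_le_of_norm_le hc _ hint
    refine Filter.Eventually.of_forall fun s hs => ?_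
    rw [norm_mul, Complex.norm_real, Real.norm_of_nonneg hs.1.le]
    exact mul_le_mul_of_nonneg_left (h s hs.1.le hs.2) hs.1.le
  refine h5.trans ?_
  rw [intervalIntegral.integral_eq_sub_of_hasDerivAt hder hint]
  have h6 : 0 ≤ 2 * D * ((1 - tau * c) ^ (n + 1) * (1 + ((n : ℝ) + 1) * tau * c))
        / (tau ^ 2 * (((n : ℝ) + 1) * (n + 2))) := by
    have : 0 ≤ 1 - tau * c := by linarith
    positivity
  have h7 : 2 * D * ((1 - tau * 0) ^ (n + 1) * (1 + ((n : ℝ) + 1) * tau * 0))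
        / (tau ^ 2 * (((n : ℝ) + 1) * (n + 2))) = D * (2 / (tau ^ 2 * ((n + 1) * (n + 2)))) := by
    simp
    ring
  linarith

/-- Integral bound on the second half. -/
lemma int_second (n : ℕ) (f : ℝ → ℂ) (D K a r t : ℝ) (ha : 0 < a)
    (h : ∀ s : ℝ, a / 2 ≤ s → s ≤ a →
      ‖f s‖ ≤ D * (K * ((a - s) / (a / 2) * r ^ n + (s - a / 2) / (a / 2) * t ^ n))) :
    ‖∫ s in (a/2)..a, (s : ℂ) * f s‖ ≤ D * (K * (a ^ 2 / 4 * (2 / 3 * r ^ n + 5 / 6 * t ^ n))) := by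
  have hder : ∀ s ∈ Set.uIcc (a / 2) a, HasDerivAt
      (fun x : ℝ => D * (K * (2 / a * (r ^ n * (a * x ^ 2 / 2 - x ^ 3 / 3)
        + t ^ n * (x ^ 3 / 3 - a * x ^ 2 / 4)))))
      (s * (D * (K * ((a - s) / (a / 2) * r ^ n + (s - a / 2) / (a / 2) * t ^ n)))) s := by
    intro s _
    have h2 : HasDerivAt (fun x : ℝ => x ^ 2) (2 * s) s := by
      simpa using hasDerivAt_pow 2 s
    have h3 : HasDerivAt (fun x : ℝ => x ^ 3) (3 * s ^ 2) s := by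
      simpa using hasDerivAt_pow 3 s
    have e1 := (((h2.const_mul a).div_const 2).sub (h3.div_const 3)).const_mul (r ^ n)
    have e2 := ((h3.div_const 3).sub ((h2.const_mul a).div_const 4)).const_mul (t ^ n)
    have e3 := (((e1.add e2).const_mul (2 / a)).const_mul K).const_mul D
    refine e3.congr_deriv ?_
    field_simp
    ring
  have hcont : Continuous (fun s : ℝ =>
      s * (D * (K * ((a - s) / (a / 2) * r ^ n + (s - a / 2) / (a / 2) * t ^ n)))) := by fun_prop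
  have hint := hcont.intervalIntegrable (μ := volume) (a / 2) a
  have h5 : ‖∫ s in (a/2)..a, (s : ℂ) * f s‖ ≤ ∫ s in (a/2)..a,
      s * (D * (K * ((a - s) / (a / 2) * r ^ n + (s - a / 2) / (a / 2) * t ^ n))) := by
    apply intervalIntegral.norm_integral_le_of_norm_le (by linarith) _ hint
    refine Filter.Eventually.of_forall fun s hs => ?_
    have hs0 : 0 ≤ s := by linarith [hs.1]
    rw [norm_mul, Complex.norm_real, Real.norm_of_nonneg hs0]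
    exact mul_le_mul_of_nonneg_left (h s hs.1.le hs.2) hs0
  refine h5.trans (le_of_eq ?_)
  rw [intervalIntegral.integral_eq_sub_of_hasDerivAt hder hint]
  field_simp
  ring

section scal

lemma curve_aux (a t r tau c : ℝ) (ha0 : 0 < a) (hca : c * a = 1 - t ^ 2 + a ^ 2)
    (htaua : tau * (a / 2) = 1 - r) (hr : (1 + t ^ 2) / 2 - a ^ 2 / 4 ≤ r ^ 2) :
    0 ≤ (c - 2 * tau) - (1 - tau ^ 2) * (a / 2) := by
  have h2 : 0 ≤ (a / 2) * ((c - 2 * tau) - (1 - tau ^ 2) * (a / 2)) := by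
    have e : (a / 2) * ((c - 2 * tau) - (1 - tau ^ 2) * (a / 2))
        = (1 - tau * (a / 2)) ^ 2 - (1 - c * a / 2 + a ^ 2 / 4) := by ring
    rw [e, htaua, hca]
    have : 1 - (1 - r) = r := by ring
    rw [this]
    linarith
  exact nonneg_of_mul_nonneg_right h2 (by linarith)

lemma curve_bound (a tau c s : ℝ) (htau0 : 0 < tau) (htau1 : tau ≤ 1)
    (h1 : 0 ≤ (c - 2 * tau) - (1 - tau ^ 2) * (a / 2)) (hs : 0 ≤ s) (hs2 : s ≤ a / 2) :
    1 - c * s + s ^ 2 ≤ (1 - tau * s) ^ 2 := by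
  have h0 : 0 ≤ 1 - tau ^ 2 := by nlinarith
  have h3 : (1 - tau ^ 2) * s ≤ (1 - tau ^ 2) * (a / 2) := mul_le_mul_of_nonneg_left hs2 h0
  have h4 : 0 ≤ s * ((c - 2 * tau) - (1 - tau ^ 2) * s) := mul_nonneg hs (by linarith)
  have e : (1 - tau * s) ^ 2 - (1 - c * s + s ^ 2) = s * ((c - 2 * tau) - (1 - tau ^ 2) * s) := by
    ring
  linarith

lemma quad_pos (c s : ℝ) (hc2 : c ≤ 2) (hs : 0 ≤ s) (hs1 : s < 1) : 0 < 1 - c * s + s ^ 2 := by
  have h1 : c * s ≤ 2 * s := mul_le_mul_of_nonneg_right hc2 hs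
  have h2 : 0 < (1 - s) ^ 2 := sq_pos_of_pos (by linarith)
  have e : (1 - s) ^ 2 = 1 - 2 * s + s ^ 2 := by ring
  linarith

end scal

section vec

variable {m : ℕ} (u : Fin m → ℂ)

lemma D_nonneg (hm0 : 0 < m) : 0 ≤ SS u - m * ‖mu u‖ ^ 2 := by
  rw [← D2_eq u hm0]
  exact Finset.sum_nonneg fun k _ => sq_nonneg _

lemma mu_norm_le_one (hm0 : 0 < m) (hSS : SS u ≤ m) : ‖mu u‖ ≤ 1 := by
  have hmR : (0 : ℝ) < m := by exact_mod_cast hm0
  have h0 := D_nonneg u hm0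
  have h1 : (m : ℝ) * ‖mu u‖ ^ 2 ≤ m * 1 := by linarith
  have h2 := le_of_mul_le_mul_left h1 hmR
  have h3 : ‖mu u‖ ^ 2 ≤ 1 ^ 2 := by linarith
  exact le_of_sq_le_sq h3 zero_le_one

lemma fac_nonneg (a : ℝ) (v : ℂ) :
    0 ≤ 1 + (1 - a ^ 2) * (‖v‖ ^ 2 - ‖1 - (a : ℂ) * v‖ ^ 2) := by
  have h1 := norm_sq_one_sub a v
  have h2 : 1 + (1 - a ^ 2) * (‖v‖ ^ 2 - ‖1 - (a : ℂ) * v‖ ^ 2)
      = ((1 - a ^ 2) * v.re + a) ^ 2 + ((1 - a ^ 2) * v.im) ^ 2 := by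
    rw [h1, norm_sq_re_im]
    ring
  rw [h2]
  positivity

/-- The lower bound of the real part of the mean. -/
lemma beta_bound (hm0 : 0 < m) (a : ℝ) (ha0 : 0 < a) (ha1 : a < 1) (t : ℝ)
    (ht0 : 0 < t) (ht1 : t ≤ 1)
    (hG : (1 + (1 - a ^ 2) * (1 - t ^ 2)) ^ m ≤ (1 + m * (1 - a)) ^ 2)
    (hSS : SS u ≤ m)
    (hK : (1 + m * (1 - a)) ^ 2
      ≤ ∏ k, (1 + (1 - a ^ 2) * (‖u k‖ ^ 2 - ‖1 - (a : ℂ) * u k‖ ^ 2))) :
    1 - t ^ 2 + a ^ 2 ≤ 2 * a * (mu u).re := by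
  have hmR : (0 : ℝ) < m := by exact_mod_cast hm0
  have ha2 : 0 < 1 - a ^ 2 := by nlinarith
  obtain ⟨β, hβ⟩ : ∃ β : ℝ, β = (mu u).re := ⟨_, rfl⟩
  rw [← hβ]
  have hsumG : ∑ k, (1 + (1 - a ^ 2) * (‖u k‖ ^ 2 - ‖1 - (a : ℂ) * u k‖ ^ 2))
      = m + (1 - a ^ 2) * (SS u - (m - 2 * a * (m * β) + a ^ 2 * SS u)) := by
    rw [Finset.sum_add_distrib, ← Finset.mul_sum, Finset.sum_sub_distrib, hβ, sumB u hm0 a]
    simp [SS]
  by_contra hcon
  push Not at hcon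
  have hlt : SS u - (m - 2 * a * (m * β) + a ^ 2 * SS u) < m * (1 - t ^ 2) := by
    have h1 : SS u * (1 - a ^ 2) ≤ m * (1 - a ^ 2) := mul_le_mul_of_nonneg_right hSS ha2.le
    have h2 : (m : ℝ) * (2 * a * β) < m * (1 - t ^ 2 + a ^ 2) := mul_lt_mul_of_pos_left hcon hmR
    have e1 : SS u - (m - 2 * a * (m * β) + a ^ 2 * SS u)
        = SS u * (1 - a ^ 2) - m + m * (2 * a * β) := by ring
    have e2 : (m : ℝ) * (1 - t ^ 2) = m * (1 - a ^ 2) - m + m * (1 - t ^ 2 + a ^ 2) := by ring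
    rw [e1, e2]
    linarith
  obtain ⟨G, hGdef⟩ : ∃ G : ℝ, G = 1 + (1 - a ^ 2) * (1 - t ^ 2) := ⟨_, rfl⟩
  obtain ⟨X, hX⟩ : ∃ X : ℝ, X = ∑ k, (1 + (1 - a ^ 2) * (‖u k‖ ^ 2 - ‖1 - (a : ℂ) * u k‖ ^ 2)) :=
    ⟨_, rfl⟩
  have hXlt : X < m * G := by
    rw [hX, hsumG, hGdef]
    have h1 := mul_lt_mul_of_pos_left hlt ha2
    have e : (m : ℝ) * (1 + (1 - a ^ 2) * (1 - t ^ 2))
        = m + (1 - a ^ 2) * (m * (1 - t ^ 2)) := by ring
    rw [e]
    linarith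
  have hX0 : 0 ≤ X := by
    rw [hX]
    exact Finset.sum_nonneg fun k _ => fac_nonneg a (u k)
  have hGpos : 0 < G := by
    rw [hGdef]
    have h1 : 0 ≤ 1 - t ^ 2 := by nlinarith
    have h2 := mul_nonneg ha2.le h1
    linarith
  obtain ⟨M, hM⟩ : ∃ M : ℝ, M = (X / m + G) / 2 := ⟨_, rfl⟩
  have hXm : X / m < G := by rw [div_lt_iff₀ hmR]; linarith
  have hXm0 : 0 ≤ X / m := div_nonneg hX0 hmR.le
  have hM0 : 0 < M := by rw [hM]; linarith
  have hMG : M < G := by rw [hM]; linarith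
  have hXM : X ≤ m * M := by
    have h1 : X / m ≤ M := by rw [hM]; linarith
    rw [div_le_iff₀ hmR] at h1
    linarith
  have h3 := prod_le_exp univ
    (fun k => 1 + (1 - a ^ 2) * (‖u k‖ ^ 2 - ‖1 - (a : ℂ) * u k‖ ^ 2))
    (fun k _ => fac_nonneg a (u k)) M m hM0 (by rw [← hX]; exact hXM)
  simp only [Finset.card_univ, Fintype.card_fin, sub_self, Real.exp_zero, mul_one] at h3
  have h4 : M ^ m < G ^ m := pow_lt_pow_left₀ hMG hM0.le hm0.ne'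
  rw [← hGdef] at hG
  linarith

/-- The integral of the error term. -/
lemma int_total (hm : 4 ≤ m) (a : ℝ) (ha0 : 0 < a) (ha1 : a < 1) (t r c : ℝ)
    (ht0 : 0 < t) (hr0 : 0 < r) (hr1 : r < 1)
    (hr : (1 + t ^ 2) / 2 - a ^ 2 / 4 ≤ r ^ 2)
    (ht_ge : (1 - a) ^ 2 ≤ t ^ 2) (hca : c * a = 1 - t ^ 2 + a ^ 2) (hc2 : c ≤ 2)
    (hSS : SS u ≤ m)
    (hBbound : ∀ s : ℝ, 0 ≤ s → ∑ k, ‖1 - (s : ℂ) * u k‖ ^ 2 ≤ m * (1 - c * s + s ^ 2)) :
    ‖∫ s in (0:ℝ)..a, (s : ℂ) * TT u s‖ ≤ Yb m a t r * (1 - ‖mu u‖ ^ 2) := by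
  have hm0 : 0 < m := by omega
  have hmR : (0 : ℝ) < m := by exact_mod_cast hm0
  have hDn := D_nonneg u hm0
  obtain ⟨n, hn⟩ : ∃ n : ℕ, m = n + 2 := ⟨m - 2, by omega⟩
  have hn2 : 2 ≤ n := by omega
  have hmn : m - 2 = n := by omega
  obtain ⟨D, hD⟩ : ∃ D : ℝ, D = SS u - m * ‖mu u‖ ^ 2 := ⟨_, rfl⟩
  have hD0 : 0 ≤ D := by rw [hD]; exact hDn
  obtain ⟨tau, htau⟩ : ∃ tau : ℝ, tau = (1 - r) / (a / 2) := ⟨_, rfl⟩
  have htau0 : 0 < tau := by
    rw [htau]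
    apply div_pos <;> linarith
  have htaua : tau * (a / 2) = 1 - r := by rw [htau]; field_simp
  have hr_ge : 1 - a / 2 ≤ r := by
    have h1 : (1 - a / 2) ^ 2 ≤ r ^ 2 := by
      have e1 : (1 - a / 2) ^ 2 = (1 + (1 - a) ^ 2) / 2 - a ^ 2 / 4 := by ring
      rw [e1]
      linarith
    exact le_of_sq_le_sq h1 hr0.le
  have htau1 : tau ≤ 1 := by
    rw [htau, div_le_one (by linarith)]
    linarith
  have haux := curve_aux a t r tau c ha0 hca htaua hr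
  have hI1 : ‖∫ s in (0:ℝ)..(a/2), (s : ℂ) * TT u s‖
      ≤ D * (2 / (tau ^ 2 * ((n + 1) * (n + 2)))) := by
    apply int_first n (fun s => TT u s) D tau (a / 2) (by linarith) htau0 _ hD0
    · intro s hs hs2
      have hcv := curve_bound a tau c s htau0 htau1 haux hs hs2
      have h1 := TT_bound2 u (by omega) hSS s hs (by linarith) ((1 - tau * s) ^ 2) (by
        have h2 := hBbound s hs
        have h3 := mul_le_mul_of_nonneg_left hcv hmR.le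
        linarith)
      have h4 : 0 ≤ 1 - tau * s := by
        have h5 : tau * s ≤ tau * (a / 2) := mul_le_mul_of_nonneg_left hs2 htau0.le
        linarith
      rw [Real.sqrt_sq h4, hmn, ← hD] at h1
      exact h1
    · rw [htaua]; linarith
  have hI2 : ‖∫ s in (a/2)..a, (s : ℂ) * TT u s‖
      ≤ D * (Real.exp 1 * (a ^ 2 / 4 * (2 / 3 * r ^ n + 5 / 6 * t ^ n))) := by
    apply int_second n (fun s => TT u s) D (Real.exp 1) a r t ha0
    intro s hs hs2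
    have hs0 : 0 ≤ s := by linarith
    have hs1 : s < 1 := by linarith
    have hMp := quad_pos c s hc2 hs0 hs1
    have h1 := TT_bound1 u (by omega) (s : ℂ) (1 - c * s + s ^ 2) hMp (hBbound s hs0)
    rw [hmn, ← hD] at h1
    refine h1.trans ?_
    apply mul_le_mul_of_nonneg_left _ hD0
    apply mul_le_mul_of_nonneg_left _ (Real.exp_pos _).le
    apply sqrt_pow_conv n hn2 _ r t _ _ hMp.le hr0.le ht0.le
    · apply div_nonneg <;> linarith
    · apply div_nonneg <;> linarith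
    · field_simp
      ring
    · have e1 : 1 - c * s + s ^ 2 = (a - s) / (a / 2) * ((1 + t ^ 2) / 2 - a ^ 2 / 4)
          + (s - a / 2) / (a / 2) * t ^ 2 - (a - s) * (s - a / 2) := by
        have hc : c = (1 - t ^ 2 + a ^ 2) / a := by rw [← hca]; field_simp
        rw [hc]
        field_simp
        ring
      have h2 : (a - s) / (a / 2) * ((1 + t ^ 2) / 2 - a ^ 2 / 4) ≤ (a - s) / (a / 2) * r ^ 2 := by
        apply mul_le_mul_of_nonneg_left hr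
        apply div_nonneg <;> linarith
      have h3 : 0 ≤ (a - s) * (s - a / 2) := mul_nonneg (by linarith) (by linarith)
      linarith
  have hint : ∀ x y : ℝ, IntervalIntegrable (fun s : ℝ => (s : ℂ) * TT u s) volume x y := by
    intro x y
    apply Continuous.intervalIntegrable
    exact Complex.continuous_ofReal.mul (continuous_TT u)
  rw [← intervalIntegral.integral_add_adjacent_intervals (hint 0 (a / 2)) (hint (a / 2) a)]
  refine (norm_add_le _ _).trans ?_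
  have h1 : ‖∫ s in (0:ℝ)..(a/2), (s : ℂ) * TT u s‖ + ‖∫ s in (a/2)..a, (s : ℂ) * TT u s‖
      ≤ D * (2 / (tau ^ 2 * ((n + 1) * (n + 2)))
        + Real.exp 1 * (a ^ 2 / 4 * (2 / 3 * r ^ n + 5 / 6 * t ^ n))) := by
    have := add_le_add hI1 hI2
    rw [mul_add]
    exact this
  refine h1.trans ?_
  have he : Real.exp 1 ≤ 27183 / 10000 := by
    have := Real.exp_one_lt_d9
    linarith
  have hmn' : (m : ℝ) = n + 2 := by rw [hn]; push_cast; ring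
  have hDm : D ≤ m * (1 - ‖mu u‖ ^ 2) := by
    rw [hD, mul_sub, mul_one]
    linarith
  have hpos3 : 0 ≤ a ^ 2 / 4 * (2 / 3 * r ^ n + 5 / 6 * t ^ n) := by positivity
  have h2 : 0 ≤ 2 / (tau ^ 2 * (((n : ℝ) + 1) * (n + 2)))
      + 27183 / 10000 * (a ^ 2 / 4 * (2 / 3 * r ^ n + 5 / 6 * t ^ n)) := by positivity
  have h3 : D * (2 / (tau ^ 2 * ((n + 1) * (n + 2)))
        + Real.exp 1 * (a ^ 2 / 4 * (2 / 3 * r ^ n + 5 / 6 * t ^ n)))
      ≤ D * (2 / (tau ^ 2 * ((n + 1) * (n + 2)))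
        + 27183 / 10000 * (a ^ 2 / 4 * (2 / 3 * r ^ n + 5 / 6 * t ^ n))) := by
    apply mul_le_mul_of_nonneg_left _ hD0
    have := mul_le_mul_of_nonneg_right he hpos3
    linarith
  have h4 := mul_le_mul_of_nonneg_right hDm h2
  refine (h3.trans h4).trans (le_of_eq ?_)
  unfold Yb
  rw [hmn, hmn', htau]
  have hr' : (1 - r) ≠ 0 := by linarith
  have hn1 : (n : ℝ) + 1 ≠ 0 := by positivity
  have hn3 : (n : ℝ) + 2 - 1 = n + 1 := by ring
  rw [hn3]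
  field_simp
  ring

/-- Part 2: a vector `u` with the four properties cannot exist at a scalar-OK point. -/
theorem part2 (hm : 4 ≤ m) (a : ℝ) (ha0 : 0 < a) (ha1 : a < 1) (hok : ScalarOK m a)
    (hS : ∑ k, ‖u k‖ ^ 2 ≤ m)
    (hK : (1 + m * (1 - a)) ^ 2
      ≤ ∏ k, (1 + (1 - a ^ 2) * (‖u k‖ ^ 2 - ‖1 - (a : ℂ) * u k‖ ^ 2)))
    (hR : (m + 1) * ‖∫ s in (0:ℝ)..a, ∏ k, (1 - (s : ℂ) * u k)‖ ≤ a * ∏ k, ‖u k‖) : False := by
  obtain ⟨t, r, ht0, ht1, hG, hr0, hr1, hr, hfin⟩ := hok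
  have hm0 : 0 < m := by omega
  have hmR : (0 : ℝ) < m := by exact_mod_cast hm0
  have hSS : SS u ≤ m := hS
  have h2ab := beta_bound u hm0 a ha0 ha1 t ht0 ht1 hG hSS hK
  have hU1 := mu_norm_le_one u hm0 hSS
  have hsum : ∀ s : ℝ, ∑ k, ‖1 - (s : ℂ) * u k‖ ^ 2
      = m - 2 * s * (m * (mu u).re) + s ^ 2 * SS u := fun s => sumB u hm0 s
  have hnsq := fun s : ℝ => norm_sq_one_sub s (mu u)
  obtain ⟨β, hβ⟩ : ∃ β : ℝ, β = (mu u).re := ⟨_, rfl⟩
  have hβU : β ≤ ‖mu u‖ := by rw [hβ]; exact Complex.re_le_norm _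
  rw [← hβ] at h2ab hsum hnsq
  have h2a0 : 0 ≤ 2 * a := by linarith
  have h2aU : 1 - t ^ 2 + a ^ 2 ≤ 2 * a * ‖mu u‖ :=
    h2ab.trans (mul_le_mul_of_nonneg_left hβU h2a0)
  have ht_ge : (1 - a) ^ 2 ≤ t ^ 2 := by
    have h1 : 2 * a * ‖mu u‖ ≤ 2 * a * 1 := mul_le_mul_of_nonneg_left hU1 h2a0
    have e : (1 - a) ^ 2 = 1 - 2 * a + a ^ 2 := by ring
    rw [e]
    linarith
  obtain ⟨c, hc⟩ : ∃ c : ℝ, c = (1 - t ^ 2 + a ^ 2) / a := ⟨_, rfl⟩
  have hca : c * a = 1 - t ^ 2 + a ^ 2 := by rw [hc]; field_simp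
  have hc2β : c ≤ 2 * β := by
    rw [hc, div_le_iff₀ ha0]; linarith
  have hc2 : c ≤ 2 := by linarith
  have hBbound : ∀ s : ℝ, 0 ≤ s → ∑ k, ‖1 - (s : ℂ) * u k‖ ^ 2 ≤ m * (1 - c * s + s ^ 2) := by
    intro s hs
    rw [hsum s]
    have h1 : s ^ 2 * SS u ≤ s ^ 2 * m := mul_le_mul_of_nonneg_left hSS (sq_nonneg s)
    have h2 : s * m * c ≤ s * m * (2 * β) :=
      mul_le_mul_of_nonneg_left hc2β (mul_nonneg hs hmR.le)
    have e1 : (m : ℝ) * (1 - c * s + s ^ 2) = m - s * m * c + s ^ 2 * m := by ring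
    have e2 : (m : ℝ) - 2 * s * (m * β) + s ^ 2 * SS u
        = m - s * m * (2 * β) + s ^ 2 * SS u := by ring
    rw [e1, e2]
    linarith
  -- bound of E
  have hE1 : ‖PP u a‖ ≤ t ^ m := by
    have h1 := PP_bound u (a : ℂ) (t ^ 2) (by positivity) (by
      have h2 := hBbound a ha0.le
      have h3 : 1 - c * a + a ^ 2 = t ^ 2 := by rw [hca]; ring
      rw [h3] at h2
      exact h2)
    have h4 : (t ^ 2) ^ m = (t ^ m) ^ 2 := by rw [← pow_mul, ← pow_mul, mul_comm]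
    rw [h4] at h1
    exact le_of_sq_le_sq h1 (by positivity)
  have hE2 : ‖1 - (a : ℂ) * mu u‖ ≤ t := by
    have h1 : ‖1 - (a : ℂ) * mu u‖ ^ 2 ≤ t ^ 2 := by
      rw [hnsq]
      have h2 : ‖mu u‖ ^ 2 ≤ 1 := pow_le_one₀ (norm_nonneg _) hU1
      have h3 : a ^ 2 * ‖mu u‖ ^ 2 ≤ a ^ 2 * 1 := mul_le_mul_of_nonneg_left h2 (sq_nonneg a)
      linarith
    exact le_of_sq_le_sq h1 ht0.le
  -- bound of the second term
  have hQ : (m + 1) * ‖∫ s in (0:ℝ)..a, PP u s‖ ≤ a := by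
    have h1 : (∏ k, ‖u k‖) ^ 2 ≤ 1 ^ 2 := by
      rw [← Finset.prod_pow]
      have h2 := prod_le_exp univ (fun k => ‖u k‖ ^ 2) (fun k _ => sq_nonneg _) 1 m one_pos
        (by rw [mul_one]; exact hS)
      simpa using h2
    have h3 : ∏ k, ‖u k‖ ≤ 1 := le_of_sq_le_sq h1 zero_le_one
    have h5 : a * ∏ k, ‖u k‖ ≤ a * 1 := mul_le_mul_of_nonneg_left h3 ha0.le
    unfold PP
    linarith
  have hI := int_total u hm a ha0 ha1 t r c ht0 hr0 hr1 hr ht_ge hca hc2 hSS hBbound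
  -- conclusion
  have hkey := key_norm u hm0 a
  have hfin' := hfin ‖mu u‖ h2aU hU1
  have hterm1 : ‖1 - (a : ℂ) * mu u‖ * ‖PP u a‖ ≤ t ^ (m + 1) := by
    rw [pow_succ']
    exact mul_le_mul hE2 hE1 (norm_nonneg _) ht0.le
  have hterm2 : ‖mu u‖ * ((m + 1) * ‖∫ s in (0:ℝ)..a, PP u s‖) ≤ a * ‖mu u‖ := by
    rw [mul_comm a]
    exact mul_le_mul_of_nonneg_left hQ (norm_nonneg _)
  linarith

end vec

end Pool.Agent.Work.F0bc87
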