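import Mathlib
import Pool.Agent.Work.MP_f0bc87_an.Part2b

/-!
The easy case `m ≤ 3`.
-/

set_option autoImplicit false

open Finset

namespace Pool.Agent.Work.F0bc87

variable {m : ℕ} (u : Fin m → ℂ)

theorem part2_small (hm1 : 1 ≤ m) (hm3 : m ≤ 3) (a : ℝ) (ha0 : 0 < a) (ha1 : a < 1)
    (hS : ∑ k, ‖u k‖ ^ 2 ≤ m)
    (hK : (1 + m * (1 - a)) ^ 2
      ≤ ∏ k, (1 + (1 - a ^ 2) * (‖u k‖ ^ 2 - ‖1 - (a : ℂ) * u k‖ ^ 2))) : False := by
  have hm0 : 0 < m := by omega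
  have hmR : (0 : ℝ) < m := by exact_mod_cast hm0
  have ha2 : 0 < 1 - a ^ 2 := by nlinarith
  have hSS : SS u ≤ m := hS
  obtain ⟨β, hβ⟩ : ∃ β : ℝ, β = (mu u).re := ⟨_, rfl⟩
  obtain ⟨U, hU⟩ : ∃ U : ℝ, U = ‖mu u‖ := ⟨_, rfl⟩
  have hβU : β ≤ U := by rw [hβ, hU]; exact Complex.re_le_norm _
  have hU0 : 0 ≤ U := by rw [hU]; exact norm_nonneg _
  have hDn : 0 ≤ SS u - m * U ^ 2 := by
    rw [hU, ← D2_eq u hm0]
    exact Finset.sum_nonneg fun k _ => sq_nonneg _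
  have hU1 : U ≤ 1 := by
    have h1 : (m : ℝ) * U ^ 2 ≤ m * 1 := by linarith
    have h2 := le_of_mul_le_mul_left h1 hmR
    nlinarith
  have hβ1 : β ≤ 1 := hβU.trans hU1
  have hfac : ∀ k, 0 ≤ 1 + (1 - a ^ 2) * (‖u k‖ ^ 2 - ‖1 - (a : ℂ) * u k‖ ^ 2) := by
    intro k
    have h1 := norm_sq_one_sub a (u k)
    have h2 : 1 + (1 - a ^ 2) * (‖u k‖ ^ 2 - ‖1 - (a : ℂ) * u k‖ ^ 2)
        = ((1 - a ^ 2) * (u k).re + a) ^ 2 + ((1 - a ^ 2) * (u k).im) ^ 2 := by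
      rw [h1, norm_sq_re_im]
      ring
    rw [h2]
    positivity
  have hsumG : ∑ k, (1 + (1 - a ^ 2) * (‖u k‖ ^ 2 - ‖1 - (a : ℂ) * u k‖ ^ 2))
      = m + (1 - a ^ 2) * (SS u - (m - 2 * a * (m * β) + a ^ 2 * SS u)) := by
    rw [Finset.sum_add_distrib, ← Finset.mul_sum, Finset.sum_sub_distrib, sumB u hm0 a, ← hβ]
    simp [SS]
  have hle : ∑ k, (1 + (1 - a ^ 2) * (‖u k‖ ^ 2 - ‖1 - (a : ℂ) * u k‖ ^ 2))
      ≤ m * (1 + a * (1 - a)) ^ 2 := by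
    rw [hsumG]
    have h1 : (1 - a ^ 2) ^ 2 * SS u ≤ (1 - a ^ 2) ^ 2 * m :=
      mul_le_mul_of_nonneg_left hSS (sq_nonneg _)
    have h2 : (1 - a ^ 2) * (2 * a * (m * β)) ≤ (1 - a ^ 2) * (2 * a * (m * 1)) := by
      apply mul_le_mul_of_nonneg_left _ ha2.le
      apply mul_le_mul_of_nonneg_left _ (by linarith)
      exact mul_le_mul_of_nonneg_left hβ1 hmR.le
    have e1 : (m : ℝ) + (1 - a ^ 2) * (SS u - (m - 2 * a * (m * β) + a ^ 2 * SS u))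
        = m * a ^ 2 + (1 - a ^ 2) * (2 * a * (m * β)) + (1 - a ^ 2) ^ 2 * SS u := by ring
    have e2 : (m : ℝ) * (1 + a * (1 - a)) ^ 2
        = m * a ^ 2 + (1 - a ^ 2) * (2 * a * (m * 1)) + (1 - a ^ 2) ^ 2 * m := by ring
    rw [e1, e2]
    linarith
  have hpos : 0 < 1 + a * (1 - a) := by nlinarith
  have h3 := prod_le_exp univ
    (fun k => 1 + (1 - a ^ 2) * (‖u k‖ ^ 2 - ‖1 - (a : ℂ) * u k‖ ^ 2))
    (fun k _ => hfac k) ((1 + a * (1 - a)) ^ 2) m (by positivity) hle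
  simp only [Finset.card_univ, Fintype.card_fin, sub_self, Real.exp_zero, mul_one] at h3
  have h4 : (1 + m * (1 - a)) ^ 2 ≤ ((1 + a * (1 - a)) ^ m) ^ 2 := by
    refine (hK.trans h3).trans (le_of_eq ?_)
    rw [← pow_mul, ← pow_mul, mul_comm 2 m]
  have h5 : 1 + m * (1 - a) ≤ (1 + a * (1 - a)) ^ m := le_of_sq_le_sq h4 (by positivity)
  have he : 0 < 1 - a := by linarith
  have hae : 0 < a * (1 - a) := mul_pos ha0 he
  interval_cases m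
  · norm_num at h5
    nlinarith
  · norm_num at h5
    have : (1 + a * (1 - a)) ^ 2 = 1 + 2 * a * (1 - a) + (a * (1 - a)) ^ 2 := by ring
    rw [this] at h5
    have h6 : (a * (1 - a)) ^ 2 < 2 * (1 - a) ^ 2 := by
      have : (a * (1 - a)) ^ 2 = a ^ 2 * (1 - a) ^ 2 := by ring
      rw [this]
      have h7 : 0 < (1 - a) ^ 2 := by positivity
      nlinarith
    nlinarith
  · norm_num at h5
    have h7 : 0 < (1 - a) ^ 2 := by positivity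
    have e : 1 + 3 * (1 - a) - (1 + a * (1 - a)) ^ 3
        = (1 - a) ^ 2 * (3 - 3 * a ^ 2 - a ^ 3 * (1 - a)) := by ring
    have h8 : 0 < 3 - 3 * a ^ 2 - a ^ 3 * (1 - a) := by
      have h9 : a ^ 3 * (1 - a) ≤ 1 * (1 - a) :=
        mul_le_mul_of_nonneg_right (pow_le_one₀ ha0.le ha1.le) he.le
      have h10 : 3 - 3 * a ^ 2 = 3 * (1 + a) * (1 - a) := by ring
      nlinarith
    have := mul_pos h7 h8
    linarith

end Pool.Agent.Work.F0bc87
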