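import Mathlib
import Pool.Agent.Work.MP_f0bc87_an.Defs

/-!
The scalar inequality for `m ≥ 1000` (problem MP_f0bc87_an).
-/

set_option autoImplicit false

namespace Pool.Agent.Work.F0bc87

/-- linear criterion, large `m` -/
theorem criterion_large {m : ℕ} {a t Y : ℝ} (ha0 : 0 < a) (ht0 : 0 < t) (ht1 : t ≤ 1)
    (hY : 0 ≤ Y) (h1 : 2 * Y + t ^ (m + 1) < 1) (h2 : a + t ^ (m + 1) < 1) :
    ∀ U : ℝ, 1 - t ^ 2 + a ^ 2 ≤ 2 * a * U → U ≤ 1 →
      a * U + t ^ (m + 1) + Y * (1 - U ^ 2) < 1 := by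
  intro U hU hU1
  have ht2 : t ^ 2 ≤ 1 := by nlinarith
  have hU0 : 0 ≤ U := by
    by_contra hcon
    push Not at hcon
    nlinarith [mul_pos ha0 (neg_pos.mpr hcon), sq_nonneg a]
  have h3 : Y * (1 - U ^ 2) ≤ 2 * Y * (1 - U) := by
    have : Y * (1 - U ^ 2) = Y * ((1 - U) * (1 + U)) := by ring
    rw [this]
    have h4 : (1 - U) * (1 + U) ≤ (1 - U) * 2 := by
      apply mul_le_mul_of_nonneg_left <;> linarith
    nlinarith [mul_le_mul_of_nonneg_left h4 hY]
  have h5 : a * U + t ^ (m + 1) + 2 * Y * (1 - U) =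
      U * (a + t ^ (m + 1)) + (1 - U) * (2 * Y + t ^ (m + 1)) := by ring
  rcases eq_or_lt_of_le hU0 with h0 | h0
  · rw [← h0] at h5 h3 ⊢
    linarith
  · nlinarith [mul_lt_mul_of_pos_left h2 h0, mul_nonneg (sub_nonneg.mpr hU1) (sub_nonneg.mpr h1.le)]

theorem sqrt_pow_le_exp (k : ℝ) (n : ℕ) :
    (√(1 - k)) ^ n ≤ Real.exp (-(k * n / 2)) := by
  have h1 : √(1 - k) ≤ Real.exp (-(k / 2)) := by
    rw [Real.sqrt_le_left (Real.exp_pos _).le]
    have h2 : Real.exp (-(k / 2)) ^ 2 = Real.exp (-k) := by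
      rw [← Real.exp_nat_mul]; congr 1; push_cast; ring
    rw [h2]
    have := Real.add_one_le_exp (-k)
    linarith
  calc (√(1 - k)) ^ n ≤ (Real.exp (-(k / 2))) ^ n := pow_le_pow_left₀ (Real.sqrt_nonneg _) h1 n
    _ = _ := by rw [← Real.exp_nat_mul]; congr 1; ring

/-- reduction to two explicit inequalities -/
theorem large_reduce {m : ℕ} (hm : 1000 ≤ m) {a k : ℝ} (ha0 : 0 < a) (ha1 : a < 1)
    (hk0 : 0 < k) (hk1 : k ≤ 1 / 2)
    (hK : (1 + (1 - a ^ 2) * k) ^ m ≤ (1 + m * (1 - a)) ^ 2)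
    (h1 : 2 * (2 * a ^ 2 / ((k / 2 + a ^ 2 / 4) ^ 2 * (m - 1)) +
      a ^ 2 / 4 * (27183 / 10000 * m * (2 / 3 * Real.exp (-((k / 2 + a ^ 2 / 4) * (m - 2) / 2)) +
        5 / 6 * Real.exp (-(k * (m - 2) / 2))))) + Real.exp (-(k * (m + 1) / 2)) < 1)
    (h2 : a + Real.exp (-(k * (m + 1) / 2)) < 1) : ScalarOK m a := by
  have hmr : (1000 : ℝ) ≤ m := by exact_mod_cast hm
  set q : ℝ := k / 2 + a ^ 2 / 4 with hq
  have ha2 : a ^ 2 < 1 := by nlinarith
  have hq0 : 0 < q := by positivity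
  have hq1 : q < 1 := by rw [hq]; linarith
  have ht2 : √(1 - k) ^ 2 = 1 - k := Real.sq_sqrt (by linarith)
  have hr2 : √(1 - q) ^ 2 = 1 - q := Real.sq_sqrt (by linarith)
  have ht0 : 0 < √(1 - k) := Real.sqrt_pos.mpr (by linarith)
  have hr0 : 0 < √(1 - q) := Real.sqrt_pos.mpr (by linarith)
  have ht1 : √(1 - k) ≤ 1 := Real.sqrt_le_one.mpr (by linarith)
  have hr1 : √(1 - q) ≤ 1 - q / 2 := by
    rw [Real.sqrt_le_left (by linarith)]
    nlinarith [sq_nonneg q]
  have hm2 : (((m - 2 : ℕ) : ℕ) : ℝ) = (m : ℝ) - 2 := by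
    rw [Nat.cast_sub (by omega)]; simp
  have htm : √(1 - k) ^ (m - 2) ≤ Real.exp (-(k * (m - 2) / 2)) := by
    have := sqrt_pow_le_exp k (m - 2)
    rwa [hm2] at this
  have hrm : √(1 - q) ^ (m - 2) ≤ Real.exp (-(q * (m - 2) / 2)) := by
    have := sqrt_pow_le_exp q (m - 2)
    rwa [hm2] at this
  have htE : √(1 - k) ^ (m + 1) ≤ Real.exp (-(k * (m + 1) / 2)) := by
    have := sqrt_pow_le_exp k (m + 1)
    push_cast at this
    exact this
  have hY : Yb m a (√(1 - k)) (√(1 - q)) ≤ 2 * a ^ 2 / (q ^ 2 * (m - 1)) +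
      a ^ 2 / 4 * (27183 / 10000 * m * (2 / 3 * Real.exp (-(q * (m - 2) / 2)) +
        5 / 6 * Real.exp (-(k * (m - 2) / 2)))) := by
    unfold Yb
    rw [mul_add]
    apply add_le_add
    · have h3 : q / 2 ≤ 1 - √(1 - q) := by linarith
      have h4 : (q / 2) ^ 2 ≤ (1 - √(1 - q)) ^ 2 := pow_le_pow_left₀ (by positivity) h3 2
      have h5 : (0 : ℝ) < (m : ℝ) - 1 := by linarith
      have h6 : 2 * a ^ 2 / (q ^ 2 * (m - 1)) = a ^ 2 / 4 * (2 / ((q / 2) ^ 2 * (m - 1))) := by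
        field_simp; ring
      rw [h6]
      gcongr
    · gcongr
  have hY0 : 0 ≤ Yb m a (√(1 - k)) (√(1 - q)) := by
    unfold Yb
    have h5 : (0 : ℝ) < (m : ℝ) - 1 := by linarith
    positivity
  refine ⟨√(1 - k), √(1 - q), ht0, ht1, ?_, hr0, by linarith, ?_, ?_⟩
  · rw [ht2]
    have : 1 - (1 - k) = k := by ring
    rw [this]
    exact hK
  · rw [ht2, hr2, hq]; linarith
  · exact criterion_large ha0 ht0 ht1 hY0 (by linarith) (by linarith)

/-- `y e^{-y} ≤ 2/5` -/
theorem mul_exp_neg_le (y : ℝ) : y * Real.exp (-y) ≤ 46 / 125 := by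
  have h1 := Real.add_one_le_exp (y - 1)
  have h2 : Real.exp (y - 1) = Real.exp y * Real.exp (-1) := by rw [← Real.exp_add]; congr 1
  have h3 : y ≤ Real.exp y * Real.exp (-1) := by linarith
  have h4 : y * Real.exp (-y) ≤ Real.exp (-1) := by
    calc y * Real.exp (-y) ≤ (Real.exp y * Real.exp (-1)) * Real.exp (-y) :=
          mul_le_mul_of_nonneg_right h3 (Real.exp_pos _).le
      _ = Real.exp (-1) * (Real.exp y * Real.exp (-y)) := by ring
      _ = Real.exp (-1) := by rw [← Real.exp_add]; simp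
  refine h4.trans ?_
  have h5 : (2.7182818283 : ℝ) < Real.exp 1 := Real.exp_one_gt_d9
  rw [Real.exp_neg, inv_le_comm₀ (Real.exp_pos 1) (by norm_num)]
  linarith

/-- `y e^{-y} ≤ 6 / y^2` -/
theorem mul_exp_neg_le' {y : ℝ} (hy : 0 < y) : y * Real.exp (-y) ≤ 6 / y ^ 2 := by
  have h1 := Real.pow_div_factorial_le_exp y hy.le 3
  have h2 : (Nat.factorial 3 : ℝ) = 6 := by norm_num [Nat.factorial]
  rw [h2] at h1
  rw [Real.exp_neg, ← div_eq_mul_inv, div_le_div_iff₀ (Real.exp_pos y) (by positivity)]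
  rw [div_le_iff₀ (by norm_num)] at h1
  nlinarith

theorem log_half_ge {m : ℝ} (hm : 1000 ≤ m) : 31 / 5 ≤ Real.log (1 + m / 2) := by
  have h1 : (31 : ℝ) ≤ Real.log (501 ^ 5) := by
    rw [Real.le_log_iff_exp_le (by norm_num)]
    have h4 : Real.exp 31 = (Real.exp 1) ^ 31 := by rw [← Real.exp_nat_mul]; norm_num
    have h5 : Real.exp 1 < 2.7182818286 := Real.exp_one_lt_d9
    have h6 : (Real.exp 1) ^ 31 ≤ (2.7182818286 : ℝ) ^ 31 := by gcongr
    have h7 : (2.7182818286 : ℝ) ^ 31 ≤ 501 ^ 5 := by norm_num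
    linarith
  rw [Real.log_pow] at h1
  have h2 : Real.log 501 ≤ Real.log (1 + m / 2) := Real.log_le_log (by norm_num) (by linarith)
  push_cast at h1
  linarith

theorem log_quarter_ge {m : ℝ} (hm : 1000 ≤ m) : 11 / 2 ≤ Real.log (1 + m / 4) := by
  have h1 : (11 : ℝ) ≤ Real.log (251 ^ 2) := by
    rw [Real.le_log_iff_exp_le (by norm_num)]
    have h4 : Real.exp 11 = (Real.exp 1) ^ 11 := by rw [← Real.exp_nat_mul]; norm_num
    have h5 : Real.exp 1 < 2.7182818286 := Real.exp_one_lt_d9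
    have h6 : (Real.exp 1) ^ 11 ≤ (2.7182818286 : ℝ) ^ 11 := by gcongr
    have h7 : (2.7182818286 : ℝ) ^ 11 ≤ 251 ^ 2 := by norm_num
    linarith
  rw [Real.log_pow] at h1
  have h2 : Real.log 251 ≤ Real.log (1 + m / 4) := Real.log_le_log (by norm_num) (by linarith)
  push_cast at h1
  linarith

theorem log_half_le {m : ℝ} (hm : 1000 ≤ m) : Real.log (1 + m / 2) ≤ m / 100 := by
  have h1 : Real.log (1 + m / 2) = Real.log ((1 + m / 2) / 256) + Real.log 256 := by
    rw [Real.log_div (by linarith) (by norm_num)]; ring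
  have h2 := Real.log_le_sub_one_of_pos (x := (1 + m / 2) / 256) (by positivity)
  have h3 : Real.log 256 = 8 * Real.log 2 := by
    rw [show (256 : ℝ) = 2 ^ 8 by norm_num, Real.log_pow]; norm_num
  have h4 := Real.log_two_lt_d9
  rw [h1, h3]
  linarith

/-- the second term of the bracket -/
theorem second_small {m a k : ℝ} (hm : 1000 ≤ m) (ha0 : 0 < a) (hk0 : 0 < k)
    (hkm : 31 / 5 ≤ k * m / 2) :
    a ^ 2 * m * Real.exp (-((k / 2 + a ^ 2 / 4) * (m - 2) / 2)) ≤ 17 / 125 := by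
  have e1 : Real.exp (-((k / 2 + a ^ 2 / 4) * (m - 2) / 2)) =
      Real.exp (-(k * (m - 2) / 4)) * Real.exp (-(a ^ 2 * (m - 2) / 8)) := by
    rw [← Real.exp_add]; congr 1; ring
  have e2 : Real.exp (-(k * (m - 2) / 4)) ≤ 23 / 500 := by
    have h1 : (3.09 : ℝ) ≤ k * (m - 2) / 4 := by nlinarith
    have h2 : Real.exp (-(k * (m - 2) / 4)) ≤ Real.exp (-3.09) := by
      apply Real.exp_le_exp.mpr; linarith
    refine h2.trans ?_
    rw [Real.exp_neg, inv_le_comm₀ (Real.exp_pos _) (by norm_num)]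
    have h3 : Real.exp 3.09 = (Real.exp 1) ^ 3 * Real.exp 0.09 := by
      rw [← Real.exp_nat_mul, ← Real.exp_add]; congr 1; norm_num
    have h5 : (2.7182818283 : ℝ) < Real.exp 1 := Real.exp_one_gt_d9
    have h7 : (2.7182818283 : ℝ) ^ 3 ≤ (Real.exp 1) ^ 3 :=
      pow_le_pow_left₀ (by norm_num) h5.le 3
    have h8 := Real.add_one_le_exp (0.09 : ℝ)
    have h9 : (2.7182818283 : ℝ) ^ 3 * 1.09 ≤ (Real.exp 1) ^ 3 * Real.exp 0.09 :=
      mul_le_mul h7 (by linarith) (by norm_num) (by positivity)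
    rw [h3]
    refine le_trans ?_ h9
    norm_num
  have e3 : a ^ 2 * m * Real.exp (-(a ^ 2 * (m - 2) / 8)) ≤ 2.95 := by
    have h1 := mul_exp_neg_le (a ^ 2 * (m - 2) / 8)
    have h2 : a ^ 2 * m ≤ (8 * 1000 / 998) * (a ^ 2 * (m - 2) / 8) := by
      nlinarith [sq_nonneg a, mul_nonneg (sq_nonneg a) (by linarith : (0 : ℝ) ≤ m - 1000)]
    have h3 : 0 < Real.exp (-(a ^ 2 * (m - 2) / 8)) := Real.exp_pos _
    nlinarith [mul_le_mul_of_nonneg_right h2 h3.le]
  rw [e1]
  have h4 : 0 < Real.exp (-(k * (m - 2) / 4)) := Real.exp_pos _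
  have h5 : 0 < Real.exp (-(a ^ 2 * (m - 2) / 8)) := Real.exp_pos _
  have h6 : 0 ≤ a ^ 2 * m * Real.exp (-(a ^ 2 * (m - 2) / 8)) := by
    have : 0 ≤ m := by linarith
    positivity
  calc a ^ 2 * m * (Real.exp (-(k * (m - 2) / 4)) * Real.exp (-(a ^ 2 * (m - 2) / 8)))
      = Real.exp (-(k * (m - 2) / 4)) * (a ^ 2 * m * Real.exp (-(a ^ 2 * (m - 2) / 8))) := by ring
    _ ≤ (23 / 500) * 2.95 := mul_le_mul e2 e3 h6 (by norm_num)
    _ ≤ _ := by norm_num

/-- case `a ≤ 1/2` -/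
theorem large_caseA {m : ℕ} (hm : 1000 ≤ m) {a : ℝ} (ha0 : 0 < a) (ha : a ≤ 1 / 2) :
    ScalarOK m a := by
  have hmr : (1000 : ℝ) ≤ m := by exact_mod_cast hm
  set l := Real.log (1 + (m : ℝ) / 2) with hl
  have hl1 : 31 / 5 ≤ l := log_half_ge hmr
  have hl2 : l ≤ m / 100 := log_half_le hmr
  have hexpl : Real.exp l = 1 + (m : ℝ) / 2 := Real.exp_log (by linarith)
  set k : ℝ := 2 * (1 + a ^ 2) * l / m with hk
  have ha2 : a ^ 2 ≤ 1 / 4 := by nlinarith
  have ha20 : 0 < a ^ 2 := by positivity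
  have hk0 : 0 < k := by positivity
  have hkm : k * m = 2 * (1 + a ^ 2) * l := by rw [hk]; field_simp
  have hk1 : k ≤ 1 / 2 := by
    rw [hk, div_le_iff₀ (by linarith)]
    nlinarith
  have hkm2 : 31 / 5 ≤ k * m / 2 := by rw [hkm]; nlinarith
  apply large_reduce hm ha0 (by linarith) hk0 hk1
  · -- the K condition
    have h1 : 0 ≤ (1 - a ^ 2) * k := mul_nonneg (by linarith) hk0.le
    have h2 : 1 + (1 - a ^ 2) * k ≤ Real.exp ((1 - a ^ 2) * k) := by
      have := Real.add_one_le_exp ((1 - a ^ 2) * k); linarith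
    calc (1 + (1 - a ^ 2) * k) ^ m ≤ (Real.exp ((1 - a ^ 2) * k)) ^ m :=
          pow_le_pow_left₀ (by linarith) h2 m
      _ = Real.exp (m * ((1 - a ^ 2) * k)) := by rw [← Real.exp_nat_mul]
      _ ≤ Real.exp (2 * l) := by
          apply Real.exp_le_exp.mpr
          have h3 : (m : ℝ) * ((1 - a ^ 2) * k) = (1 - a ^ 2) * (k * m) := by ring
          rw [h3, hkm]
          have h4 : (1 - a ^ 2) * (2 * (1 + a ^ 2) * l) = 2 * l - 2 * l * (a ^ 2) ^ 2 := by ring
          rw [h4]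
          have : 0 ≤ 2 * l * (a ^ 2) ^ 2 := by positivity
          linarith
      _ = (1 + (m : ℝ) / 2) ^ 2 := by
          rw [two_mul, Real.exp_add, hexpl]; ring
      _ ≤ (1 + m * (1 - a)) ^ 2 := by
          apply pow_le_pow_left₀ (by linarith)
          nlinarith
  · have hF : 2 * a ^ 2 / ((k / 2 + a ^ 2 / 4) ^ 2 * (m - 1)) ≤ 323 / 1000 := by
      rw [div_le_iff₀ (by have : (0:ℝ) < (m:ℝ) - 1 := by linarith
                          positivity)]
      have h1 : k * a ^ 2 / 2 ≤ (k / 2 + a ^ 2 / 4) ^ 2 := by nlinarith [sq_nonneg (k / 2 - a ^ 2 / 4)]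
      have h2 : k * a ^ 2 / 2 * (m - 1) ≤ (k / 2 + a ^ 2 / 4) ^ 2 * (m - 1) :=
        mul_le_mul_of_nonneg_right h1 (by linarith)
      have h3 : (12.4 : ℝ) - 12.4 / 1000 ≤ k * (m - 1) := by nlinarith
      nlinarith [mul_le_mul_of_nonneg_left h3 ha20.le]
    have hG2 := second_small hmr ha0 hk0 hkm2
    have hE : Real.exp (-(k * (m + 1) / 2)) ≤ 1 / 400 := by
      have h1 : Real.exp (-(k * (m + 1) / 2)) ≤ Real.exp (-l) := by
        apply Real.exp_le_exp.mpr
        nlinarith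
      refine h1.trans ?_
      rw [Real.exp_neg, hexpl, inv_le_comm₀ (by linarith) (by norm_num)]
      linarith
    have hG3 : a ^ 2 * m * Real.exp (-(k * (m - 2) / 2)) ≤ 49 / 400 := by
      -- exponent
      set c : ℝ := (1 - 2 / m) * l with hc
      have hm2 : (1 : ℝ) - 2 / m ≥ 499 / 500 := by
        have : (2 : ℝ) / m ≤ 1 / 500 := by
          rw [div_le_div_iff₀ (by linarith) (by norm_num)]; linarith
        linarith
      have hcl : 6.18 ≤ c := by rw [hc]; nlinarith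
      have h1 : k * (m - 2) / 2 = c + a ^ 2 * c := by
        rw [hk, hc]; field_simp
      have h2 : Real.exp (-(k * (m - 2) / 2)) = Real.exp (-c) * Real.exp (-(a ^ 2 * c)) := by
        rw [← Real.exp_add, h1]; congr 1; ring
      have h3 : a ^ 2 * Real.exp (-(a ^ 2 * c)) ≤ 0.0596 := by
        have h4 := mul_exp_neg_le (a ^ 2 * c)
        have h5 : 0 < Real.exp (-(a ^ 2 * c)) := Real.exp_pos _
        have h6 : 6.18 * (a ^ 2 * Real.exp (-(a ^ 2 * c))) ≤ a ^ 2 * c * Real.exp (-(a ^ 2 * c)) := by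
          have h7 : 0 ≤ a ^ 2 * Real.exp (-(a ^ 2 * c)) := by positivity
          nlinarith [mul_le_mul_of_nonneg_left hcl h7]
        linarith
      have h4 : (m : ℝ) * Real.exp (-c) ≤ 2.05 := by
        have h5 : Real.exp (-c) = Real.exp (-l) * Real.exp (2 * l / m) := by
          rw [← Real.exp_add, hc]; congr 1; field_simp; ring
        have h6 : Real.exp (2 * l / m) ≤ 1.025 := by
          have h7 : 2 * l / m ≤ 1 / 50 := by
            rw [div_le_div_iff₀ (by linarith) (by norm_num)]; linarith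
          have h8 : Real.exp (2 * l / m) ≤ Real.exp (1 / 50) := Real.exp_le_exp.mpr h7
          refine h8.trans ?_
          by_contra hcon
          push Not at hcon
          have h9 : (1.025 : ℝ) ^ 50 ≤ Real.exp (1 / 50) ^ 50 :=
            pow_le_pow_left₀ (by norm_num) hcon.le 50
          have h10 : Real.exp (1 / 50) ^ 50 = Real.exp 1 := by
            rw [← Real.exp_nat_mul]; congr 1; norm_num
          rw [h10] at h9
          have h11 : Real.exp 1 < 2.7182818286 := Real.exp_one_lt_d9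
          have h12 : (2.7182818286 : ℝ) < 1.025 ^ 50 := by norm_num
          linarith
        have h7 : (m : ℝ) * Real.exp (-l) ≤ 2 := by
          rw [Real.exp_neg, hexpl, ← div_eq_mul_inv, div_le_iff₀ (by linarith)]
          linarith
        rw [h5]
        calc (m : ℝ) * (Real.exp (-l) * Real.exp (2 * l / m))
            = (m * Real.exp (-l)) * Real.exp (2 * l / m) := by ring
          _ ≤ 2 * 1.025 := mul_le_mul h7 h6 (Real.exp_pos _).le (by norm_num)
          _ ≤ _ := by norm_num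
      rw [h2]
      calc a ^ 2 * m * (Real.exp (-c) * Real.exp (-(a ^ 2 * c)))
          = (m * Real.exp (-c)) * (a ^ 2 * Real.exp (-(a ^ 2 * c))) := by ring
        _ ≤ 2.05 * 0.0596 := mul_le_mul h4 h3 (by positivity) (by norm_num)
        _ ≤ _ := by norm_num
    have hsum : a ^ 2 / 4 * (27183 / 10000 * m *
        (2 / 3 * Real.exp (-((k / 2 + a ^ 2 / 4) * (m - 2) / 2)) +
        5 / 6 * Real.exp (-(k * (m - 2) / 2)))) =
        27183 / 60000 * (a ^ 2 * m * Real.exp (-((k / 2 + a ^ 2 / 4) * (m - 2) / 2))) +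
        27183 / 48000 * (a ^ 2 * m * Real.exp (-(k * (m - 2) / 2))) := by ring
    rw [hsum]
    linarith
  · have h1 : Real.exp (-(k * (m + 1) / 2)) ≤ Real.exp (-l) := by
      apply Real.exp_le_exp.mpr
      nlinarith
    have h2 : Real.exp (-l) ≤ 1 / 400 := by
      rw [Real.exp_neg, hexpl, inv_le_comm₀ (by linarith) (by norm_num)]
      linarith
    linarith

/-- Bernoulli -/
theorem exp_mul_log_le {s p : ℝ} (hs : 0 ≤ s) (hp0 : 0 ≤ p) (hp1 : p ≤ 1) :
    Real.exp (p * Real.log (1 + s)) ≤ 1 + p * s := by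
  have h := rpow_one_add_le_one_add_mul_self (s := s) (by linarith) hp0 hp1
  rw [Real.rpow_def_of_pos (by linarith), mul_comm] at h
  exact h

/-- first term, `a ≥ 1/2` -/
theorem first_small {m a k c : ℝ} (hm : 1000 ≤ m) (hk0 : 0 < k) (hc : 0 < c)
    (hca : c ≤ a ^ 2) : 2 * a ^ 2 / ((k / 2 + a ^ 2 / 4) ^ 2 * (m - 1)) ≤ 32 / (c * 999) := by
  have ha2 : 0 < a ^ 2 := lt_of_lt_of_le hc hca
  have h0 : (999 : ℝ) ≤ m - 1 := by linarith
  rw [div_le_div_iff₀ (by positivity) (by positivity)]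
  have h1 : (a ^ 2 / 4) ^ 2 ≤ (k / 2 + a ^ 2 / 4) ^ 2 :=
    pow_le_pow_left₀ (by positivity) (by linarith) 2
  calc 2 * a ^ 2 * (c * 999) ≤ 2 * a ^ 2 * (a ^ 2 * (m - 1)) := by gcongr
    _ = 32 * ((a ^ 2 / 4) ^ 2 * (m - 1)) := by ring
    _ ≤ 32 * ((k / 2 + a ^ 2 / 4) ^ 2 * (m - 1)) := by gcongr

/-- second term, `a ≥ 1/2` -/
theorem second_small' {m a k : ℝ} (hm : 1000 ≤ m) (hk0 : 0 < k) (ha : 1 / 4 ≤ a ^ 2) :
    a ^ 2 * m * Real.exp (-((k / 2 + a ^ 2 / 4) * (m - 2) / 2)) ≤ 51 / 1000 := by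
  set y : ℝ := a ^ 2 * (m - 2) / 8 with hy
  have hy1 : 31 ≤ y := by rw [hy]; nlinarith
  have h1 := mul_exp_neg_le' (y := y) (by linarith)
  have h2 : a ^ 2 * m ≤ (8 * 1000 / 998) * y := by
    rw [hy]
    nlinarith [sq_nonneg a, mul_nonneg (sq_nonneg a) (by linarith : (0 : ℝ) ≤ m - 1000)]
  have h3 : Real.exp (-((k / 2 + a ^ 2 / 4) * (m - 2) / 2)) ≤ Real.exp (-y) := by
    apply Real.exp_le_exp.mpr
    rw [hy]
    nlinarith [mul_nonneg hk0.le (by linarith : (0 : ℝ) ≤ m - 2)]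
  have h4 : 6 / y ^ 2 ≤ 6 / 31 ^ 2 := by gcongr
  have h5 : 0 < Real.exp (-y) := Real.exp_pos _
  calc a ^ 2 * m * Real.exp (-((k / 2 + a ^ 2 / 4) * (m - 2) / 2))
      ≤ ((8 * 1000 / 998) * y) * Real.exp (-y) := by
        apply mul_le_mul h2 h3 (Real.exp_pos _).le (by positivity)
    _ = (8 * 1000 / 998) * (y * Real.exp (-y)) := by ring
    _ ≤ (8 * 1000 / 998) * (6 / 31 ^ 2) := by
        apply mul_le_mul_of_nonneg_left (h1.trans h4) (by norm_num)
    _ ≤ _ := by norm_num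

theorem exp_fiftieth : Real.exp (1 / 50) ≤ 1.025 := by
  by_contra hcon
  push Not at hcon
  have h9 : (1.025 : ℝ) ^ 50 ≤ Real.exp (1 / 50) ^ 50 :=
    pow_le_pow_left₀ (by norm_num) hcon.le 50
  have h10 : Real.exp (1 / 50) ^ 50 = Real.exp 1 := by
    rw [← Real.exp_nat_mul]; congr 1; norm_num
  rw [h10] at h9
  have h11 : Real.exp 1 < 2.7182818286 := Real.exp_one_lt_d9
  have h12 : (2.7182818286 : ℝ) < 1.025 ^ 50 := by norm_num
  linarith

/-- case `1/2 ≤ a ≤ 3/4` -/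
theorem large_caseB {m : ℕ} (hm : 1000 ≤ m) {a : ℝ} (ha : 1 / 2 ≤ a) (ha' : a ≤ 3 / 4) :
    ScalarOK m a := by
  have hmr : (1000 : ℝ) ≤ m := by exact_mod_cast hm
  have ha0 : 0 < a := by linarith
  set l := Real.log (1 + (m : ℝ) / 2) with hl
  have hl1 : 31 / 5 ≤ l := log_half_ge hmr
  have hl2 : l ≤ m / 100 := log_half_le hmr
  have hexpl : Real.exp l = 1 + (m : ℝ) / 2 := Real.exp_log (by linarith)
  set k : ℝ := 16 / 7 * l / m with hk
  have ha2 : a ^ 2 ≤ 9 / 16 := by nlinarith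
  have ha2' : 1 / 4 ≤ a ^ 2 := by nlinarith
  have ha20 : 0 < a ^ 2 := by positivity
  have hk0 : 0 < k := by positivity
  have hkm : k * m = 16 / 7 * l := by rw [hk]; field_simp
  have hk1 : k ≤ 1 / 2 := by
    rw [hk, div_le_iff₀ (by linarith)]
    nlinarith
  have hE : Real.exp (-(k * (m + 1) / 2)) ≤ 1 / 400 := by
    have h1 : Real.exp (-(k * (m + 1) / 2)) ≤ Real.exp (-l) := by
      apply Real.exp_le_exp.mpr
      nlinarith
    refine h1.trans ?_
    rw [Real.exp_neg, hexpl, inv_le_comm₀ (by linarith) (by norm_num)]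
    linarith
  apply large_reduce hm ha0 (by linarith) hk0 hk1
  · -- the K condition
    have h1 : 0 ≤ (1 - a ^ 2) * k := mul_nonneg (by linarith) hk0.le
    have h2 : 1 + (1 - a ^ 2) * k ≤ Real.exp ((1 - a ^ 2) * k) := by
      have := Real.add_one_le_exp ((1 - a ^ 2) * k); linarith
    have hb := exp_mul_log_le (s := (m : ℝ) / 2) (p := 2 * (1 - a)) (by linarith) (by linarith)
      (by linarith)
    rw [← hl] at hb
    calc (1 + (1 - a ^ 2) * k) ^ m ≤ (Real.exp ((1 - a ^ 2) * k)) ^ m :=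
          pow_le_pow_left₀ (by linarith) h2 m
      _ = Real.exp (m * ((1 - a ^ 2) * k)) := by rw [← Real.exp_nat_mul]
      _ ≤ Real.exp (2 * (2 * (1 - a) * l)) := by
          apply Real.exp_le_exp.mpr
          have h3 : (m : ℝ) * ((1 - a ^ 2) * k) = (1 - a) * ((1 + a) * (k * m)) := by ring
          rw [h3, hkm]
          have h4 : (1 + a) * (16 / 7 * l) ≤ 4 * l := by nlinarith
          nlinarith [mul_le_mul_of_nonneg_left h4 (by linarith : (0 : ℝ) ≤ 1 - a)]
      _ = (Real.exp (2 * (1 - a) * l)) ^ 2 := by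
          rw [← Real.exp_nat_mul]; congr 1
      _ ≤ (1 + m * (1 - a)) ^ 2 := by
          apply pow_le_pow_left₀ (Real.exp_pos _).le
          refine hb.trans (le_of_eq ?_)
          ring
  · have hF := first_small (a := a) hmr hk0 (c := 1 / 4) (by norm_num) ha2'
    have hG2 := second_small' hmr hk0 ha2'
    have hG3 : a ^ 2 * m * Real.exp (-(k * (m - 2) / 2)) ≤ 49 / 100 := by
      have h1 : Real.exp (-(k * (m - 2) / 2)) =
          Real.exp (-l) * (Real.exp (-(l / 7)) * Real.exp (16 / 7 * l / m)) := by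
        rw [← Real.exp_add, ← Real.exp_add, hk]; congr 1; field_simp; ring
      have h2 : Real.exp (-(l / 7)) ≤ 0.413 := by
        have h3 : Real.exp (-(l / 7)) ≤ Real.exp (-(31 / 35)) := by
          apply Real.exp_le_exp.mpr; linarith
        refine h3.trans ?_
        by_contra hcon
        push Not at hcon
        have h9 : (0.413 : ℝ) ^ 35 ≤ Real.exp (-(31 / 35)) ^ 35 :=
          pow_le_pow_left₀ (by norm_num) hcon.le 35
        have h10 : Real.exp (-(31 / 35)) ^ 35 = (Real.exp 1 ^ 31)⁻¹ := by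
          rw [← Real.exp_nat_mul, ← Real.exp_nat_mul, ← Real.exp_neg]; congr 1; norm_num
        rw [h10] at h9
        have h11 : (2.7182818283 : ℝ) < Real.exp 1 := Real.exp_one_gt_d9
        have h12 : (2.7182818283 : ℝ) ^ 31 ≤ Real.exp 1 ^ 31 :=
          pow_le_pow_left₀ (by norm_num) h11.le 31
        have h13 : (Real.exp 1 ^ 31)⁻¹ ≤ ((2.7182818283 : ℝ) ^ 31)⁻¹ := by
          apply inv_anti₀ (by positivity) h12
        have h14 : ((2.7182818283 : ℝ) ^ 31)⁻¹ < 0.413 ^ 35 := by norm_num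
        linarith
      have h6 : Real.exp (16 / 7 * l / m) ≤ 1.025 ^ 2 := by
        have h7 : 16 / 7 * l / m ≤ 1 / 50 + 1 / 50 := by
          rw [div_le_iff₀ (by linarith)]; nlinarith
        have h8 : Real.exp (16 / 7 * l / m) ≤ Real.exp (1 / 50 + 1 / 50) :=
          Real.exp_le_exp.mpr h7
        refine h8.trans ?_
        rw [Real.exp_add, pow_two]
        exact mul_le_mul exp_fiftieth exp_fiftieth (Real.exp_pos _).le (by norm_num)
      have h7 : (m : ℝ) * Real.exp (-l) ≤ 2 := by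
        rw [Real.exp_neg, hexpl, ← div_eq_mul_inv, div_le_iff₀ (by linarith)]
        linarith
      rw [h1]
      have h8 : Real.exp (-(l / 7)) * Real.exp (16 / 7 * l / m) ≤ 0.413 * 1.025 ^ 2 :=
        mul_le_mul h2 h6 (Real.exp_pos _).le (by norm_num)
      have h9 : 0 < Real.exp (-(l / 7)) * Real.exp (16 / 7 * l / m) := by positivity
      calc a ^ 2 * m * (Real.exp (-l) * (Real.exp (-(l / 7)) * Real.exp (16 / 7 * l / m)))
          = a ^ 2 * ((m * Real.exp (-l)) * (Real.exp (-(l / 7)) * Real.exp (16 / 7 * l / m))) := by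
            ring
        _ ≤ 9 / 16 * (2 * (0.413 * 1.025 ^ 2)) := by
            apply mul_le_mul ha2 (mul_le_mul h7 h8 h9.le (by norm_num)) (by positivity)
              (by norm_num)
        _ ≤ _ := by norm_num
    have hsum : a ^ 2 / 4 * (27183 / 10000 * m *
        (2 / 3 * Real.exp (-((k / 2 + a ^ 2 / 4) * (m - 2) / 2)) +
        5 / 6 * Real.exp (-(k * (m - 2) / 2)))) =
        27183 / 60000 * (a ^ 2 * m * Real.exp (-((k / 2 + a ^ 2 / 4) * (m - 2) / 2))) +
        27183 / 48000 * (a ^ 2 * m * Real.exp (-(k * (m - 2) / 2))) := by ring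
    rw [hsum]
    have hF2 : (32 : ℝ) / (1 / 4 * 999) ≤ 0.1282 := by norm_num
    linarith
  · linarith

/-- case `3/4 ≤ a` -/
theorem large_caseC {m : ℕ} (hm : 1000 ≤ m) {a : ℝ} (ha : 3 / 4 ≤ a) (ha1 : a < 1)
    (hnear : 2 ≤ (1 - a) * (9 * m - 26)) : ScalarOK m a := by
  have hmr : (1000 : ℝ) ≤ m := by exact_mod_cast hm
  have ha0 : 0 < a := by linarith
  set l := Real.log (1 + (m : ℝ) / 4) with hl
  have hl1 : 11 / 2 ≤ l := log_quarter_ge hmr
  have hl2 : l ≤ m / 100 := by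
    refine le_trans ?_ (log_half_le hmr)
    exact Real.log_le_log (by linarith) (by linarith)
  have hexpl : Real.exp l = 1 + (m : ℝ) / 4 := Real.exp_log (by linarith)
  set k : ℝ := 4 * l / m with hk
  have ha2 : a ^ 2 ≤ 1 := by nlinarith
  have ha2' : 9 / 16 ≤ a ^ 2 := by nlinarith
  have ha20 : 0 < a ^ 2 := by positivity
  have hk0 : 0 < k := by positivity
  have hkm : k * m = 4 * l := by rw [hk]; field_simp
  have hk1 : k ≤ 1 / 2 := by
    rw [hk, div_le_iff₀ (by linarith)]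
    nlinarith
  have hexp2 : Real.exp (-(2 * l)) = ((1 + (m : ℝ) / 4) ^ 2)⁻¹ := by
    rw [Real.exp_neg, two_mul, Real.exp_add, hexpl, pow_two]
  have hE0 : Real.exp (-(k * (m + 1) / 2)) ≤ ((1 + (m : ℝ) / 4) ^ 2)⁻¹ := by
    rw [← hexp2]
    apply Real.exp_le_exp.mpr
    nlinarith
  have hE : Real.exp (-(k * (m + 1) / 2)) ≤ 1 / 400 := by
    refine hE0.trans ?_
    rw [inv_le_comm₀ (by positivity) (by norm_num)]
    nlinarith
  apply large_reduce hm ha0 ha1 hk0 hk1
  · -- the K condition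
    have h1 : 0 ≤ (1 - a ^ 2) * k := mul_nonneg (by linarith) hk0.le
    have h2 : 1 + (1 - a ^ 2) * k ≤ Real.exp ((1 - a ^ 2) * k) := by
      have := Real.add_one_le_exp ((1 - a ^ 2) * k); linarith
    have hb := exp_mul_log_le (s := (m : ℝ) / 4) (p := 4 * (1 - a)) (by linarith) (by linarith)
      (by linarith)
    rw [← hl] at hb
    calc (1 + (1 - a ^ 2) * k) ^ m ≤ (Real.exp ((1 - a ^ 2) * k)) ^ m :=
          pow_le_pow_left₀ (by linarith) h2 m
      _ = Real.exp (m * ((1 - a ^ 2) * k)) := by rw [← Real.exp_nat_mul]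
      _ ≤ Real.exp (2 * (4 * (1 - a) * l)) := by
          apply Real.exp_le_exp.mpr
          have h3 : (m : ℝ) * ((1 - a ^ 2) * k) = (1 - a) * ((1 + a) * (k * m)) := by ring
          rw [h3, hkm]
          have h4 : (1 + a) * (4 * l) ≤ 8 * l := by nlinarith
          nlinarith [mul_le_mul_of_nonneg_left h4 (by linarith : (0 : ℝ) ≤ 1 - a)]
      _ = (Real.exp (4 * (1 - a) * l)) ^ 2 := by
          rw [← Real.exp_nat_mul]; congr 1
      _ ≤ (1 + m * (1 - a)) ^ 2 := by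
          apply pow_le_pow_left₀ (Real.exp_pos _).le
          refine hb.trans (le_of_eq ?_)
          ring
  · have hF := first_small (a := a) hmr hk0 (c := 9 / 16) (by norm_num) ha2'
    have hG2 := second_small' (a := a) hmr hk0 (by linarith)
    have hG3 : a ^ 2 * m * Real.exp (-(k * (m - 2) / 2)) ≤ 1 / 50 := by
      have h1 : Real.exp (-(k * (m - 2) / 2)) =
          Real.exp (-(2 * l)) * Real.exp (4 * l / m) := by
        rw [← Real.exp_add, hk]; congr 1; field_simp; ring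
      have h6 : Real.exp (4 * l / m) ≤ 1.025 ^ 2 := by
        have h7 : 4 * l / m ≤ 1 / 50 + 1 / 50 := by
          rw [div_le_iff₀ (by linarith)]; nlinarith
        have h8 : Real.exp (4 * l / m) ≤ Real.exp (1 / 50 + 1 / 50) :=
          Real.exp_le_exp.mpr h7
        refine h8.trans ?_
        rw [Real.exp_add, pow_two]
        exact mul_le_mul exp_fiftieth exp_fiftieth (Real.exp_pos _).le (by norm_num)
      have h7 : (m : ℝ) * Real.exp (-(2 * l)) ≤ 16 / 1000 := by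
        rw [hexp2, ← div_eq_mul_inv, div_le_iff₀ (by positivity)]
        nlinarith
      rw [h1]
      calc a ^ 2 * m * (Real.exp (-(2 * l)) * Real.exp (4 * l / m))
          = a ^ 2 * ((m * Real.exp (-(2 * l))) * Real.exp (4 * l / m)) := by ring
        _ ≤ 1 * (16 / 1000 * 1.025 ^ 2) := by
            apply mul_le_mul ha2 (mul_le_mul h7 h6 (Real.exp_pos _).le (by norm_num))
              (by positivity) (by norm_num)
        _ ≤ _ := by norm_num
    have hsum : a ^ 2 / 4 * (27183 / 10000 * m *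
        (2 / 3 * Real.exp (-((k / 2 + a ^ 2 / 4) * (m - 2) / 2)) +
        5 / 6 * Real.exp (-(k * (m - 2) / 2)))) =
        27183 / 60000 * (a ^ 2 * m * Real.exp (-((k / 2 + a ^ 2 / 4) * (m - 2) / 2))) +
        27183 / 48000 * (a ^ 2 * m * Real.exp (-(k * (m - 2) / 2))) := by ring
    rw [hsum]
    have hF2 : (32 : ℝ) / (9 / 16 * 999) ≤ 0.06 := by norm_num
    linarith
  · have h1 : ((1 + (m : ℝ) / 4) ^ 2)⁻¹ < 1 - a := by
      rw [inv_lt_iff_one_lt_mul₀ (by positivity)]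
      have h2 : 9 * (m : ℝ) - 26 < 2 * (1 + (m : ℝ) / 4) ^ 2 := by nlinarith
      have h3 : 0 < 1 - a := by linarith
      nlinarith [mul_lt_mul_of_pos_left h2 h3]
    linarith

/-- The scalar inequality for `m ≥ 1000`, away from `a = 1`. -/
theorem scalar_large (m : ℕ) (hm : 1000 ≤ m) (a : ℝ) (ha0 : 0 < a) (ha1 : a < 1)
    (hnear : 2 ≤ (1 - a) * (9 * m - 26)) : ScalarOK m a := by
  rcases le_total a (1 / 2) with h | h
  · exact large_caseA hm ha0 h
  · rcases le_total a (3 / 4) with h' | h'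
    · exact large_caseB hm h h'
    · exact large_caseC hm h' ha1 hnear

end Pool.Agent.Work.F0bc87
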