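import Pool.Agent.Work.MP_f0bc87_an.ScalarLin

/-!
The scalar inequality near `a = 1`.
-/

set_option autoImplicit false

namespace Pool.Agent.Work.F0bc87

/-- The `K`-condition near `a = 1`. -/
theorem near_K (m : ℕ) (hm : 2 ≤ m) (e : ℝ) (he0 : 0 ≤ e) (he : (m - 2) * e < 2) :
    (1 + 2 * e - (m - 2) * e ^ 2) ^ m ≤ (1 + m * e) ^ 2 := by
  have hm' : (2 : ℝ) ≤ m := by exact_mod_cast hm
  have hpos1 : ∀ x : ℝ, 0 ≤ x → x ≤ e → 0 < 1 + m * x := by
    intro x hx _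
    have : 0 ≤ (m : ℝ) * x := by positivity
    linarith
  have hpos2 : ∀ x : ℝ, 0 ≤ x → x ≤ e → 0 < 1 + 2 * x - (m - 2) * x ^ 2 := by
    intro x hx hxe
    have h1 : ((m : ℝ) - 2) * x ≤ (m - 2) * e := mul_le_mul_of_nonneg_left hxe (by linarith)
    have h2 : 0 ≤ x * (2 - (m - 2) * x) := mul_nonneg hx (by linarith)
    nlinarith
  set f : ℝ → ℝ := fun x => 2 * Real.log (1 + m * x) - m * Real.log (1 + 2 * x - (m - 2) * x ^ 2)
    with hf
  have hder : ∀ x : ℝ, 0 ≤ x → x ≤ e → HasDerivAt f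
      (2 * (m / (1 + m * x)) - m * ((2 - (m - 2) * (2 * x)) / (1 + 2 * x - (m - 2) * x ^ 2))) x := by
    intro x hx hxe
    have h1 : HasDerivAt (fun x : ℝ => 1 + (m : ℝ) * x) (m : ℝ) x := by
      simpa using ((hasDerivAt_id x).const_mul (m : ℝ)).const_add 1
    have h2 : HasDerivAt (fun x : ℝ => 1 + 2 * x - ((m : ℝ) - 2) * x ^ 2)
        (2 - ((m : ℝ) - 2) * (2 * x)) x := by
      have h3 := ((hasDerivAt_id x).const_mul (2 : ℝ)).const_add 1
      have h4 := (hasDerivAt_pow 2 x).const_mul ((m : ℝ) - 2)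
      have h5 := h3.fun_sub h4
      simpa using h5
    exact ((h1.log (hpos1 x hx hxe).ne').const_mul 2).sub
      ((h2.log (hpos2 x hx hxe).ne').const_mul (m : ℝ))
  have hmono : MonotoneOn f (Set.Icc 0 e) := by
    apply monotoneOn_of_deriv_nonneg (convex_Icc 0 e)
    · intro x hx
      exact (hder x hx.1 hx.2).continuousAt.continuousWithinAt
    · intro x hx
      rw [interior_Icc] at hx
      exact (hder x hx.1.le hx.2.le).differentiableAt.differentiableWithinAt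
    · intro x hx
      rw [interior_Icc] at hx
      rw [(hder x hx.1.le hx.2.le).deriv]
      have p1 := hpos1 x hx.1.le hx.2.le
      have p2 := hpos2 x hx.1.le hx.2.le
      have : 2 * ((m : ℝ) / (1 + m * x)) -
          m * ((2 - (m - 2) * (2 * x)) / (1 + 2 * x - (m - 2) * x ^ 2)) =
          m * (2 * (m - 2) * (m - 1) * x ^ 2) / ((1 + m * x) * (1 + 2 * x - (m - 2) * x ^ 2)) := by
        rw [mul_div_assoc', mul_div_assoc', div_sub_div _ _ p1.ne' p2.ne']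
        congr 1
        ring
      rw [this]
      apply div_nonneg _ (mul_pos p1 p2).le
      have : (0 : ℝ) ≤ (m - 2) * (m - 1) := mul_nonneg (by linarith) (by linarith)
      have h0 : (0 : ℝ) ≤ 2 * (m - 2) * (m - 1) * x ^ 2 := by nlinarith [sq_nonneg x, mul_nonneg this (sq_nonneg x)]
      positivity
  have h0 : f 0 = 0 := by simp [hf]
  have h1 : f 0 ≤ f e := hmono ⟨le_refl _, he0⟩ ⟨he0, le_refl _⟩ he0
  rw [h0] at h1
  have p1 := hpos1 e he0 le_rfl
  have p2 := hpos2 e he0 le_rfl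
  have h2 : Real.log ((1 + 2 * e - (m - 2) * e ^ 2) ^ m) ≤ Real.log ((1 + m * e) ^ 2) := by
    rw [Real.log_pow, Real.log_pow]
    have : (0 : ℝ) ≤ 2 * Real.log (1 + m * e) - m * Real.log (1 + 2 * e - (m - 2) * e ^ 2) := h1
    push_cast
    linarith
  exact (Real.log_le_log_iff (by positivity) (by positivity)).1 h2

/-- `(m-3) 3^{-(m-1)} < 1`-type bounds. -/
theorem near_pow (m : ℕ) (hm : 4 ≤ m) : (m - 3 : ℝ) * (1 / 3) ^ (m - 1) ≤ 1 / 27 := by
  induction m, hm using Nat.le_induction with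
  | base => norm_num
  | succ k hk ih =>
    have hk' : (4 : ℝ) ≤ k := by exact_mod_cast hk
    have e1 : k + 1 - 1 = (k - 1) + 1 := by omega
    rw [e1, pow_succ]
    push_cast
    have hp : (0 : ℝ) < (1 / 3) ^ (k - 1) := by positivity
    nlinarith

/-- exponential decay for `m ≥ 10`. -/
theorem near_pow6 (m : ℕ) (hm : 10 ≤ m) : (m : ℝ) * (3 / 5) ^ (m - 2) ≤ 10 * (3 / 5) ^ 8 := by
  induction m, hm using Nat.le_induction with
  | base => norm_num
  | succ k hk ih =>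
    have hk' : (10 : ℝ) ≤ k := by exact_mod_cast hk
    have e1 : k + 1 - 2 = (k - 2) + 1 := by omega
    rw [e1, pow_succ]
    push_cast
    have hp : (0 : ℝ) < (3 / 5) ^ (k - 2) := by positivity
    nlinarith

theorem near_pow3 (m : ℕ) (hm : 10 ≤ m) : (m : ℝ) * (1 / 3) ^ (m - 2) ≤ 10 * (1 / 3) ^ 8 := by
  induction m, hm using Nat.le_induction with
  | base => norm_num
  | succ k hk ih =>
    have hk' : (10 : ℝ) ≤ k := by exact_mod_cast hk
    have e1 : k + 1 - 2 = (k - 2) + 1 := by omega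
    rw [e1, pow_succ]
    push_cast
    have hp : (0 : ℝ) < (1 / 3) ^ (k - 2) := by positivity
    nlinarith

/-- Monotonicity of `Qb` in `t`. -/
theorem Qb_mono (m : ℕ) (t t' r : ℝ) (ht : 0 ≤ t) (htt : t ≤ t') : Qb m t r ≤ Qb m t' r := by
  unfold Qb
  have : t ^ (m - 2) ≤ t' ^ (m - 2) := pow_le_pow_left₀ ht htt _
  have hm : (0 : ℝ) ≤ m := by positivity
  nlinarith [mul_le_mul_of_nonneg_left this hm]

theorem near_L2 (k Q0 c e mu : ℝ) (hmu2 : mu * (2 - e) = k * e) (he0 : 0 < e) (he : e < 1)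
    (h : (k - e * (2 - e)) * ((1 - e) / 2) * Q0 < (2 - e) ^ 2 + k * (1 - 2 * c)) :
    (mu - e ^ 2) * ((1 - e) / 2) * Q0 < 1 - (1 - e) ^ 2 + mu - 2 * (mu * c) := by
  have h2e : 0 < 2 - e := by linarith
  have h1 : (2 - e) * ((mu - e ^ 2) * ((1 - e) / 2) * Q0) =
      e * ((k - e * (2 - e)) * ((1 - e) / 2) * Q0) := by
    have : (2 - e) * ((mu - e ^ 2) * ((1 - e) / 2) * Q0) =
      (mu * (2 - e) - e ^ 2 * (2 - e)) * ((1 - e) / 2) * Q0 := by ring
    rw [this, hmu2]; ring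
  have h2 : (2 - e) * (1 - (1 - e) ^ 2 + mu - 2 * (mu * c)) =
      e * ((2 - e) ^ 2 + k * (1 - 2 * c)) := by
    have : (2 - e) * (1 - (1 - e) ^ 2 + mu - 2 * (mu * c)) =
      (2 - e) * (1 - (1 - e) ^ 2) + mu * (2 - e) * (1 - 2 * c) := by ring
    rw [this, hmu2]; ring
  have h3 := mul_lt_mul_of_pos_left h he0
  rw [← h1, ← h2] at h3
  exact lt_of_mul_lt_mul_left h3 h2e.le

theorem near_P (k Q0 d e : ℝ) (he0 : 0 ≤ e) (he1 : e ≤ 1) (hQ : 0 ≤ Q0)
    (h1 : 4 ≤ k * Q0 / 2) (h2 : k * Q0 / 2 < 4 + k * d) :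
    (k - e * (2 - e)) * ((1 - e) / 2) * Q0 < (2 - e) ^ 2 + k * d := by
  have h3 : 0 ≤ e * (2 - e) * ((1 - e) / 2) * Q0 := by
    have : 0 ≤ 2 - e := by linarith
    have : 0 ≤ (1 - e) / 2 := by linarith
    positivity
  have h4 : (k * Q0 / 2) * (1 - e) ≤ k * Q0 / 2 - 4 * e := by nlinarith
  have h5 : (k - e * (2 - e)) * ((1 - e) / 2) * Q0 =
    (k * Q0 / 2) * (1 - e) - e * (2 - e) * ((1 - e) / 2) * Q0 := by ring
  rw [h5]
  nlinarith [sq_nonneg e]

theorem near_Q10 (m : ℕ) (hm : 10 ≤ m) : Qb m (1 / 3) (3 / 5) ≤ 2 := by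
  unfold Qb
  have h1 := near_pow6 m hm
  have h2 := near_pow3 m hm
  have hm' : (10 : ℝ) ≤ m := by exact_mod_cast hm
  have h3 : 2 / ((1 - 3 / 5 : ℝ) ^ 2 * (m - 1)) ≤ 2 / ((1 - 3 / 5 : ℝ) ^ 2 * 9) := by
    apply div_le_div_of_nonneg_left (by norm_num) (by norm_num)
    have : (9 : ℝ) ≤ m - 1 := by linarith
    nlinarith
  have h4 : 27183 / 10000 * (m : ℝ) * (2 / 3 * (3 / 5) ^ (m - 2) + 5 / 6 * (1 / 3) ^ (m - 2)) =
      27183 / 10000 * (2 / 3 * ((m : ℝ) * (3 / 5) ^ (m - 2)) + 5 / 6 * ((m : ℝ) * (1 / 3) ^ (m - 2))) := by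
    ring
  rw [h4]
  have h5 : (2 / ((1 - 3 / 5 : ℝ) ^ 2 * 9)) + 27183 / 10000 * (2 / 3 * (10 * (3 / 5) ^ 8) + 5 / 6 * (10 * (1 / 3) ^ 8)) ≤ 2 := by
    norm_num
  nlinarith

theorem scalar_near : ∀ (m : ℕ), 4 ≤ m → ∀ a : ℝ, 0 < a → a < 1 →
    (1 - a) * (9 * m - 26) ≤ 2 → ScalarOK m a := by
  intro m hm a ha0 ha1 hnear
  obtain ⟨e, he⟩ : ∃ e : ℝ, e = 1 - a := ⟨_, rfl⟩
  have hae : a = 1 - e := by linarith
  rw [← he] at hnear
  have he0 : 0 < e := by linarith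
  have he1 : e < 1 := by linarith
  have hm' : (4 : ℝ) ≤ m := by exact_mod_cast hm
  have he5 : e ≤ 1 / 5 := by nlinarith
  -- mu
  set mu : ℝ := (m - 3) * e / (2 - e) with hmu
  have h2e : 0 < 2 - e := by linarith
  have hmu2 : mu * (2 - e) = (m - 3) * e := by rw [hmu]; field_simp
  have hmupos : 0 < mu := by rw [hmu]; apply div_pos (mul_pos (by linarith) he0) h2e
  have hmu9 : mu ≤ 1 / 9 := by
    rw [hmu, div_le_iff₀ h2e]; nlinarith
  set t : ℝ := Real.sqrt mu with ht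
  have ht2 : t ^ 2 = mu := Real.sq_sqrt hmupos.le
  have ht0 : 0 < t := Real.sqrt_pos.2 hmupos
  have ht3 : t ≤ 1 / 3 := by
    rw [ht]
    apply Real.sqrt_le_iff.2
    constructor
    · norm_num
    · norm_num; linarith
  have hK : (1 + (1 - a ^ 2) * (1 - t ^ 2)) ^ m ≤ (1 + m * (1 - a)) ^ 2 := by
    have e1 : 1 + (1 - a ^ 2) * (1 - t ^ 2) = 1 + 2 * e - (m - 2) * e ^ 2 := by
      rw [ht2, hae]
      have : (1 - (1 - e) ^ 2) * (1 - mu) = e * ((2 - e) - mu * (2 - e)) := by ring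
      rw [this, hmu2]
      ring
    rw [e1, ← he]
    apply near_K m (by omega) e he0.le
    nlinarith
  -- power bound
  have hpw : t ^ (m + 1) ≤ mu * (1 / 3) ^ (m - 1) := by
    have e1 : m + 1 = 2 + (m - 1) := by omega
    rw [e1, pow_add, ht2]
    exact mul_le_mul_of_nonneg_left (pow_le_pow_left₀ ht0.le ht3 _) hmupos.le
  have hmue : mu ≤ (m - 3) * e := by
    have : mu * 1 ≤ mu * (2 - e) := mul_le_mul_of_nonneg_left (by linarith) hmupos.le
    linarith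
  have hL1' : t ^ (m + 1) ≤ e / 27 := by
    have h1 := near_pow m hm
    have hp : (0 : ℝ) ≤ (1 / 3) ^ (m - 1) := by positivity
    have h2 : mu * (1 / 3) ^ (m - 1) ≤ (m - 3) * e * (1 / 3) ^ (m - 1) :=
      mul_le_mul_of_nonneg_right hmue hp
    nlinarith [mul_le_mul_of_nonneg_left h1 he0.le]
  have hL1 : t ^ (m + 1) < 1 - a := by rw [← he]; linarith
  have hE0 : 0 ≤ t ^ (m + 1) := by positivity
  have hD : 0 ≤ mu - e ^ 2 := by
    have h1 : e * 1 ≤ (m - 3) * e := by nlinarith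
    have h2 : e ^ 2 * (2 - e) ≤ mu * (2 - e) := by rw [hmu2]; nlinarith
    have := le_of_mul_le_mul_right h2 h2e
    linarith
  -- reduction of (L2)
  have hL2 : ∀ r Q0 : ℝ, Qb m (1 / 3) r ≤ Q0 →
      ((m - 3 : ℝ) - e * (2 - e)) * ((1 - e) / 2) * Q0 <
        (2 - e) ^ 2 + (m - 3) * (1 - 2 * (1 / 3) ^ (m - 1)) →
      (t ^ 2 - (1 - a) ^ 2) * (a / 2) * Qb m t r < 1 - a ^ 2 + t ^ 2 - 2 * t ^ (m + 1) := by
    intro r Q0 hQ h
    have h1 := near_L2 (m - 3) Q0 ((1 / 3) ^ (m - 1)) e mu hmu2 he0 he1 h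
    rw [ht2, ← he, hae]
    have h2 : Qb m t r ≤ Q0 := (Qb_mono m t (1 / 3) r ht0.le ht3).trans hQ
    have h3 : (mu - e ^ 2) * ((1 - e) / 2) * Qb m t r ≤ (mu - e ^ 2) * ((1 - e) / 2) * Q0 :=
      mul_le_mul_of_nonneg_left h2 (mul_nonneg hD (by linarith))
    linarith
  rcases Nat.lt_or_ge m 5 with h5 | h5
  · -- m = 4
    have hm4 : m = 4 := by omega
    subst hm4
    have hq4 : Qb 4 (1 / 3) (63 / 100) ≤ 8755 / 1000 := by unfold Qb; norm_num
    have hp4 := near_P (((4 : ℕ) : ℝ) - 3) (8755 / 1000) (1 - 2 * (1 / 3) ^ (4 - 1)) e he0.le he1.le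
      (by norm_num) (by norm_num) (by norm_num)
    refine ScalarOK.of_lin 4 (by norm_num) a t (63 / 100) ht0 (by linarith) hK (by norm_num)
      (by norm_num) ?_ ha0 hL1 (hL2 (63 / 100) (8755 / 1000) hq4 hp4)
    rw [ht2, hae]; nlinarith
  · have hm5 : (5 : ℝ) ≤ m := by exact_mod_cast h5
    have he19 : e ≤ 2 / 19 := by nlinarith
    have hr : (1 + t ^ 2) / 2 - a ^ 2 / 4 ≤ (3 / 5 : ℝ) ^ 2 := by
      rw [ht2, hae]; nlinarith
    have ho : ∀ Q0 : ℝ, Qb m (1 / 3) (3 / 5) ≤ Q0 →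
      ((m - 3 : ℝ) - e * (2 - e)) * ((1 - e) / 2) * Q0 <
        (2 - e) ^ 2 + (m - 3) * (1 - 2 * (1 / 3) ^ (m - 1)) → ScalarOK m a := by
      intro Q0 hQ h
      exact ScalarOK.of_lin m (by omega) a t (3 / 5) ht0 (by linarith) hK (by norm_num)
        (by norm_num) hr ha0 hL1 (hL2 (3 / 5) Q0 hQ h)
    rcases Nat.lt_or_ge m 10 with h10 | h10
    · interval_cases m
      · exact ho (551 / 100) (by unfold Qb; norm_num) (near_P _ (551 / 100) _ e he0.le he1.le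
          (by norm_num) (by norm_num) (by norm_num))
      · exact ho (41 / 10) (by unfold Qb; norm_num) (near_P _ (41 / 10) _ e he0.le he1.le
          (by norm_num) (by norm_num) (by norm_num))
      · exact ho (32 / 10) (by unfold Qb; norm_num) (near_P _ (32 / 10) _ e he0.le he1.le
          (by norm_num) (by norm_num) (by norm_num))
      · exact ho (25 / 10) (by unfold Qb; norm_num) (near_P _ (25 / 10) _ e he0.le he1.le
          (by norm_num) (by norm_num) (by norm_num))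
      · exact ho (21 / 10) (by unfold Qb; norm_num) (near_P _ (21 / 10) _ e he0.le he1.le
          (by norm_num) (by norm_num) (by norm_num))
    · refine ScalarOK.of_lin m (by omega) a t (3 / 5) ht0 (by linarith) hK (by norm_num)
        (by norm_num) hr ha0 hL1 ?_
      rw [ht2, ← he]
      have h2 : Qb m t (3 / 5) ≤ 2 := (Qb_mono m t (1 / 3) (3 / 5) ht0.le ht3).trans (near_Q10 m h10)
      have h3 : (mu - e ^ 2) * (a / 2) * Qb m t (3 / 5) ≤ (mu - e ^ 2) * (a / 2) * 2 :=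
        mul_le_mul_of_nonneg_left h2 (mul_nonneg hD (by linarith))
      have h4 : (mu - e ^ 2) * (a / 2) * 2 ≤ mu - e ^ 2 := by
        have : (mu - e ^ 2) * (a / 2) * 2 = (mu - e ^ 2) * a := by ring
        rw [this]
        exact mul_le_of_le_one_right hD ha1.le
      have h5 : 1 - a ^ 2 = 2 * e - e ^ 2 := by rw [hae]; ring
      linarith

end Pool.Agent.Work.F0bc87
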