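import Mathlib
import Pool.Agent.Work.MP_f0bc87_an.Part1
import Pool.Agent.Work.MP_f0bc87_an.Part2d
import Pool.Agent.Work.MP_f0bc87_an.Part2e
import Pool.Agent.Work.MP_f0bc87_an.ScalarNear
import Pool.Agent.Work.MP_f0bc87_an.ScalarLarge
import Pool.Agent.Work.MP_f0bc87_an.CaseEdge

/-!
Assembly, modulo the scalar statement in the middle range.
-/

set_option autoImplicit false

open Polynomial

namespace Pool.Agent.Work.F0bc87

theorem scalar_all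
    (hcert : ∀ (m : ℕ), 4 ≤ m → m ≤ 1000 → ∀ a : ℝ, 0 < a → a < 1 →
      2 ≤ (1 - a) * (9 * m - 26) → ScalarOK m a)
    (m : ℕ) (hm : 4 ≤ m) (a : ℝ) (ha0 : 0 < a) (ha1 : a < 1) : ScalarOK m a := by
  by_cases h : (1 - a) * (9 * m - 26) ≤ 2
  · exact scalar_near m hm a ha0 ha1 h
  · have h' : 2 ≤ (1 - a) * (9 * m - 26) := le_of_lt (not_le.mp h)
    by_cases h2 : m ≤ 1000
    · exact hcert m hm h2 a ha0 ha1 h'
    · exact scalar_large m (by omega) a ha0 ha1 h'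

theorem main_of_cert
    (hcert : ∀ (m : ℕ), 4 ≤ m → m ≤ 1000 → ∀ a : ℝ, 0 < a → a < 1 →
      2 ≤ (1 - a) * (9 * m - 26) → ScalarOK m a) :
    ∀ (m : ℕ), 1 ≤ m → ∀ (a : ℝ), 0 ≤ a → a ≤ 1 → ∀ z : Fin m → ℂ, (∀ j, ‖z j‖ ≤ 1) →
      ((a : ℂ) ∈ (derivative ((X - C (a : ℂ)) * ∏ j, (X - C (z j)))).roots) ∨
      (m : ℝ) ≤ (((derivative ((X - C (a : ℂ)) * ∏ j, (X - C (z j)))).roots).map
          (fun w : ℂ => (‖w - (a : ℂ)‖ ^ 2)⁻¹)).sum := by
  intro m hm a ha0 ha1 z hz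
  rcases eq_or_lt_of_le ha0 with h0 | h0
  · subst h0
    exact case_zero m hm z hz
  rcases eq_or_lt_of_le ha1 with h1 | h1
  · subst h1
    exact case_one m hm z hz
  by_contra hcon
  push Not at hcon
  obtain ⟨hroot, hsum⟩ := hcon
  obtain ⟨u, hS, hK, hR⟩ := part1 hm a h0 h1 z hz hroot hsum.le
  by_cases h3 : m ≤ 3
  · exact part2_small u hm h3 a h0 h1 hS hK
  · exact part2 u (by omega) a h0 h1 (scalar_all hcert m (by omega) a h0 h1) hS hK hR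

end Pool.Agent.Work.F0bc87
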