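import Mathlib
import Pool.Agent.Work.MP_f0bc87_an.Part1
import Pool.Agent.Work.MP_f0bc87_an.Part2d
import Pool.Agent.Work.MP_f0bc87_an.Part2e
import Pool.Agent.Work.MP_f0bc87_an.Final

/-!
The sharp form with the equality case.
-/

set_option autoImplicit false

open Finset Polynomial

namespace Pool.Agent.Work.F0bc87

variable {m : ℕ}

lemma sum_roots_eq (a : ℂ) (w : Fin m → ℂ) :
    (((univ : Finset (Fin m)).val.map w).map (fun w : ℂ => (‖w - a‖ ^ 2)⁻¹)).sum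
      = ∑ k, ‖(a - w k)⁻¹‖ ^ 2 := by
  rw [Multiset.map_map]
  change ∑ k, ((fun w : ℂ => (‖w - a‖ ^ 2)⁻¹) ∘ w) k = _
  apply Finset.sum_congr rfl
  intro k _
  simp only [Function.comp_apply]
  rw [norm_inv, norm_sub_rev, inv_pow]

lemma eval_derivative_prod_lin (y : Fin m → ℂ) (x : ℂ) (h : ∀ k, x - y k ≠ 0) :
    (derivative (∏ k, (X - C (y k)))).eval x
      = (∏ k, (x - y k)) * ∑ k, (x - y k)⁻¹ := by
  rw [derivative_prod_finset]
  simp only [eval_finsetSum, eval_prod, eval_sub, eval_X, eval_C, derivative_sub,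
    derivative_X, derivative_C, sub_zero, mul_one]
  rw [Finset.mul_sum]
  apply Finset.sum_congr rfl
  intro j _
  rw [← Finset.mul_prod_erase univ (fun i => x - y i) (Finset.mem_univ j)]
  field_simp [h j]

/-- The case `a = 0`, strict. -/
lemma zero_strict (hm : 1 ≤ m) (z : Fin m → ℂ) (hz : ∀ j, ‖z j‖ ≤ 1) (w : Fin m → ℂ)
    (hw : derivative (pp 0 z) = C ((m : ℂ) + 1) * ∏ k, (X - C (w k)))
    (hne : ∀ k, (0 : ℂ) - w k ≠ 0) (hsum : ∑ k, ‖((0 : ℂ) - w k)⁻¹‖ ^ 2 ≤ m) : False := by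
  have hmR : (1 : ℝ) ≤ m := by exact_mod_cast hm
  have hm1 : ‖(m : ℂ) + 1‖ = (m : ℝ) + 1 := by
    have : (m : ℂ) + 1 = ((m + 1 : ℕ) : ℂ) := by push_cast; ring
    rw [this, Complex.norm_natCast]
    push_cast; ring
  have h1 : ((m : ℂ) + 1) * ∏ k, ((0 : ℂ) - w k) = ∏ j, ((0 : ℂ) - z j) := by
    have e1 : (derivative (pp 0 z)).eval 0 = ((m : ℂ) + 1) * ∏ k, ((0 : ℂ) - w k) := by
      rw [hw]
      simp [eval_prod]
    rw [← e1, eval_deriv_pp, eval_qq]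
    simp
  have n1 : ((m : ℝ) + 1) * ∏ k, ‖(0 : ℂ) - w k‖ = ∏ j, ‖(0 : ℂ) - z j‖ := by
    have := congrArg norm h1
    rwa [norm_mul, hm1, norm_prod, norm_prod] at this
  have n2 : ∏ j, ‖(0 : ℂ) - z j‖ ≤ 1 := by
    apply Finset.prod_le_one (fun _ _ => norm_nonneg _)
    intro j _
    rw [zero_sub, norm_neg]
    exact hz j
  have hP : 0 < ∏ k, ‖(0 : ℂ) - w k‖ := Finset.prod_pos fun k _ => norm_pos_iff.mpr (hne k)
  have hlt : ∏ k, ‖(0 : ℂ) - w k‖ < 1 := by nlinarith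
  have h2 := prod_le_exp univ (fun k => ‖((0 : ℂ) - w k)⁻¹‖ ^ 2) (fun k _ => sq_nonneg _) 1 m
    one_pos (by rw [mul_one]; exact hsum)
  simp only [Finset.card_univ, Fintype.card_fin, sub_self, Real.exp_zero, mul_one, one_pow] at h2
  rw [Finset.prod_pow] at h2
  have e6 : ∏ k, ‖((0 : ℂ) - w k)⁻¹‖ = (∏ k, ‖(0 : ℂ) - w k‖)⁻¹ := by
    rw [← Finset.prod_inv_distrib]
    apply Finset.prod_congr rfl
    intro k _
    rw [norm_inv]
  rw [e6] at h2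
  have h3 : 1 < (∏ k, ‖(0 : ℂ) - w k‖)⁻¹ := (one_lt_inv₀ hP).mpr hlt
  nlinarith

/-- The case `a = 1`. -/
lemma one_case (hm : 1 ≤ m) (z : Fin m → ℂ) (hz : ∀ j, ‖z j‖ ≤ 1) (w : Fin m → ℂ)
    (hw : derivative (pp 1 z) = C ((m : ℂ) + 1) * ∏ k, (X - C (w k)))
    (hne : ∀ k, (1 : ℂ) - w k ≠ 0) (hsum : ∑ k, ‖((1 : ℂ) - w k)⁻¹‖ ^ 2 ≤ m) :
    (∀ k, w k = 0) ∧ pp 1 z = X ^ (m + 1) - 1 := by
  have hmR : (1 : ℝ) ≤ m := by exact_mod_cast hm
  have hm0 : (m : ℂ) + 1 ≠ 0 := by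
    have : ((m + 1 : ℕ) : ℂ) ≠ 0 := by exact_mod_cast Nat.succ_ne_zero m
    push_cast at this
    exact this
  -- values at 1
  have h1 : ((m : ℂ) + 1) * ∏ k, ((1 : ℂ) - w k) = ∏ j, ((1 : ℂ) - z j) := by
    have e1 : (derivative (pp 1 z)).eval 1 = ((m : ℂ) + 1) * ∏ k, ((1 : ℂ) - w k) := by
      rw [hw]
      simp [eval_prod]
    rw [← e1, eval_deriv_pp, eval_qq]
    simp
  have hP : ∏ k, ((1 : ℂ) - w k) ≠ 0 := Finset.prod_ne_zero_iff.mpr fun k _ => hne k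
  have hQ : ∏ j, ((1 : ℂ) - z j) ≠ 0 := by
    rw [← h1]
    exact mul_ne_zero hm0 hP
  have hzne : ∀ j, (1 : ℂ) - z j ≠ 0 := fun j => Finset.prod_ne_zero_iff.mp hQ j (Finset.mem_univ j)
  have h2 : ∑ k, ((1 : ℂ) - w k)⁻¹ = 2 * ∑ j, ((1 : ℂ) - z j)⁻¹ := by
    have e1 : (derivative (derivative (pp 1 z))).eval 1
        = ((m : ℂ) + 1) * ((∏ k, ((1 : ℂ) - w k)) * ∑ k, ((1 : ℂ) - w k)⁻¹) := by
      rw [hw, derivative_C_mul, eval_mul, eval_C, eval_derivative_prod_lin w 1 hne]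
    have e2 : (derivative (derivative (pp 1 z))).eval 1
        = 2 * ((∏ j, ((1 : ℂ) - z j)) * ∑ j, ((1 : ℂ) - z j)⁻¹) := by
      rw [← eval_derivative_prod_lin z 1 hzne]
      unfold pp
      simp only [derivative_mul, derivative_add, derivative_sub, derivative_X, derivative_C,
        sub_zero, one_mul, eval_add, eval_mul, eval_sub, eval_X, eval_C, sub_self, zero_mul,
        add_zero]
      ring
    have e3 : (∏ j, ((1 : ℂ) - z j)) * ∑ k, ((1 : ℂ) - w k)⁻¹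
        = (∏ j, ((1 : ℂ) - z j)) * (2 * ∑ j, ((1 : ℂ) - z j)⁻¹) := by
      rw [← h1]
      have := e1.symm.trans e2
      rw [← h1] at this
      linear_combination this
    exact mul_left_cancel₀ hQ e3
  have h3 : (m : ℝ) ≤ ∑ k, (((1 : ℂ) - w k)⁻¹).re := by
    rw [← Complex.re_sum, h2]
    have e4 : (2 * ∑ j, ((1 : ℂ) - z j)⁻¹).re = ∑ j, 2 * (((1 : ℂ) - z j)⁻¹).re := by
      rw [← Finset.mul_sum, ← Complex.re_sum]
      simp
    rw [e4]
    have e5 : ∑ _j : Fin m, (1 : ℝ) ≤ ∑ j, 2 * (((1 : ℂ) - z j)⁻¹).re := by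
      apply Finset.sum_le_sum
      intro j _
      have := half_le_re (hz j) (by
        intro h
        apply hzne j
        rw [h, sub_self])
      rw [one_div (1 - z j)] at this
      linarith
    simpa using e5
  have h4 : ∑ k, ‖((1 : ℂ) - w k)⁻¹ - 1‖ ^ 2 ≤ 0 := by
    have e6 : ∀ k ∈ (univ : Finset (Fin m)), ‖((1 : ℂ) - w k)⁻¹ - 1‖ ^ 2
        = ‖((1 : ℂ) - w k)⁻¹‖ ^ 2 - 2 * (((1 : ℂ) - w k)⁻¹).re + 1 := by
      intro k _
      obtain ⟨v, hv⟩ : ∃ v : ℂ, v = ((1 : ℂ) - w k)⁻¹ := ⟨_, rfl⟩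
      rw [← hv, norm_sq_re_im, norm_sq_re_im]
      simp
      ring
    rw [Finset.sum_congr rfl e6, Finset.sum_add_distrib, Finset.sum_sub_distrib, ← Finset.mul_sum]
    simp only [Finset.sum_const, Finset.card_univ, Fintype.card_fin, nsmul_eq_mul, mul_one]
    linarith
  have h5 : ∀ k, w k = 0 := by
    intro k
    have e7 := (Finset.sum_eq_zero_iff_of_nonneg (s := (univ : Finset (Fin m)))
      (f := fun k => ‖((1 : ℂ) - w k)⁻¹ - 1‖ ^ 2) (fun k _ => sq_nonneg _)).mp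
      (le_antisymm h4 (Finset.sum_nonneg fun k _ => sq_nonneg _)) k (Finset.mem_univ k)
    have e8 : ((1 : ℂ) - w k)⁻¹ - 1 = 0 := by
      rw [← norm_eq_zero]
      exact pow_eq_zero_iff (two_ne_zero) |>.mp e7
    have e9 : ((1 : ℂ) - w k)⁻¹ = 1 := by linear_combination e8
    have e10 : (1 : ℂ) - w k = 1 := inv_eq_one.mp e9
    linear_combination -e10
  refine ⟨h5, ?_⟩
  have hd : derivative (pp 1 z) = derivative (X ^ (m + 1) - 1) := by
    rw [hw]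
    simp [h5]
  have hd2 : derivative (pp 1 z - (X ^ (m + 1) - 1)) = 0 := by
    rw [derivative_sub, hd, sub_self]
  obtain ⟨c, hc⟩ : ∃ c : ℂ, pp 1 z - (X ^ (m + 1) - 1) = C c :=
    ⟨_, eq_C_of_derivative_eq_zero hd2⟩
  have h6 : c = 0 := by
    have e11 := congrArg (fun q => eval (1 : ℂ) q) hc
    simp only [eval_C, eval_sub, eval_pow, eval_X, eval_one, one_pow, sub_self, sub_zero] at e11
    rw [← e11]
    simp [pp]
  rw [h6, map_zero] at hc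
  exact sub_eq_zero.mp hc

/-- Sharp form. -/
theorem sharp_of_cert
    (hcert : ∀ (m : ℕ), 4 ≤ m → m ≤ 1000 → ∀ a : ℝ, 0 < a → a < 1 →
      2 ≤ (1 - a) * (9 * m - 26) → ScalarOK m a) :
    ∀ (m : ℕ), 1 ≤ m → ∀ (a : ℝ), 0 ≤ a → a ≤ 1 → ∀ z : Fin m → ℂ, (∀ j, ‖z j‖ ≤ 1) →
      ((a : ℂ) ∈ (derivative ((X - C (a : ℂ)) * ∏ j, (X - C (z j)))).roots) ∨
      (m : ℝ) < (((derivative ((X - C (a : ℂ)) * ∏ j, (X - C (z j)))).roots).map
          (fun w : ℂ => (‖w - (a : ℂ)‖ ^ 2)⁻¹)).sum ∨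
      (a = 1 ∧ (X - C (a : ℂ)) * ∏ j, (X - C (z j)) = X ^ (m + 1) - 1 ∧
        (((derivative ((X - C (a : ℂ)) * ∏ j, (X - C (z j)))).roots).map
          (fun w : ℂ => (‖w - (a : ℂ)‖ ^ 2)⁻¹)).sum = m) := by
  intro m hm a ha0 ha1 z hz
  by_cases hroot : (a : ℂ) ∈ (derivative ((X - C (a : ℂ)) * ∏ j, (X - C (z j)))).roots
  · exact Or.inl hroot
  right
  by_cases hlt : (m : ℝ) < (((derivative ((X - C (a : ℂ)) * ∏ j, (X - C (z j)))).roots).map
          (fun w : ℂ => (‖w - (a : ℂ)‖ ^ 2)⁻¹)).sum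
  · exact Or.inl hlt
  right
  have hsum := not_lt.mp hlt
  obtain ⟨w, hw1, hw2⟩ := exists_w (a : ℂ) z
  have hwne : ∀ k, (a : ℂ) - w k ≠ 0 := by
    intro k h
    apply hroot
    unfold pp at hw1
    rw [hw1, Multiset.mem_map]
    exact ⟨k, Finset.mem_univ_val k, by linear_combination -h⟩
  have hsum' : ∑ k, ‖((a : ℂ) - w k)⁻¹‖ ^ 2 ≤ m := by
    unfold pp at hw1
    rw [hw1, sum_roots_eq] at hsum
    exact hsum
  rcases eq_or_lt_of_le ha0 with h0 | h0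
  · subst h0
    exfalso
    simp only [Complex.ofReal_zero] at hw2 hwne hsum'
    exact zero_strict hm z hz w hw2 hwne hsum'
  rcases eq_or_lt_of_le ha1 with h1 | h1
  · subst h1
    simp only [Complex.ofReal_one] at hw2 hwne hsum' hw1 ⊢
    obtain ⟨h5, h6⟩ := one_case hm z hz w hw2 hwne hsum'
    refine ⟨trivial, h6, ?_⟩
    unfold pp at hw1
    rw [hw1, sum_roots_eq]
    simp [h5]
  · exfalso
    obtain ⟨u, hS, hK, hR⟩ := part1 hm a h0 h1 z hz hroot hsum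
    by_cases h3 : m ≤ 3
    · exact part2_small u hm h3 a h0 h1 hS hK
    · exact part2 u (by omega) a h0 h1 (scalar_all hcert m (by omega) a h0 h1) hS hK hR

end Pool.Agent.Work.F0bc87
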