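import Mathlib

/-!
Elementary inequalities used in the large-degree theorem for MP_f0bc87_an.
-/

set_option autoImplicit false

namespace Pool.Agent.MPf0bc87

open Finset

/-- AM-GM in the form: a product is at most `θ ^ card` as soon as the sum is at most `card * θ`. -/
lemma prod_le_pow {ι : Type*} (s : Finset ι) (y : ι → ℝ) (hy : ∀ i ∈ s, 0 ≤ y i)
    (θ : ℝ) (hθ : 0 < θ) (hs : ∑ i ∈ s, y i ≤ (s.card : ℝ) * θ) :
    ∏ i ∈ s, y i ≤ θ ^ s.card := by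
  have h1 : ∏ i ∈ s, y i ≤ ∏ i ∈ s, (θ * Real.exp ((y i - θ) / θ)) := by
    apply Finset.prod_le_prod hy
    intro i hi
    have h2 := Real.add_one_le_exp ((y i - θ) / θ)
    have h3 : y i = θ * ((y i - θ) / θ + 1) := by field_simp; ring
    calc y i = θ * ((y i - θ) / θ + 1) := h3
      _ ≤ _ := by gcongr
  refine h1.trans ?_
  rw [Finset.prod_mul_distrib, Finset.prod_const, ← Real.exp_sum, ← Finset.sum_div,
    Finset.sum_sub_distrib, Finset.sum_const, nsmul_eq_mul]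
  have h4 : (∑ i ∈ s, y i - (s.card : ℝ) * θ) / θ ≤ 0 := by
    apply div_nonpos_of_nonpos_of_nonneg _ hθ.le
    linarith
  have h5 : Real.exp ((∑ i ∈ s, y i - (s.card : ℝ) * θ) / θ) ≤ 1 := Real.exp_le_one_iff.mpr h4
  calc θ ^ s.card * Real.exp ((∑ i ∈ s, y i - (s.card : ℝ) * θ) / θ) ≤ θ ^ s.card * 1 := by
        gcongr
    _ = θ ^ s.card := mul_one _

/-- `(y-1)^2/y ≤ 5 (y - 1 - log y)` for `y ≥ 1/4`. -/
lemma phi_ineq (y : ℝ) (hy : 1 / 4 ≤ y) : (y - 1) ^ 2 / y ≤ 5 * (y - 1 - Real.log y) := by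
  have hy0 : 0 < y := by linarith
  rcases le_total y 1 with h | h
  · -- y ≤ 1
    have hx : 0 ≤ 1 / y - 1 := by
      rw [sub_nonneg, le_div_iff₀ hy0]; linarith
    have h1 := Real.le_log_one_add_of_nonneg hx
    have h2 : Real.log (1 + (1 / y - 1)) = - Real.log y := by
      rw [show (1 : ℝ) + (1 / y - 1) = y⁻¹ by field_simp; ring, Real.log_inv]
    have h3 : 2 * (1 / y - 1) / (1 / y - 1 + 2) = 2 * (1 - y) / (1 + y) := by
      field_simp; ring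
    rw [h2, h3] at h1
    have h4 : (y - 1) ^ 2 / y ≤ 5 * (y - 1 + 2 * (1 - y) / (1 + y)) := by
      have h5 : 5 * (y - 1 + 2 * (1 - y) / (1 + y)) - (y - 1) ^ 2 / y
          = (1 - y) ^ 2 * (4 * y - 1) / (y * (1 + y)) := by
        field_simp; ring
      have h6 : 0 ≤ (1 - y) ^ 2 * (4 * y - 1) / (y * (1 + y)) := by
        apply div_nonneg
        · apply mul_nonneg (sq_nonneg _); linarith
        · positivity
      linarith
    linarith
  · -- 1 ≤ y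
    set r := Real.sqrt y with hr
    have hr1 : 1 ≤ r := by rw [hr]; exact Real.one_le_sqrt.mpr h
    have hr0 : 0 < r := by linarith
    have hry : r ^ 2 = y := Real.sq_sqrt hy0.le
    have h1 : Real.log y = 2 * Real.log r := by
      rw [← hry, Real.log_pow]; norm_num
    have h2 := Real.log_le_sub_one_of_pos hr0
    have h3 : (r ^ 2 - 1) ^ 2 / r ^ 2 ≤ 5 * (r ^ 2 - 1 - 2 * (r - 1)) := by
      rw [div_le_iff₀ (by positivity)]
      have h4 : (r ^ 2 - 1) ^ 2 = (r - 1) ^ 2 * (r + 1) ^ 2 := by ring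
      have h5 : 5 * (r ^ 2 - 1 - 2 * (r - 1)) * r ^ 2 = (r - 1) ^ 2 * (5 * r ^ 2) := by ring
      rw [h4, h5]
      apply mul_le_mul_of_nonneg_left _ (sq_nonneg _)
      nlinarith
    rw [h1, ← hry]
    linarith

/-- `‖1 - x‖ ≤ exp(-Re x + ‖x‖²/2)`. -/
lemma norm_one_sub_le (x : ℂ) : ‖1 - x‖ ≤ Real.exp (-x.re + ‖x‖ ^ 2 / 2) := by
  have h1 : ‖1 - x‖ ^ 2 = 1 - 2 * x.re + ‖x‖ ^ 2 := by
    rw [← Complex.normSq_eq_norm_sq, ← Complex.normSq_eq_norm_sq, Complex.normSq_apply,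
      Complex.normSq_apply]
    simp
    ring
  have h2 : ‖1 - x‖ ^ 2 ≤ (Real.exp (-x.re + ‖x‖ ^ 2 / 2)) ^ 2 := by
    rw [h1, ← Real.exp_nat_mul]
    have h3 := Real.add_one_le_exp (-2 * x.re + ‖x‖ ^ 2)
    have h4 : ((2 : ℕ) : ℝ) * (-x.re + ‖x‖ ^ 2 / 2) = -2 * x.re + ‖x‖ ^ 2 := by
      push_cast; ring
    rw [h4]
    linarith
  exact le_of_sq_le_sq h2 (Real.exp_pos _).le

lemma norm_prod_one_sub_le {ι : Type*} (s : Finset ι) (x : ι → ℂ) :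
    ‖∏ i ∈ s, (1 - x i)‖ ≤ Real.exp (-(∑ i ∈ s, x i).re + (∑ i ∈ s, ‖x i‖ ^ 2) / 2) := by
  rw [norm_prod]
  calc ∏ i ∈ s, ‖1 - x i‖ ≤ ∏ i ∈ s, Real.exp (-(x i).re + ‖x i‖ ^ 2 / 2) := by
        apply Finset.prod_le_prod (fun i _ => norm_nonneg _)
        intro i _
        exact norm_one_sub_le _
    _ = _ := by
        rw [← Real.exp_sum, Finset.sum_add_distrib, Finset.sum_neg_distrib, Complex.re_sum,
          Finset.sum_div]

/-- Cauchy-Schwarz for a sum of complex numbers. -/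
lemma norm_sum_sq_le {ι : Type*} (s : Finset ι) (x : ι → ℂ) :
    ‖∑ i ∈ s, x i‖ ^ 2 ≤ (s.card : ℝ) * ∑ i ∈ s, ‖x i‖ ^ 2 := by
  have h1 : ‖∑ i ∈ s, x i‖ ≤ ∑ i ∈ s, ‖x i‖ := norm_sum_le _ _
  have h2 : (∑ i ∈ s, ‖x i‖) ^ 2 ≤ (s.card : ℝ) * ∑ i ∈ s, ‖x i‖ ^ 2 :=
    sq_sum_le_card_mul_sum_sq
  exact (pow_le_pow_left₀ (norm_nonneg _) h1 2).trans h2

/-- integrating `A t e^{-κ t}`: the primitive. -/
lemma hasDerivAt_prim (A κ t : ℝ) (hκ : κ ≠ 0) :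
    HasDerivAt (fun t : ℝ => A / κ ^ 2 * (1 - (1 + κ * t) * Real.exp (-κ * t)))
      (A * t * Real.exp (-κ * t)) t := by
  have h1 : HasDerivAt (fun t : ℝ => -κ * t) (-κ) t := by
    simpa using (hasDerivAt_id t).const_mul (-κ)
  have h2 : HasDerivAt (fun t : ℝ => Real.exp (-κ * t)) (Real.exp (-κ * t) * (-κ)) t := h1.exp
  have h3 : HasDerivAt (fun t : ℝ => 1 + κ * t) κ t := by
    simpa using ((hasDerivAt_id t).const_mul κ).const_add 1
  have h4 := ((h3.mul h2).const_sub 1).const_mul (A / κ ^ 2)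
  refine h4.congr_deriv ?_
  field_simp
  ring

/-- If `‖f'(t)‖ ≤ A t e^{-κ t}` on `[0,T]` then `‖f T - f 0‖ ≤ A/κ²`. -/
lemma norm_sub_le_of_deriv_le (f f' : ℝ → ℂ) (A κ T : ℝ) (hκ : 0 < κ) (hA : 0 ≤ A) (hT : 0 ≤ T)
    (hf : ∀ t ∈ Set.Icc 0 T, HasDerivAt f (f' t) t)
    (hb : ∀ t ∈ Set.Ico 0 T, ‖f' t‖ ≤ A * t * Real.exp (-κ * t)) :
    ‖f T - f 0‖ ≤ A / κ ^ 2 := by
  have key := image_norm_le_of_norm_deriv_right_le_deriv_boundary
    (f := fun t => f t - f 0) (f' := f') (a := 0) (b := T)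
    (B := fun t : ℝ => A / κ ^ 2 * (1 - (1 + κ * t) * Real.exp (-κ * t)))
    (B' := fun t => A * t * Real.exp (-κ * t))
    (fun t ht => ((hf t ht).continuousAt.sub continuousAt_const).continuousWithinAt)
    (fun t ht => ((hf t ⟨ht.1, ht.2.le⟩).sub_const _).hasDerivWithinAt)
    (by simp) (fun t => hasDerivAt_prim A κ t hκ.ne') (fun t ht => hb t ht)
  have h1 := key (x := T) ⟨hT, le_refl _⟩
  refine h1.trans ?_
  have h2 : (1 - (1 + κ * T) * Real.exp (-κ * T)) ≤ 1 := by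
    have : 0 ≤ (1 + κ * T) * Real.exp (-κ * T) := by positivity
    linarith
  calc A / κ ^ 2 * (1 - (1 + κ * T) * Real.exp (-κ * T)) ≤ A / κ ^ 2 * 1 := by gcongr
    _ = A / κ ^ 2 := mul_one _

/-- `√(c) ` type inequality: if `E² ≤ 10 m Λ` then `t E ≤ m Λ'...`; scalar version. -/
lemma lin_le_of_sq_le (t E Λ : ℝ) (hE : E ^ 2 ≤ 10 * Λ) : t * E ≤ Λ + 5 / 2 * t ^ 2 := by
  nlinarith [sq_nonneg (E - 5 * t)]

end Pool.Agent.MPf0bc87
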