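import Pool.Agent.Work.MP_f0bc87_an.Flat

/-!
Case A: `N |b|² < 25`.
-/

set_option autoImplicit false

namespace Pool.Agent.MPf0bc87

open Finset

open scoped ComplexConjugate

/-- lower bounds for `exp` -/
lemma exp_lb (x : ℝ) (hx : 0 ≤ x) : 1 + x + x ^ 2 / 2 + x ^ 3 / 6 ≤ Real.exp x := by
  have h := Real.sum_le_exp_of_nonneg hx 4
  simp [Finset.sum_range_succ, Nat.factorial] at h
  linarith

lemma exp_neg_ub (x : ℝ) (hx : 0 ≤ x) : Real.exp (-x) ≤ (1 + x + x ^ 2 / 2 + x ^ 3 / 6)⁻¹ := by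
  rw [Real.exp_neg]
  exact inv_anti₀ (by positivity) (exp_lb x hx)

lemma aux_XY (X Y : ℝ) (hY : 5 ≤ Y) (hYX : Y ≤ X) : X ≤ Y * ((X ^ 2 - Y ^ 2) / 2 + 1) := by
  have h1 : 0 ≤ X - Y := by linarith
  have h2 : (X ^ 2 - Y ^ 2) / 2 = (X - Y) * ((X + Y) / 2) := by ring
  have h3 : (X - Y) * 1 ≤ (X - Y) * ((X + Y) / 2) := mul_le_mul_of_nonneg_left (by linarith) h1
  have h4 : Y * (X - Y + 1) ≤ Y * ((X ^ 2 - Y ^ 2) / 2 + 1) := by
    apply mul_le_mul_of_nonneg_left _ (by linarith)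
    rw [h2]; linarith
  have h5 : X ≤ Y * (X - Y + 1) := by nlinarith
  linarith

section

variable {N : ℕ} {a : ℝ} {w : Fin N → ℂ} {p : ℂ → ℂ}

namespace Cfg

/-- bound for `p'` on the segment `[0,b]`. -/
lemma deriv_seg_le (h : Cfg N a w p) (σ : ℝ) (hσ0 : 0 ≤ σ) (hσ1 : σ ≤ 1) :
    ‖((N : ℂ) + 1) * ∏ k, ((σ : ℂ) * bb a w - w k)‖ ≤
      ‖DD a w‖ * Real.exp (-(N * (‖CC a w‖ ^ 2 - ‖bb a w‖ ^ 2)) / 2) *
        Real.exp (-(N * ‖bb a w‖ ^ 2 / 2) * σ) := by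
  have h1 := h.deriv_eq ((a : ℂ) - σ * bb a w)
  rw [sub_sub_cancel] at h1
  rw [h1, norm_mul, mul_assoc, ← Real.exp_add]
  apply mul_le_mul_of_nonneg_left _ (norm_nonneg _)
  refine (h.prod_all_le _).trans ?_
  apply Real.exp_le_exp.mpr
  set C := CC a w with hC
  set b := bb a w with hb
  have e1 : ‖(a : ℂ) - σ * b‖ ^ 2 - 2 * (((a : ℂ) - σ * b) * C).re
      = (1 - σ) ^ 2 * ‖b‖ ^ 2 - ‖C‖ ^ 2 := by
    have hb' : b = (a : ℂ) - conj C := rfl
    have h3 : ∀ z : ℂ, ‖z‖ ^ 2 = z.re * z.re + z.im * z.im := by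
      intro z; rw [← Complex.normSq_eq_norm_sq, Complex.normSq_apply]
    rw [h3, h3, h3, hb']
    simp
    ring
  have e2 : (1 - σ) ^ 2 * ‖b‖ ^ 2 ≤ (1 - σ) * ‖b‖ ^ 2 := by
    apply mul_le_mul_of_nonneg_right _ (sq_nonneg _)
    nlinarith
  have hN := h.Npos
  have e3 : -(N * (((a : ℂ) - σ * b) * C).re) + N * ‖(a : ℂ) - σ * b‖ ^ 2 / 2
      = N / 2 * ((1 - σ) ^ 2 * ‖b‖ ^ 2 - ‖C‖ ^ 2) := by
    rw [← e1]; ring
  rw [e3]
  have e4 : N / 2 * ((1 - σ) ^ 2 * ‖b‖ ^ 2 - ‖C‖ ^ 2) ≤ N / 2 * ((1 - σ) * ‖b‖ ^ 2 - ‖C‖ ^ 2) := by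
    apply mul_le_mul_of_nonneg_left _ (by positivity)
    linarith
  refine e4.trans (le_of_eq ?_)
  ring

lemma caseA (h : Cfg N a w p) : (N : ℝ) * ‖bb a w‖ ^ 2 < 25 := by
  by_contra hcon
  push Not at hcon
  have hN := h.Npos
  have hNbig := h.hN
  set s := Real.sqrt N with hs
  have hs2 : s ^ 2 = N := Real.sq_sqrt hN.le
  have hs0 : 0 < s := Real.sqrt_pos.mpr hN
  set C := CC a w with hC
  set b := bb a w with hb
  set D := DD a w with hD
  set Λ := Lam a w with hΛ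
  have hDne : D ≠ 0 := h.DD_ne
  have hD0 : 0 < ‖D‖ := norm_pos_iff.mpr hDne
  have hDn : ‖D‖ = ((N : ℝ) + 1) * Real.exp Λ := h.norm_DD
  set X := s * ‖C‖ with hX
  set Y := s * ‖b‖ with hY
  have hX2 : X ^ 2 = N * ‖C‖ ^ 2 := by rw [hX, mul_pow, hs2]
  have hY2 : Y ^ 2 = N * ‖b‖ ^ 2 := by rw [hY, mul_pow, hs2]
  have hX0 : 0 ≤ X := by positivity
  have hY0 : 0 ≤ Y := by positivity
  have hY5 : 5 ≤ Y := by nlinarith
  have hbC : ‖b‖ ^ 2 ≤ ‖C‖ ^ 2 := h.norm_bb_le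
  have hYX : Y ≤ X := by
    have : Y ^ 2 ≤ X ^ 2 := by rw [hX2, hY2]; exact mul_le_mul_of_nonneg_left hbC hN.le
    nlinarith
  have hX5 : 5 ≤ X := hY5.trans hYX
  have hC1 : ‖C‖ ≤ 1 := h.norm_CC_le
  have hCpos : 0 < ‖C‖ := by
    by_contra hc
    push Not at hc
    have : ‖C‖ = 0 := le_antisymm hc (norm_nonneg _)
    rw [hX, this] at hX5
    linarith
  have hb1 : ‖b‖ ≤ 1 := by nlinarith [norm_nonneg b, norm_nonneg C]
  -- flatness at b
  have hκ0 : 15/2 ≤ X ^ 2 / 2 - X := by nlinarith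
  have h1 : ‖(N : ℂ) * C * p b / D + 1‖ ≤ 12/25 := by
    have hf := h.flat (conj C) (X ^ 2 / 2 - X) (by linarith) (by
      have e1 : (conj C * C).re = ‖C‖ ^ 2 := by
        rw [mul_comm, Complex.mul_conj, Complex.normSq_eq_norm_sq, Complex.ofReal_re]
      have e2 : ‖conj C‖ = ‖C‖ := Complex.norm_conj C
      rw [← hC, e1, e2, ← hs, hX2]
      apply le_of_eq
      rw [hX]; ring)
    have e2 : ‖conj C‖ = ‖C‖ := Complex.norm_conj C
    rw [e2] at hf
    have e3 : (a : ℂ) - conj C = b := rfl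
    rw [e3] at hf
    refine hf.trans ?_
    have e4 : N * ‖C‖ ^ 2 / (X ^ 2 / 2 - X) ^ 2 ≤ 4 / 9 := by
      rw [← hX2, div_le_div_iff₀ (by positivity) (by norm_num)]
      have : X ^ 2 / 2 - X = X * (X / 2 - 1) := by ring
      rw [this, mul_pow]
      have h2 : (3 / 2 : ℝ) ^ 2 ≤ (X / 2 - 1) ^ 2 := by
        apply pow_le_pow_left₀ (by norm_num); linarith
      nlinarith [sq_nonneg X]
    have e5 : Real.exp (-(X ^ 2 / 2 - X)) ≤ 3/100 := by
      calc Real.exp (-(X ^ 2 / 2 - X)) ≤ Real.exp (-(15/2)) := Real.exp_le_exp.mpr (by linarith)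
        _ ≤ _ := exp_neg_ub (15/2) (by norm_num)
        _ ≤ 3/100 := by norm_num
    linarith
  -- segment
  set ρ := 5 / Y ^ 2 with hρ
  have hY25 : 25 ≤ Y ^ 2 := by rw [hY2]; exact hcon
  have hY2pos : 0 < Y ^ 2 := by linarith
  have hρ0 : 0 < ρ := by positivity
  have hρ1 : ρ ≤ 1 / 5 := by
    rw [hρ, div_le_div_iff₀ hY2pos (by norm_num)]; linarith
  set K := ‖b‖ * (‖D‖ * Real.exp (-(N * (‖C‖ ^ 2 - ‖b‖ ^ 2)) / 2)) with hK
  have hK0 : 0 ≤ K := by positivity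
  have hseg : ‖p b - p (ρ * b)‖ ≤ K * (2 / Y ^ 2) * Real.exp (-(5/2)) := by
    have hd : ∀ σ : ℝ, HasDerivAt (fun σ : ℝ => p ((σ : ℂ) * b))
        ((((N : ℂ) + 1) * ∏ k, ((σ : ℂ) * b - w k)) * b) σ := by
      intro σ
      have h3 := h.hp ((σ : ℂ) * b)
      have h4 : HasDerivAt (fun τ : ℝ => (τ : ℂ)) 1 σ := Complex.ofRealCLM.hasDerivAt
      have h5 := h4.mul_const b
      have h6 := h3.comp σ h5
      refine h6.congr_deriv ?_
      ring
    have key := image_norm_le_of_norm_deriv_right_le_deriv_boundary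
      (f := fun σ : ℝ => p ((σ : ℂ) * b) - p ((ρ : ℂ) * b))
      (f' := fun σ : ℝ => (((N : ℂ) + 1) * ∏ k, ((σ : ℂ) * b - w k)) * b) (a := ρ) (b := 1)
      (B := fun σ : ℝ => K * (2 / Y ^ 2) * (Real.exp (-(Y ^ 2 / 2) * ρ)
        - Real.exp (-(Y ^ 2 / 2) * σ)))
      (B' := fun σ => K * Real.exp (-(Y ^ 2 / 2) * σ))
      (fun t ht => ((hd t).continuousAt.sub continuousAt_const).continuousWithinAt)
      (fun t ht => ((hd t).sub_const _).hasDerivWithinAt)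
      (by simp) ?_ ?_
    · have h7 := key (x := 1) ⟨by linarith, le_refl _⟩
      simp only [Complex.ofReal_one, one_mul] at h7
      refine h7.trans ?_
      have h8 : (-(Y ^ 2 / 2) * ρ) = -(5/2) := by rw [hρ]; field_simp
      rw [h8]
      apply mul_le_mul_of_nonneg_left _ (by positivity)
      have := Real.exp_pos (-(Y ^ 2 / 2) * 1)
      linarith
    · intro σ
      have h9 : HasDerivAt (fun σ : ℝ => -(Y ^ 2 / 2) * σ) (-(Y ^ 2 / 2)) σ := by
        simpa using (hasDerivAt_id σ).const_mul (-(Y ^ 2 / 2))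
      have h10 := ((h9.exp.const_sub (Real.exp (-(Y ^ 2 / 2) * ρ))).const_mul (K * (2 / Y ^ 2)))
      refine h10.congr_deriv ?_
      field_simp
    · intro σ hσ
      have h11 := h.deriv_seg_le σ (hρ0.le.trans hσ.1) hσ.2.le
      rw [norm_mul]
      have h12 : (-(Y ^ 2 / 2) * σ) = -(N * ‖b‖ ^ 2 / 2) * σ := by rw [hY2]
      rw [h12]
      calc ‖((N : ℂ) + 1) * ∏ k, ((σ : ℂ) * b - w k)‖ * ‖b‖
          ≤ (‖D‖ * Real.exp (-(N * (‖C‖ ^ 2 - ‖b‖ ^ 2)) / 2) *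
            Real.exp (-(N * ‖b‖ ^ 2 / 2) * σ)) * ‖b‖ :=
            mul_le_mul_of_nonneg_right h11 (norm_nonneg _)
        _ = _ := by rw [hK]; ring
  have hseg2 : ‖(N : ℂ) * C * p b / D - (N : ℂ) * C * p (ρ * b) / D‖ ≤ 11/50 := by
    have e1 : (N : ℂ) * C * p b / D - (N : ℂ) * C * p (ρ * b) / D
        = (N : ℂ) * C / D * (p b - p (ρ * b)) := by ring
    rw [e1, norm_mul, norm_div, norm_mul, Complex.norm_natCast]
    calc (N : ℝ) * ‖C‖ / ‖D‖ * ‖p b - p (ρ * b)‖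
        ≤ (N : ℝ) * ‖C‖ / ‖D‖ * (K * (2 / Y ^ 2) * Real.exp (-(5/2))) := by
          apply mul_le_mul_of_nonneg_left hseg; positivity
      _ = (X * Real.exp (-(X ^ 2 - Y ^ 2) / 2) / Y) * (2 * Real.exp (-(5/2))) := by
          have e2 : -(N * (‖C‖ ^ 2 - ‖b‖ ^ 2)) / 2 = -(X ^ 2 - Y ^ 2) / 2 := by
            rw [hX2, hY2]; ring
          rw [hK, e2]
          have hYne : Y ≠ 0 := by linarith
          have hDn0 : ‖D‖ ≠ 0 := hD0.ne'
          have e3 : (N : ℝ) = s * s := by rw [← hs2]; ring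
          rw [e3]
          have e4 : X = s * ‖C‖ := hX
          have e5 : ‖b‖ = Y / s := by rw [hY]; field_simp
          rw [e5]
          have e6 : ‖C‖ = X / s := by rw [hX]; field_simp
          rw [e6]
          field_simp
      _ ≤ 1 * (2 * Real.exp (-(5/2))) := by
          apply mul_le_mul_of_nonneg_right _ (by positivity)
          rw [div_le_one (by linarith)]
          have e7 : -(X ^ 2 - Y ^ 2) / 2 = -((X ^ 2 - Y ^ 2) / 2) := by ring
          rw [e7, Real.exp_neg, ← div_eq_mul_inv, div_le_iff₀ (Real.exp_pos _)]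
          have e8 := Real.add_one_le_exp ((X ^ 2 - Y ^ 2) / 2)
          have e9 : X ≤ Y * ((X ^ 2 - Y ^ 2) / 2 + 1) := aux_XY X Y hY5 hYX
          exact e9.trans (mul_le_mul_of_nonneg_left e8 hY0)
      _ ≤ 11/50 := by
          have := exp_neg_ub (5/2) (by norm_num)
          have h2 : ((1 : ℝ) + 5/2 + (5/2) ^ 2 / 2 + (5/2) ^ 3 / 6)⁻¹ ≤ 11/100 := by norm_num
          linarith
  have hlow : 3/10 * Real.exp Λ ≤ ‖p (ρ * b)‖ := by
    have e1 : ‖(N : ℂ) * C * p (ρ * b) / D‖ ≥ 3/10 := by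
      have e2 : (1 : ℝ) = ‖((N : ℂ) * C * p b / D + 1) - ((N : ℂ) * C * p b / D
        - (N : ℂ) * C * p (ρ * b) / D) - (N : ℂ) * C * p (ρ * b) / D‖ := by
        rw [show ((N : ℂ) * C * p b / D + 1) - ((N : ℂ) * C * p b / D
        - (N : ℂ) * C * p (ρ * b) / D) - (N : ℂ) * C * p (ρ * b) / D = 1 by ring]
        exact norm_one.symm
      have e3 := norm_sub_le (((N : ℂ) * C * p b / D + 1) - ((N : ℂ) * C * p b / D
        - (N : ℂ) * C * p (ρ * b) / D)) ((N : ℂ) * C * p (ρ * b) / D)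
      have e4 := norm_sub_le ((N : ℂ) * C * p b / D + 1) ((N : ℂ) * C * p b / D
        - (N : ℂ) * C * p (ρ * b) / D)
      linarith
    rw [norm_div, norm_mul, norm_mul, Complex.norm_natCast, ge_iff_le, le_div_iff₀ hD0, hDn] at e1
    have e5 : (N : ℝ) * ‖C‖ * ‖p (ρ * b)‖ ≤ N * ‖p (ρ * b)‖ := by
      have : (N : ℝ) * ‖C‖ ≤ N * 1 := mul_le_mul_of_nonneg_left hC1 hN.le
      calc (N : ℝ) * ‖C‖ * ‖p (ρ * b)‖ ≤ (N * 1) * ‖p (ρ * b)‖ :=
            mul_le_mul_of_nonneg_right this (norm_nonneg _)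
        _ = _ := by ring
    have e6 : N * (3/10 * Real.exp Λ) ≤ N * ‖p (ρ * b)‖ := by
      have := Real.exp_pos Λ
      linarith
    exact le_of_mul_le_mul_left e6 hN
  -- upper bound
  have hup : ‖p (ρ * b)‖ ≤ Real.exp (Λ - 19/10) := by
    have hz : ‖(ρ : ℂ) * b‖ = ρ * ‖b‖ := by
      rw [norm_mul, Complex.norm_real, Real.norm_of_nonneg hρ0.le]
    have hz1 : ‖(ρ : ℂ) * b‖ ≤ 1 := by
      rw [hz]; nlinarith [norm_nonneg b]
    refine (h.hup _ hz1).trans ?_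
    apply Real.exp_le_exp.mpr
    set E := ∑ k, w k - N * b with hE
    have hE2 : ‖E‖ ^ 2 ≤ N * (10 * Λ) := h.err_sq_le
    have hsum : ∑ k, w k = N * b + E := by rw [hE]; ring
    have e1 : (conj ((ρ : ℂ) * b) * ∑ k, w k).re ≥ 5 - (5 / Y) * (‖E‖ / s) := by
      rw [hsum]
      have e2 : (conj ((ρ : ℂ) * b) * (N * b + E)).re
          = ρ * (N * ‖b‖ ^ 2) + ρ * (conj b * E).re := by
        have e3 : conj ((ρ : ℂ) * b) * (N * b + E)
            = ((ρ * (N * ‖b‖ ^ 2) : ℝ) : ℂ) + (ρ : ℂ) * (conj b * E) := by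
          rw [map_mul, Complex.conj_ofReal]
          have : conj b * b = ((‖b‖ ^ 2 : ℝ) : ℂ) := by
            rw [mul_comm, Complex.mul_conj, Complex.normSq_eq_norm_sq]
          have e4 : (ρ : ℂ) * conj b * (N * b + E)
            = (ρ : ℂ) * (N * (conj b * b)) + (ρ : ℂ) * (conj b * E) := by ring
          rw [e4, this]
          push_cast; ring
        rw [e3, Complex.add_re, Complex.ofReal_re, Complex.re_ofReal_mul]
      rw [e2, ← hY2]
      have e5 : ρ * Y ^ 2 = 5 := by rw [hρ]; field_simp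
      rw [e5]
      have e6 : -(‖b‖ * ‖E‖) ≤ (conj b * E).re := by
        have := Complex.abs_re_le_norm (conj b * E)
        rw [norm_mul, Complex.norm_conj] at this
        have := abs_le.mp this
        linarith [this.1]
      have e7 : ρ * (‖b‖ * ‖E‖) = 5 / Y * (‖E‖ / s) := by
        have e8 : ‖b‖ = Y / s := by rw [hY]; field_simp
        rw [e8, hρ]
        have hYne : Y ≠ 0 := by linarith
        field_simp
      have e9 : ρ * (-(‖b‖ * ‖E‖)) ≤ ρ * (conj b * E).re := mul_le_mul_of_nonneg_left e6 hρ0.le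
      linarith
    set r := ((N : ℝ) + 1) / N with hr
    have hr1 : 1 ≤ r := by rw [hr, le_div_iff₀ hN]; linarith
    have hr2 : r ≤ 1001/1000 := by
      rw [hr, div_le_iff₀ hN]
      have : (10 : ℝ) ^ 10 = 10000000000 := by norm_num
      linarith
    have e10 : ((N : ℝ) + 1) * ‖(ρ : ℂ) * b‖ ^ 2 / 2 ≤ 51/100 := by
      rw [hz]
      have e11 : ((N : ℝ) + 1) * (ρ * ‖b‖) ^ 2 / 2 = r * (25 / (2 * Y ^ 2)) := by
        rw [hr, hρ]
        have e12 : ‖b‖ ^ 2 = Y ^ 2 / N := by rw [hY2]; field_simp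
        rw [mul_pow, e12]
        field_simp
        norm_num
      rw [e11]
      have e13 : 25 / (2 * Y ^ 2) ≤ 1 / 2 := by
        rw [div_le_div_iff₀ (by positivity) (by norm_num)]; linarith
      nlinarith
    set F := ‖E‖ / s with hF
    have hF0 : 0 ≤ F := by positivity
    have hF2 : F ^ 2 ≤ 10 * Λ := by
      rw [hF, div_pow, hs2, div_le_iff₀ hN]; linarith
    have e14 : r * (5 / Y) * F ≤ Λ + 5 / 2 * (r * (5 / Y)) ^ 2 := lin_le_of_sq_le _ _ _ hF2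
    have e15 : r * (5 / Y) ≤ 1001/1000 := by
      have : 5 / Y ≤ 1 := by rw [div_le_one (by linarith)]; exact hY5
      have h0 : 0 ≤ 5 / Y := by positivity
      nlinarith
    have e16 : (r * (5 / Y)) ^ 2 ≤ (1001/1000) ^ 2 := by
      apply pow_le_pow_left₀ (by positivity) e15
    have e17 : -r * (conj ((ρ : ℂ) * b) * ∑ k, w k).re ≤ -r * (5 - (5 / Y) * F) := by
      nlinarith
    have e18 : -r * (5 - (5 / Y) * F) = -5 * r + r * (5 / Y) * F := by ring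
    rw [e18] at e17
    linarith
  have hfin : 3/10 * Real.exp Λ ≤ Real.exp Λ * Real.exp (-(19/10)) := by
    rw [← Real.exp_add]
    calc 3/10 * Real.exp Λ ≤ _ := hlow
      _ ≤ Real.exp (Λ - 19/10) := hup
      _ = _ := by congr 1
  have h19 : Real.exp (-(19/10)) < 3/10 := by
    refine lt_of_le_of_lt (exp_neg_ub (19/10) (by norm_num)) ?_
    norm_num
  have := Real.exp_pos Λ
  nlinarith

end Cfg

end

end Pool.Agent.MPf0bc87
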