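import Pool.Agent.Work.MP_f0bc87_an.CaseA

/-!
Case B: `N |b|² < 25`; either `a` is near one or `N` is bounded.
-/

set_option autoImplicit false

namespace Pool.Agent.MPf0bc87

open Finset

open scoped ComplexConjugate

lemma exp_neg_le_inv (x : ℝ) (hx : 0 < x) : Real.exp (-x) ≤ 1 / x := by
  rw [Real.exp_neg, one_div]
  exact inv_anti₀ hx (by linarith [Real.add_one_le_exp x])

section

variable {N : ℕ} {a : ℝ} {w : Fin N → ℂ} {p : ℂ → ℂ}

namespace Cfg

lemma re_CC_ge' (_h : Cfg N a w p) : a - ‖bb a w‖ ≤ (CC a w).re := by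
  have h1 : (bb a w).re = a - (CC a w).re := by simp [bb]
  have h2 := Complex.re_le_norm (bb a w)
  linarith

/-- the key inequality for `a √N ≥ 15`. -/
lemma caseB_aux (h : Cfg N a w p) (hx : 15 ≤ a * Real.sqrt N) :
    1 - 4 / (a * Real.sqrt N - 12) ^ 2 - 2 / (a * Real.sqrt N * (a * Real.sqrt N - 12))
      ≤ a * ‖CC a w‖ := by
  have hN := h.Npos
  set s := Real.sqrt N with hs
  have hs2 : s ^ 2 = N := Real.sq_sqrt hN.le
  have hs0 : 0 < s := Real.sqrt_pos.mpr hN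
  set x := a * s with hxdef
  have hx2 : x ^ 2 = N * a ^ 2 := by rw [hxdef, mul_pow, hs2]; ring
  set Y := s * ‖bb a w‖ with hY
  have hY5 : Y ≤ 5 := by
    have h1 := h.caseA
    have h2 : Y ^ 2 = N * ‖bb a w‖ ^ 2 := by rw [hY, mul_pow, hs2]
    have h3 : 0 ≤ Y := by positivity
    nlinarith
  have ha0 := h.ha0
  have hD0 : 0 < ‖DD a w‖ := norm_pos_iff.mpr h.DD_ne
  have hκ : 0 < x ^ 2 / 2 - 6 * x := by nlinarith
  have hna : ‖(a : ℂ)‖ = a := by rw [Complex.norm_real, Real.norm_of_nonneg ha0]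
  have hf := h.flat (a : ℂ) (x ^ 2 / 2 - 6 * x) hκ (by
    rw [hna, Complex.re_ofReal_mul, ← hs]
    have h1 := h.re_CC_ge'
    have h2 : N * (a * (a - ‖bb a w‖)) ≤ N * (a * (CC a w).re) := by
      apply mul_le_mul_of_nonneg_left _ hN.le
      exact mul_le_mul_of_nonneg_left h1 ha0
    have h3 : N * (a * (a - ‖bb a w‖)) = x ^ 2 - x * Y := by
      rw [hx2, hxdef, hY]
      have : a * s * (s * ‖bb a w‖) = s ^ 2 * (a * ‖bb a w‖) := by ring
      rw [this, hs2]; ring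
    have h4 : x * Y ≤ x * 5 := mul_le_mul_of_nonneg_left hY5 (by linarith)
    linarith)
  rw [hna, sub_self, ← hx2] at hf
  have e1 : x ^ 2 / (x ^ 2 / 2 - 6 * x) ^ 2 = 4 / (x - 12) ^ 2 := by
    have hx0 : x ≠ 0 := by linarith
    have hx12 : x - 12 ≠ 0 := by linarith
    have : x ^ 2 / 2 - 6 * x = x * (x - 12) / 2 := by ring
    rw [this]
    field_simp
    norm_num
  have e2 : Real.exp (-(x ^ 2 / 2 - 6 * x)) ≤ 2 / (x * (x - 12)) := by
    refine (exp_neg_le_inv _ hκ).trans (le_of_eq ?_)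
    have hx0 : x ≠ 0 := by linarith
    have hx12 : x - 12 ≠ 0 := by linarith
    have : x ^ 2 / 2 - 6 * x = x * (x - 12) / 2 := by ring
    rw [this]
    field_simp
  rw [e1] at hf
  have e3 : 1 - 4 / (x - 12) ^ 2 - 2 / (x * (x - 12)) ≤ ‖(N : ℂ) * CC a w * p 0 / DD a w‖ := by
    have h5 := norm_sub_le ((N : ℂ) * CC a w * p 0 / DD a w + 1) ((N : ℂ) * CC a w * p 0 / DD a w)
    have h6 : ((N : ℂ) * CC a w * p 0 / DD a w + 1) - ((N : ℂ) * CC a w * p 0 / DD a w) = 1 := by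
      ring
    rw [h6, norm_one] at h5
    linarith
  rw [norm_div, norm_mul, norm_mul, Complex.norm_natCast] at e3
  have e4 : (N : ℝ) * ‖CC a w‖ * ‖p 0‖ / ‖DD a w‖ ≤ a * ‖CC a w‖ := by
    rw [div_le_iff₀ hD0]
    have h7 : (N : ℝ) ≤ ‖DD a w‖ := by
      rw [h.norm_DD]
      have h8 : 1 ≤ Real.exp (Lam a w) := Real.one_le_exp h.Lam_nonneg
      nlinarith
    calc (N : ℝ) * ‖CC a w‖ * ‖p 0‖ ≤ (N : ℝ) * ‖CC a w‖ * a := by
          apply mul_le_mul_of_nonneg_left h.hp0; positivity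
      _ = a * ‖CC a w‖ * N := by ring
      _ ≤ a * ‖CC a w‖ * ‖DD a w‖ := by
          apply mul_le_mul_of_nonneg_left h7; positivity
  linarith

lemma caseB1 (h : Cfg N a w p) (hx : 15 ≤ a * Real.sqrt N) :
    1 - 80 / N ≤ a * ‖CC a w‖ := by
  have h0 := h.caseB_aux hx
  have hN := h.Npos
  have hNb := h.hN
  set s := Real.sqrt N with hs
  have hs2 : s ^ 2 = N := Real.sq_sqrt hN.le
  have hs0 : 0 < s := Real.sqrt_pos.mpr hN
  have hs5 : 10 ^ 5 ≤ s := by
    rw [hs]; apply Real.le_sqrt_of_sq_le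
    have h55 : ((10 : ℝ) ^ 5) ^ 2 = 10 ^ 10 := by norm_num
    rw [h55]; exact hNb
  set x := a * s with hxdef
  have hC1 := h.norm_CC_le
  have ha0 := h.ha0
  have haC : a * ‖CC a w‖ ≤ a := by nlinarith [norm_nonneg (CC a w)]
  have e1 : 4 / (x - 12) ^ 2 ≤ 4 / 9 := by
    rw [div_le_div_iff₀ (by nlinarith) (by norm_num)]
    nlinarith
  have e2 : 2 / (x * (x - 12)) ≤ 2 / 45 := by
    rw [div_le_div_iff₀ (by nlinarith) (by norm_num)]
    nlinarith
  have ha2 : 1 / 2 ≤ a := by linarith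
  have hx1 : s / 2 ≤ x := by rw [hxdef]; nlinarith
  have hx2 : s / 4 ≤ x - 12 := by
    have : (10 : ℝ) ^ 5 = 100000 := by norm_num
    linarith
  have e3 : 4 / (x - 12) ^ 2 ≤ 64 / N := by
    rw [div_le_div_iff₀ (by nlinarith) hN, ← hs2]
    have : (s / 4) ^ 2 ≤ (x - 12) ^ 2 := pow_le_pow_left₀ (by positivity) hx2 2
    nlinarith
  have e4 : 2 / (x * (x - 12)) ≤ 16 / N := by
    have h1 : s / 2 * (s / 4) ≤ x * (x - 12) := by
      apply mul_le_mul hx1 hx2 (by positivity) (by linarith)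
    rw [div_le_div_iff₀ (by nlinarith) hN, ← hs2]
    nlinarith
  have e5 : (80 : ℝ) / N = 64 / N + 16 / N := by ring
  rw [e5]
  linarith

lemma caseB2 (h : Cfg N a w p) (hx : a * Real.sqrt N < 15) :
    Real.log ((N : ℝ) + 1) ≤ 754 := by
  have hN := h.Npos
  have hNb := h.hN
  set s := Real.sqrt N with hs
  have hs2 : s ^ 2 = N := Real.sq_sqrt hN.le
  have hs0 : 0 < s := Real.sqrt_pos.mpr hN
  set x := a * s with hxdef
  have ha0 := h.ha0
  have hx0 : 0 ≤ x := by positivity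
  have hx2 : x ^ 2 = N * a ^ 2 := by rw [hxdef, mul_pow, hs2]; ring
  set Y := s * ‖bb a w‖ with hY
  have hY0 : 0 ≤ Y := by positivity
  have hY5 : Y ≤ 5 := by
    have h1 := h.caseA
    have h2 : Y ^ 2 = N * ‖bb a w‖ ^ 2 := by rw [hY, mul_pow, hs2]
    nlinarith
  set Λ := Lam a w with hΛ
  set r := ((N : ℝ) + 1) / N with hr
  have hr1 : 1 ≤ r := by rw [hr, le_div_iff₀ hN]; linarith
  have hr2 : r ≤ 1001/1000 := by
    rw [hr, div_le_iff₀ hN]
    have : (10 : ℝ) ^ 10 = 10000000000 := by norm_num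
    linarith
  have h1 := h.hda
  rw [h.prod_norm_eq, ← Real.exp_log (show (0 : ℝ) < (N : ℝ) + 1 by positivity), ← Real.exp_add,
    Real.exp_log (show (0 : ℝ) < (N : ℝ) + 1 by positivity)] at h1
  have h2 := Real.exp_le_exp.mp h1
  set E := ∑ k, w k - N * bb a w with hE
  have hE2 : ‖E‖ ^ 2 ≤ N * (10 * Λ) := h.err_sq_le
  set F := ‖E‖ / s with hF
  have hF0 : 0 ≤ F := by positivity
  have hF2 : F ^ 2 ≤ 10 * Λ := by
    rw [hF, div_pow, hs2, div_le_iff₀ hN]; linarith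
  have h3 : -(∑ k, w k).re ≤ N * ‖bb a w‖ + ‖E‖ := by
    have h4 : ∑ k, w k = N * bb a w + E := by rw [hE]; ring
    have h5 : ‖∑ k, w k‖ ≤ N * ‖bb a w‖ + ‖E‖ := by
      rw [h4]
      refine (norm_add_le _ _).trans ?_
      rw [norm_mul, Complex.norm_natCast]
    have h6 := Complex.abs_re_le_norm (∑ k, w k)
    have h7 := neg_abs_le (∑ k, w k).re
    linarith
  have h8 : -a * r * (∑ k, w k).re ≤ r * (x * Y) + r * x * F := by
    have h9 : a * r * (-(∑ k, w k).re) ≤ a * r * (N * ‖bb a w‖ + ‖E‖) :=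
      mul_le_mul_of_nonneg_left h3 (by positivity)
    have h10 : a * r * (N * ‖bb a w‖ + ‖E‖) = r * (x * Y) + r * x * F := by
      rw [hxdef, hY, hF]
      have : r * (a * s * (s * ‖bb a w‖)) = r * a * ‖bb a w‖ * s ^ 2 := by ring
      rw [this, hs2]
      field_simp
    linarith
  have h11 : r * x * F ≤ Λ + 5 / 2 * (r * x) ^ 2 := lin_le_of_sq_le _ _ _ hF2
  have h12 : r * x ≤ 1001/1000 * 15 := by
    apply mul_le_mul hr2 hx.le hx0 (by norm_num)
  have h13 : (r * x) ^ 2 ≤ (1001/1000 * 15) ^ 2 := pow_le_pow_left₀ (by positivity) h12 2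
  have h14 : r * (x * Y) ≤ 1001/1000 * (15 * 5) := by
    apply mul_le_mul hr2 _ (by positivity) (by norm_num)
    exact mul_le_mul hx.le hY5 hY0 (by norm_num)
  have h15 : x ^ 2 ≤ 15 ^ 2 := pow_le_pow_left₀ hx0 hx.le 2
  have h16 : a ^ 2 ≤ 1 := by have := h.ha1; nlinarith
  rw [← hx2] at h2
  have h17 : -a * (((N : ℝ) + 1) / N) * (∑ k, w k).re = -a * r * (∑ k, w k).re := by rw [hr]
  rw [h17] at h2
  norm_num at h13 h14 h15
  linarith

end Cfg

end

end Pool.Agent.MPf0bc87
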