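import Pool.Agent.Work.MP_f0bc87_an.Setup

/-!
The flatness lemma: `N C p(a-u) / p'(a) + 1` is small when `u` is deep in the flat disc.
-/

set_option autoImplicit false

namespace Pool.Agent.MPf0bc87

open Finset

open scoped ComplexConjugate

section

variable {N : ℕ} {a : ℝ} {w : Fin N → ℂ} {p : ℂ → ℂ}

namespace Cfg

/-- derivative of `τ ↦ p (a - τ u)`. -/
lemma hasDerivAt_line (h : Cfg N a w p) (u : ℂ) (τ : ℝ) :
    HasDerivAt (fun τ : ℝ => p ((a : ℂ) - τ * u))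
      (-u * (DD a w * ∏ k, (1 - (τ * u) * vv a w k))) τ := by
  have h1 := h.hp ((a : ℂ) - τ * u)
  rw [h.deriv_eq] at h1
  have h2 : HasDerivAt (fun τ : ℝ => (a : ℂ) - τ * u) (-u) τ := by
    have h3 : HasDerivAt (fun τ : ℝ => (τ : ℂ)) 1 τ := Complex.ofRealCLM.hasDerivAt
    have h4 := (h3.mul_const u).const_sub (a : ℂ)
    simpa using h4
  have h5 := h1.comp τ h2
  refine h5.congr_deriv ?_
  ring

/-- derivative of the product along a line. -/
lemma hasDerivAt_prod (h : Cfg N a w p) (u : ℂ) (τ : ℝ) :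
    HasDerivAt (fun τ : ℝ => ∏ k, (1 - ((τ : ℂ) * u) * vv a w k))
      (-(N * (u * CC a w)) * ∏ k, (1 - ((τ : ℂ) * u) * vv a w k)
        - τ * u ^ 2 * ∑ k, vv a w k ^ 2 *
          ∏ j ∈ Finset.univ.erase k, (1 - ((τ : ℂ) * u) * vv a w j)) τ := by
  have h1 : ∀ k ∈ (Finset.univ : Finset (Fin N)),
      HasDerivAt (fun τ : ℝ => 1 - ((τ : ℂ) * u) * vv a w k) (-(u * vv a w k)) τ := by
    intro k _
    have h3 : HasDerivAt (fun τ : ℝ => (τ : ℂ)) 1 τ := Complex.ofRealCLM.hasDerivAt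
    have h4 := ((h3.mul_const u).mul_const (vv a w k)).const_sub (1 : ℂ)
    simpa using h4
  have h2 := HasDerivAt.fun_finsetProd h1
  refine h2.congr_deriv ?_
  simp only [smul_eq_mul]
  have h5 : ∀ k : Fin N, (∏ j ∈ Finset.univ.erase k, (1 - ((τ : ℂ) * u) * vv a w j)) *
      (-(u * vv a w k)) = -(u * vv a w k) * ∏ k, (1 - ((τ : ℂ) * u) * vv a w k)
      - τ * u ^ 2 * (vv a w k ^ 2 *
          ∏ j ∈ Finset.univ.erase k, (1 - ((τ : ℂ) * u) * vv a w j)) := by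
    intro k
    rw [← Finset.mul_prod_erase _ _ (Finset.mem_univ k)]
    ring
  rw [Finset.sum_congr rfl (fun k _ => h5 k), Finset.sum_sub_distrib, ← Finset.sum_mul,
    ← Finset.mul_sum, Finset.sum_neg_distrib, ← Finset.mul_sum, h.sum_vv]
  ring

/-- The flatness lemma. -/
lemma flat (h : Cfg N a w p) (u : ℂ) (κ : ℝ) (hκ : 0 < κ)
    (hκ' : κ ≤ N * (u * CC a w).re - ‖u‖ * Real.sqrt N - N * ‖u‖ ^ 2 / 2) :
    ‖(N : ℂ) * CC a w * p (a - u) / DD a w + 1‖ ≤ N * ‖u‖ ^ 2 / κ ^ 2 + Real.exp (-κ) := by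
  have hD := h.DD_ne
  set P : ℝ → ℂ := fun τ : ℝ => ∏ k, (1 - ((τ : ℂ) * u) * vv a w k) with hP
  set R : ℝ → ℂ := fun τ : ℝ => ∑ k, vv a w k ^ 2 *
          ∏ j ∈ Finset.univ.erase k, (1 - ((τ : ℂ) * u) * vv a w j) with hR
  set f : ℝ → ℂ := fun τ : ℝ => P τ - (N : ℂ) * CC a w / DD a w * p ((a : ℂ) - τ * u) with hf
  have hderiv : ∀ τ : ℝ, HasDerivAt f (-(τ * u ^ 2 * R τ)) τ := by
    intro τ
    have h1 := (h.hasDerivAt_prod u τ).sub
      ((h.hasDerivAt_line u τ).const_mul ((N : ℂ) * CC a w / DD a w))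
    refine h1.congr_deriv ?_
    simp only [hR]
    field_simp
    ring
  have hbound : ∀ τ ∈ Set.Ico (0 : ℝ) 1, ‖-(τ * u ^ 2 * R τ)‖ ≤
      (N * ‖u‖ ^ 2) * τ * Real.exp (-κ * τ) := by
    intro τ hτ
    have hR1 : ‖R τ‖ ≤ N * Real.exp (-κ * τ) := by
      calc ‖R τ‖ ≤ ∑ k, ‖vv a w k ^ 2 *
          ∏ j ∈ Finset.univ.erase k, (1 - ((τ : ℂ) * u) * vv a w j)‖ := norm_sum_le _ _
        _ ≤ ∑ k, ‖vv a w k‖ ^ 2 * Real.exp (-κ * τ) := by
          apply Finset.sum_le_sum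
          intro k _
          rw [norm_mul, norm_pow]
          apply mul_le_mul_of_nonneg_left _ (sq_nonneg _)
          refine (h.prod_erase_le ((τ : ℂ) * u) k).trans ?_
          apply Real.exp_le_exp.mpr
          have e1 : ((τ : ℂ) * u * CC a w).re = τ * (u * CC a w).re := by
            rw [mul_assoc, Complex.re_ofReal_mul]
          have e2 : ‖(τ : ℂ) * u‖ = τ * ‖u‖ := by
            rw [norm_mul, Complex.norm_real, Real.norm_of_nonneg hτ.1]
          rw [e1, e2]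
          have e3 : κ * τ ≤ (N * (u * CC a w).re - ‖u‖ * Real.sqrt N - N * ‖u‖ ^ 2 / 2) * τ :=
            mul_le_mul_of_nonneg_right hκ' hτ.1
          have e4 : τ ^ 2 ≤ τ := by nlinarith [hτ.1, hτ.2]
          have e5 : N * ‖u‖ ^ 2 / 2 * τ ^ 2 ≤ N * ‖u‖ ^ 2 / 2 * τ :=
            mul_le_mul_of_nonneg_left e4 (by have := h.Npos; positivity)
          nlinarith
        _ = (∑ k, ‖vv a w k‖ ^ 2) * Real.exp (-κ * τ) := by rw [Finset.sum_mul]
        _ ≤ N * Real.exp (-κ * τ) := by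
          apply mul_le_mul_of_nonneg_right h.sum_sq_le (Real.exp_pos _).le
    rw [norm_neg, norm_mul, norm_mul, norm_pow, Complex.norm_real, Real.norm_of_nonneg hτ.1]
    calc τ * ‖u‖ ^ 2 * ‖R τ‖ ≤ τ * ‖u‖ ^ 2 * (N * Real.exp (-κ * τ)) := by
          apply mul_le_mul_of_nonneg_left hR1
          have := hτ.1; positivity
      _ = _ := by ring
  have key := norm_sub_le_of_deriv_le f (fun τ => -(τ * u ^ 2 * R τ)) (N * ‖u‖ ^ 2) κ 1 hκ
    (by have := h.Npos; positivity) (by norm_num) (fun t _ => hderiv t) hbound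
  have hf0 : f 0 = 1 := by simp [hf, hP, h.hpa]
  have hf1 : f 1 = P 1 - (N : ℂ) * CC a w * p (a - u) / DD a w := by
    simp only [hf, Complex.ofReal_one, one_mul]
    ring
  have hP1 : ‖P 1‖ ≤ Real.exp (-κ) := by
    have h1 := h.prod_all_le u
    have h2 : P 1 = ∏ j, (1 - u * vv a w j) := by simp [hP]
    rw [h2]
    refine h1.trans ?_
    apply Real.exp_le_exp.mpr
    have : 0 ≤ ‖u‖ * Real.sqrt N := by positivity
    linarith
  have h3 : (N : ℂ) * CC a w * p (a - u) / DD a w + 1 = P 1 - (f 1 - f 0) := by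
    rw [hf0, hf1]; ring
  rw [h3]
  calc ‖P 1 - (f 1 - f 0)‖ ≤ ‖P 1‖ + ‖f 1 - f 0‖ := norm_sub_le _ _
    _ ≤ Real.exp (-κ) + N * ‖u‖ ^ 2 / κ ^ 2 := add_le_add hP1 key
    _ = _ := by ring

end Cfg

end

end Pool.Agent.MPf0bc87
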