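import Pool.Agent.Work.MP_f0bc87_an.Near2

/-!
From polynomials to configurations, and the main theorem.
-/

set_option autoImplicit false

namespace Pool.Agent.MPf0bc87

open Finset Polynomial

open scoped ComplexConjugate

/-- factor bound: `|z - ζ| ≤ exp(-Re(conj z ζ) + |z|²/2)` in the unit disc. -/
lemma norm_factor_le (z ζ : ℂ) (hz : ‖z‖ ≤ 1) (hζ : ‖ζ‖ ≤ 1) :
    ‖z - ζ‖ ≤ Real.exp (-(conj z * ζ).re + ‖z‖ ^ 2 / 2) := by
  have h1 : ‖z - ζ‖ ^ 2 = ‖z‖ ^ 2 - 2 * (conj z * ζ).re + ‖ζ‖ ^ 2 := by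
    rw [← Complex.normSq_eq_norm_sq, ← Complex.normSq_eq_norm_sq, ← Complex.normSq_eq_norm_sq,
      Complex.normSq_apply, Complex.normSq_apply, Complex.normSq_apply]
    simp
    ring
  have hz2 : ‖z‖ ^ 2 ≤ 1 := by nlinarith [norm_nonneg z]
  have hζ2 : ‖ζ‖ ^ 2 ≤ 1 := by nlinarith [norm_nonneg ζ]
  have h2 : ‖z - ζ‖ ^ 2 ≤ (Real.exp (-(conj z * ζ).re + ‖z‖ ^ 2 / 2)) ^ 2 := by
    rw [h1, ← Real.exp_nat_mul]
    have h3 := Real.add_one_le_exp (-2 * (conj z * ζ).re + ‖z‖ ^ 2)
    have h4 : ((2 : ℕ) : ℝ) * (-(conj z * ζ).re + ‖z‖ ^ 2 / 2)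
      = -2 * (conj z * ζ).re + ‖z‖ ^ 2 := by
      push_cast; ring
    rw [h4]
    nlinarith
  exact le_of_sq_le_sq h2 (Real.exp_pos _).le

lemma norm_prod_factor_le {ι : Type*} (s : Finset ι) (z : ℂ) (ζ : ι → ℂ) (hz : ‖z‖ ≤ 1)
    (hζ : ∀ i ∈ s, ‖ζ i‖ ≤ 1) :
    ‖∏ i ∈ s, (z - ζ i)‖ ≤
      Real.exp (-(conj z * ∑ i ∈ s, ζ i).re + (s.card : ℝ) * (‖z‖ ^ 2 / 2)) := by
  rw [norm_prod]
  calc ∏ i ∈ s, ‖z - ζ i‖ ≤ ∏ i ∈ s, Real.exp (-(conj z * ζ i).re + ‖z‖ ^ 2 / 2) := by
        apply Finset.prod_le_prod (fun i _ => norm_nonneg _)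
        intro i hi
        exact norm_factor_le _ _ hz (hζ i hi)
    _ = _ := by
        rw [← Real.exp_sum, Finset.sum_add_distrib, Finset.sum_neg_distrib, Finset.mul_sum,
          Complex.re_sum, Finset.sum_const, nsmul_eq_mul]

/-- enumerate a multiset of known cardinality by `Fin m`. -/
lemma exists_fin_enum (s : Multiset ℂ) (m : ℕ) (hs : Multiset.card s = m) :
    ∃ w : Fin m → ℂ, Multiset.map w Finset.univ.val = s := by
  subst hs
  refine ⟨fun i => s.toList.get (Fin.cast (by simp) i), ?_⟩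
  have h1 : (Finset.univ : Finset (Fin (Multiset.card s))).val
      = ((List.finRange (Multiset.card s) : List _) : Multiset _) := rfl
  rw [h1, Multiset.map_coe]
  conv_rhs => rw [← Multiset.coe_toList s]
  congr 1
  apply List.ext_get
  · simp
  · intro n h1 h2
    simp

section

variable {m : ℕ} (a : ℝ) (z : Fin m → ℂ)

/-- the polynomial. -/
noncomputable def PP : ℂ[X] := (X - C (a : ℂ)) * ∏ j, (X - C (z j))

lemma PP_monic : (PP a z).Monic := by
  unfold PP
  apply Monic.mul (monic_X_sub_C _)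
  exact monic_prod_of_monic _ _ (fun j _ => monic_X_sub_C _)

lemma PP_natDegree : (PP a z).natDegree = m + 1 := by
  unfold PP
  rw [Monic.natDegree_mul (monic_X_sub_C _) (monic_prod_of_monic _ _ (fun j _ => monic_X_sub_C _)),
    natDegree_X_sub_C, natDegree_prod_of_monic _ _ (fun j _ => monic_X_sub_C _)]
  simp [add_comm]

lemma PP_ne : PP a z ≠ 0 := (PP_monic a z).ne_zero

lemma PP_eval (x : ℂ) : (PP a z).eval x = (x - a) * ∏ j, (x - z j) := by
  simp [PP, eval_prod]

lemma PP_coeff : (PP a z).coeff m = -(a + ∑ j, z j) := by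
  have h1 : (PP a z).nextCoeff = -(a + ∑ j, z j) := by
    unfold PP
    rw [Monic.nextCoeff_mul (monic_X_sub_C _)
      (monic_prod_of_monic _ _ (fun j _ => monic_X_sub_C _)), nextCoeff_X_sub_C,
      prod_X_sub_C_nextCoeff]
    ring
  rw [nextCoeff, PP_natDegree] at h1
  simpa using h1

lemma dPP_natDegree : (derivative (PP a z)).natDegree = m := by
  rw [natDegree_derivative, PP_natDegree]
  simp

lemma dPP_leadingCoeff : (derivative (PP a z)).leadingCoeff = (m : ℂ) + 1 := by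
  rw [leadingCoeff, dPP_natDegree, coeff_derivative]
  have : (PP a z).coeff (m + 1) = 1 := by
    have := (PP_monic a z).coeff_natDegree
    rwa [PP_natDegree] at this
  rw [this, one_mul]

lemma dPP_ne : derivative (PP a z) ≠ 0 := by
  intro h0
  have := dPP_leadingCoeff a z
  rw [h0, leadingCoeff_zero] at this
  have h1 : ((m : ℂ) + 1) ≠ 0 := by exact_mod_cast Nat.succ_ne_zero m
  exact h1 this.symm

lemma exists_w : ∃ w : Fin m → ℂ, Multiset.map w Finset.univ.val = (derivative (PP a z)).roots := by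
  apply exists_fin_enum
  rw [IsAlgClosed.card_roots_eq_natDegree, dPP_natDegree]

variable {a z}

lemma dPP_eq {w : Fin m → ℂ} (hw : Multiset.map w Finset.univ.val = (derivative (PP a z)).roots) :
    derivative (PP a z) = C ((m : ℂ) + 1) * ∏ k, (X - C (w k)) := by
  have h1 := Splits.eq_prod_roots (IsAlgClosed.splits (derivative (PP a z)))
  rw [dPP_leadingCoeff, ← hw, Multiset.map_map] at h1
  exact h1

lemma dPP_eval {w : Fin m → ℂ} (hw : Multiset.map w Finset.univ.val = (derivative (PP a z)).roots)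
    (x : ℂ) : (derivative (PP a z)).eval x = ((m : ℂ) + 1) * ∏ k, (x - w k) := by
  rw [dPP_eq hw]
  simp [eval_prod]

lemma w_mem {w : Fin m → ℂ} (hw : Multiset.map w Finset.univ.val = (derivative (PP a z)).roots)
    (k : Fin m) : w k ∈ (derivative (PP a z)).roots := by
  rw [← hw]
  exact Multiset.mem_map_of_mem w (Finset.mem_univ k)

lemma norm_w_le {w : Fin m → ℂ} (ha0 : 0 ≤ a) (ha1 : a ≤ 1) (hz : ∀ j, ‖z j‖ ≤ 1)
    (hw : Multiset.map w Finset.univ.val = (derivative (PP a z)).roots) (k : Fin m) :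
    ‖w k‖ ≤ 1 := by
  have hdeg : 0 < (PP a z).degree := by
    rw [degree_eq_natDegree (PP_ne a z), PP_natDegree]
    exact_mod_cast Nat.succ_pos m
  have h1 := rootSet_derivative_subset_convexHull_rootSet hdeg
  have h2 : w k ∈ (derivative (PP a z)).rootSet ℂ := by
    rw [mem_rootSet]
    refine ⟨dPP_ne a z, ?_⟩
    have := (mem_roots (dPP_ne a z)).mp (w_mem hw k)
    rw [IsRoot.def] at this
    rw [coe_aeval_eq_eval]
    exact this
  have h3 := h1 h2
  have h4 : (PP a z).rootSet ℂ ⊆ Metric.closedBall (0 : ℂ) 1 := by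
    intro x hx
    rw [mem_rootSet, coe_aeval_eq_eval, PP_eval] at hx
    rw [mem_closedBall_zero_iff]
    rcases mul_eq_zero.mp hx.2 with h5 | h5
    · rw [sub_eq_zero.mp h5, Complex.norm_real, Real.norm_of_nonneg ha0]
      exact ha1
    · obtain ⟨j, -, hj⟩ := Finset.prod_eq_zero_iff.mp h5
      rw [sub_eq_zero.mp hj]
      exact hz j
  have h5 := convexHull_min h4 (convex_closedBall (0 : ℂ) 1) h3
  rwa [mem_closedBall_zero_iff] at h5

lemma sum_w {w : Fin m → ℂ} (hm : 0 < m)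
    (hw : Multiset.map w Finset.univ.val = (derivative (PP a z)).roots) :
    ((m : ℂ) + 1) * ∑ k, w k = m * (a + ∑ j, z j) := by
  have h1 : (derivative (PP a z)).coeff (m - 1) = -(m * (a + ∑ j, z j)) := by
    rw [coeff_derivative, Nat.sub_add_cancel hm, PP_coeff]
    have : ((m - 1 : ℕ) : ℂ) + 1 = m := by
      have h0 : m - 1 + 1 = m := Nat.sub_add_cancel hm
      exact_mod_cast h0
    rw [this]; ring
  have h2 : (derivative (PP a z)).coeff (m - 1) = -(((m : ℂ) + 1) * ∑ k, w k) := by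
    rw [dPP_eq hw, coeff_C_mul]
    have h3 : (∏ k, (X - C (w k))).nextCoeff = - ∑ k, w k := prod_X_sub_C_nextCoeff w
    have h4 : (∏ k, (X - C (w k))).natDegree = m := by
      rw [natDegree_prod_of_monic _ _ (fun j _ => monic_X_sub_C _)]
      simp
    rw [nextCoeff, h4, if_neg hm.ne'] at h3
    rw [h3]; ring
  have h5 := h1.symm.trans h2
  have := neg_injective h5
  exact this.symm

/-- the configuration attached to a polynomial violating the strict inequality. -/
lemma cfg_of_poly (ha0 : 0 ≤ a) (ha1 : a ≤ 1) (hz : ∀ j, ‖z j‖ ≤ 1) (hm : (10 : ℝ) ^ 10 ≤ m)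
    (hmem : (a : ℂ) ∉ (derivative (PP a z)).roots)
    (hS : (((derivative (PP a z)).roots).map
          (fun w : ℂ => (‖w - (a : ℂ)‖ ^ 2)⁻¹)).sum ≤ m)
    {w : Fin m → ℂ} (hw : Multiset.map w Finset.univ.val = (derivative (PP a z)).roots) :
    Cfg m a w (fun x => (PP a z).eval x) := by
  have hmpos : (0 : ℝ) < m := lt_of_lt_of_le (by norm_num) hm
  have hmpos' : 0 < m := by exact_mod_cast hmpos
  have hsum := sum_w hmpos' hw
  have hsum' : (a : ℂ) + ∑ j, z j = (((m : ℝ) + 1) / m : ℝ) * ∑ k, w k := by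
    have hne : (m : ℂ) ≠ 0 := by exact_mod_cast hmpos'.ne'
    have : (a : ℂ) + ∑ j, z j = (m * (a + ∑ j, z j)) / m := by field_simp
    rw [this, ← hsum]
    push_cast
    field_simp
  refine ⟨hm, ha0, ha1, fun k => norm_w_le ha0 ha1 hz hw k, ?_, ?_, ?_, ?_, ?_, ?_, ?_⟩
  · intro k h0
    apply hmem
    rw [sub_eq_zero.mp h0]
    exact w_mem hw k
  · intro x
    have := (PP a z).hasDerivAt x
    rw [dPP_eval hw] at this
    exact this
  · simp [PP_eval]
  · intro x hx
    simp only [PP_eval]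
    rw [norm_mul]
    have hna : ‖(a : ℂ)‖ ≤ 1 := by
      rw [Complex.norm_real, Real.norm_of_nonneg ha0]; exact ha1
    have h1 := norm_factor_le x a hx hna
    have h2 := norm_prod_factor_le Finset.univ x z hx (fun j _ => hz j)
    calc ‖x - a‖ * ‖∏ j, (x - z j)‖ ≤ Real.exp (-(conj x * a).re + ‖x‖ ^ 2 / 2) *
        Real.exp (-(conj x * ∑ j, z j).re + ((Finset.univ : Finset (Fin m)).card : ℝ)
          * (‖x‖ ^ 2 / 2)) :=
          mul_le_mul h1 h2 (norm_nonneg _) (Real.exp_pos _).le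
      _ = Real.exp (-(conj x * (a + ∑ j, z j)).re + ((m : ℝ) + 1) * ‖x‖ ^ 2 / 2) := by
          rw [← Real.exp_add, Finset.card_univ, Fintype.card_fin, mul_add, Complex.add_re]
          congr 1; ring
      _ = _ := by
          rw [hsum']
          congr 1
          have : (conj x * ((((m : ℝ) + 1) / m : ℝ) * ∑ k, w k)).re
            = (((m : ℝ) + 1) / m) * (conj x * ∑ k, w k).re := by
            rw [show conj x * (((((m : ℝ) + 1) / m : ℝ) : ℂ) * ∑ k, w k)
              = ((((m : ℝ) + 1) / m : ℝ) : ℂ) * (conj x * ∑ k, w k) by ring,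
              Complex.re_ofReal_mul]
          rw [this]; ring
  · simp only [PP_eval, zero_sub]
    rw [norm_mul, norm_neg, Complex.norm_real, Real.norm_of_nonneg ha0, norm_prod]
    have : ∏ j, ‖-z j‖ ≤ 1 := by
      apply Finset.prod_le_one (fun j _ => norm_nonneg _)
      intro j _
      rw [norm_neg]; exact hz j
    calc a * ∏ j, ‖-z j‖ ≤ a * 1 := mul_le_mul_of_nonneg_left this ha0
      _ = a := mul_one a
  · -- derivative at a
    have h1 : (derivative (PP a z)).eval (a : ℂ) = ∏ j, ((a : ℂ) - z j) := by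
      unfold PP
      rw [derivative_mul]
      simp [eval_prod]
    rw [dPP_eval hw] at h1
    have h2 := congrArg norm h1
    have hN1 : ‖(m : ℂ) + 1‖ = (m : ℝ) + 1 := by
      rw [show (m : ℂ) + 1 = ((m + 1 : ℕ) : ℂ) by push_cast; ring, Complex.norm_natCast]
      push_cast; ring
    rw [norm_mul, hN1, norm_prod] at h2
    rw [h2]
    have hna : ‖(a : ℂ)‖ = a := by
      rw [Complex.norm_real, Real.norm_of_nonneg ha0]
    have h3 := norm_prod_factor_le Finset.univ (a : ℂ) z (by rw [hna]; exact ha1)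
      (fun j _ => hz j)
    rw [hna, Finset.card_univ, Fintype.card_fin, Complex.conj_ofReal] at h3
    refine h3.trans (le_of_eq ?_)
    congr 1
    have h4 : ∑ j, z j = (((m : ℝ) + 1) / m : ℝ) * ∑ k, w k - a := by
      rw [← hsum']; ring
    rw [h4]
    have h5 : ((a : ℂ) * ((((m : ℝ) + 1) / m : ℝ) * ∑ k, w k - a)).re
      = a * (((m : ℝ) + 1) / m) * (∑ k, w k).re - a ^ 2 := by
      rw [Complex.re_ofReal_mul, Complex.sub_re, Complex.re_ofReal_mul, Complex.ofReal_re]
      ring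
    rw [h5]
    ring
  · rw [← hw, Multiset.map_map] at hS
    have h1 : (Multiset.map ((fun w : ℂ => (‖w - (a : ℂ)‖ ^ 2)⁻¹) ∘ w) Finset.univ.val).sum
      = ∑ k, (‖(a : ℂ) - w k‖ ^ 2)⁻¹ := by
      apply Finset.sum_congr rfl
      intro k _
      simp only [Function.comp]
      rw [norm_sub_rev]
    rw [h1] at hS
    exact hS

/-- **Main theorem**, core form. -/
theorem core (ha0 : 0 ≤ a) (ha1 : a ≤ 1) (hz : ∀ j, ‖z j‖ ≤ 1) (hm : 10 ^ 330 ≤ m)
    (hmem : (a : ℂ) ∉ (derivative (PP a z)).roots)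
    (hS : (((derivative (PP a z)).roots).map
          (fun w : ℂ => (‖w - (a : ℂ)‖ ^ 2)⁻¹)).sum ≤ m) :
    a = 1 ∧ PP a z = X ^ (m + 1) - 1 ∧ (((derivative (PP a z)).roots).map
          (fun w : ℂ => (‖w - (a : ℂ)‖ ^ 2)⁻¹)).sum = m := by
  obtain ⟨w, hw⟩ := exists_w a z
  have hmR : (10 : ℝ) ^ 330 ≤ m := by exact_mod_cast hm
  have h10 : (10 : ℝ) ^ 10 ≤ m := by
    refine le_trans ?_ hmR
    exact pow_le_pow_right₀ (by norm_num) (by norm_num)
  have hcfg := cfg_of_poly ha0 ha1 hz h10 hmem hS hw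
  have hres : a = 1 ∧ ∀ k, w k = 0 := by
    rcases lt_or_ge (a * Real.sqrt m) 15 with h | h
    · exfalso
      have h1 := hcfg.caseB2 h
      have h2 : Real.log ((10 : ℝ) ^ 330) ≤ Real.log ((m : ℝ) + 1) := by
        apply Real.log_le_log (by positivity)
        linarith
      rw [Real.log_pow] at h2
      have h3 : (2.3 : ℝ) < Real.log 10 := by
        rw [Real.lt_log_iff_exp_lt (by norm_num)]
        have h4 : Real.exp 2.3 = Real.exp 1 ^ 2 * Real.exp 0.3 := by
          rw [← Real.exp_nat_mul, ← Real.exp_add]; norm_num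
        have h5 := Real.exp_one_lt_d9
        have h6 : Real.exp 0.3 < 1.35 := by
          have := Real.exp_bound' (x := 0.3) (by norm_num) (by norm_num) (n := 4) (by norm_num)
          refine lt_of_le_of_lt this ?_
          norm_num [Finset.sum_range_succ, Nat.factorial]
        rw [h4]
        have h7 : Real.exp 1 ^ 2 < 2.7182818286 ^ 2 :=
          pow_lt_pow_left₀ h5 (Real.exp_pos _).le (by norm_num)
        calc Real.exp 1 ^ 2 * Real.exp 0.3 < 2.7182818286 ^ 2 * 1.35 :=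
              mul_lt_mul'' h7 h6 (by positivity) (Real.exp_pos _).le
          _ < 10 := by norm_num
      push_cast at h2
      norm_num at h3
      linarith
    · exact hcfg.near_final (hcfg.caseB1 h)
  refine ⟨hres.1, ?_⟩
  have hd : derivative (PP a z) = derivative (X ^ (m + 1) - 1) := by
    rw [dPP_eq hw]
    simp [hres.2]
  have hd2 : derivative (PP a z - (X ^ (m + 1) - 1)) = 0 := by
    rw [derivative_sub, hd, sub_self]
  have h1 := derivative_eq_zero.mp hd2
  obtain ⟨c, hc⟩ := natDegree_eq_zero.mp h1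
  have h2 : c = 0 := by
    have h3 := congrArg (fun q => eval (1 : ℂ) q) hc
    simp only [eval_C, eval_sub, eval_pow, eval_X, eval_one, one_pow, sub_self, sub_zero] at h3
    rw [h3, PP_eval, hres.1]
    simp
  rw [h2, map_zero] at hc
  refine ⟨sub_eq_zero.mp hc.symm, ?_⟩
  rw [← hw, Multiset.map_map]
  have h4 : (Multiset.map ((fun w : ℂ => (‖w - (a : ℂ)‖ ^ 2)⁻¹) ∘ w) Finset.univ.val).sum
      = ∑ k, (‖w k - (a : ℂ)‖ ^ 2)⁻¹ := rfl
  rw [h4]
  simp [hres.1, hres.2]

end

end Pool.Agent.MPf0bc87
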