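import Mathlib
import Pool.Agent.Work.MP_f0bc87_an.Main

set_option autoImplicit false
open Polynomial

namespace Pool.Agent.Work.MP_f0bc87_an.LargeDegreeVariant

/-- For every degree `n = m + 1` with `m ≥ 10 ^ 330`, every `a ∈ [0,1]` and all `z_j` in the closed
unit disc, `p(z) = (z - a) ∏ (z - z_j)` satisfies: `a` is a critical point, or the sum of
`|w - a|⁻²` over the critical points `w` (with multiplicity) is larger than `m = n - 1`, or
`a = 1` and `p = z ^ n - 1`, in which case the sum equals `n - 1`. -/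
theorem result :
    ∀ (m : ℕ), 10 ^ 330 ≤ m → ∀ (a : ℝ), 0 ≤ a → a ≤ 1 → ∀ z : Fin m → ℂ, (∀ j, ‖z j‖ ≤ 1) →
      ((a : ℂ) ∈ (derivative ((X - C (a : ℂ)) * ∏ j, (X - C (z j)))).roots) ∨
      (m : ℝ) < (((derivative ((X - C (a : ℂ)) * ∏ j, (X - C (z j)))).roots).map
          (fun w : ℂ => (‖w - (a : ℂ)‖ ^ 2)⁻¹)).sum ∨
      (a = 1 ∧ (X - C (a : ℂ)) * ∏ j, (X - C (z j)) = X ^ (m + 1) - 1 ∧
        (((derivative ((X - C (a : ℂ)) * ∏ j, (X - C (z j)))).roots).map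
          (fun w : ℂ => (‖w - (a : ℂ)‖ ^ 2)⁻¹)).sum = (m : ℝ)) := by
  intro m hm a ha0 ha1 z hz
  by_cases hmem : (a : ℂ) ∈ (derivative ((X - C (a : ℂ)) * ∏ j, (X - C (z j)))).roots
  · exact Or.inl hmem
  · right
    by_cases hS : (m : ℝ) < (((derivative ((X - C (a : ℂ)) * ∏ j, (X - C (z j)))).roots).map
          (fun w : ℂ => (‖w - (a : ℂ)‖ ^ 2)⁻¹)).sum
    · exact Or.inl hS
    · right
      exact Pool.Agent.MPf0bc87.core ha0 ha1 hz hm hmem (not_lt.mp hS)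

end Pool.Agent.Work.MP_f0bc87_an.LargeDegreeVariant
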