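import Pool.Agent.Work.MP_f0bc87_an.CaseB

/-!
The regime where `a` and `|C|` are within `O(1/N)` of `1`: precise evaluation of `p` at
`c = a - 1/C`.
-/

set_option autoImplicit false

namespace Pool.Agent.MPf0bc87

open Finset

open scoped ComplexConjugate

/-- domination of a product by the product of norms. -/
lemma norm_prod_add_sub_le {ι : Type*} (s : Finset ι) (α : ℝ) (hα : 0 ≤ α) (x : ι → ℂ) :
    ‖∏ i ∈ s, ((α : ℂ) + x i) - (α : ℂ) ^ s.card‖ ≤ ∏ i ∈ s, (α + ‖x i‖) - α ^ s.card := by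
  classical
  induction s using Finset.induction_on with
  | empty => simp
  | insert i s hi ih =>
    rw [Finset.prod_insert hi, Finset.prod_insert hi, Finset.card_insert_of_notMem hi, pow_succ,
      pow_succ]
    have h1 : ((α : ℂ) + x i) * ∏ j ∈ s, ((α : ℂ) + x j) - (α : ℂ) ^ s.card * α
        = ((α : ℂ) + x i) * (∏ j ∈ s, ((α : ℂ) + x j) - (α : ℂ) ^ s.card)
          + x i * (α : ℂ) ^ s.card := by ring
    rw [h1]
    have h2 : ‖(α : ℂ) + x i‖ ≤ α + ‖x i‖ := by
      refine (norm_add_le _ _).trans ?_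
      rw [Complex.norm_real, Real.norm_of_nonneg hα]
    have h3 : 0 ≤ ∏ i ∈ s, (α + ‖x i‖) - α ^ s.card := (norm_nonneg _).trans ih
    calc ‖((α : ℂ) + x i) * (∏ j ∈ s, ((α : ℂ) + x j) - (α : ℂ) ^ s.card)
          + x i * (α : ℂ) ^ s.card‖
        ≤ ‖(α : ℂ) + x i‖ * ‖∏ j ∈ s, ((α : ℂ) + x j) - (α : ℂ) ^ s.card‖
          + ‖x i‖ * ‖(α : ℂ) ^ s.card‖ := by
          refine (norm_add_le _ _).trans ?_
          rw [norm_mul, norm_mul]
      _ ≤ (α + ‖x i‖) * (∏ i ∈ s, (α + ‖x i‖) - α ^ s.card) + ‖x i‖ * α ^ s.card := by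
          apply add_le_add
          · exact mul_le_mul h2 ih (norm_nonneg _) (by positivity)
          · rw [norm_pow, Complex.norm_real, Real.norm_of_nonneg hα]
      _ = _ := by ring

lemma pow_sub_pow_le' (x y : ℝ) (hx : 0 ≤ x) (hxy : x ≤ y) (m : ℕ) :
    y ^ (m + 1) - x ^ (m + 1) ≤ (m + 1) * (y - x) * y ^ m := by
  induction m with
  | zero => simp
  | succ m ih =>
    have hy : 0 ≤ y := hx.trans hxy
    have h1 : y ^ (m + 1 + 1) - x ^ (m + 1 + 1)
        = y * (y ^ (m + 1) - x ^ (m + 1)) + x ^ (m + 1) * (y - x) := by ring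
    rw [h1]
    have h2 : x ^ (m + 1) ≤ y ^ (m + 1) := pow_le_pow_left₀ hx hxy _
    have h3 := mul_le_mul_of_nonneg_left ih hy
    have h4 := mul_le_mul_of_nonneg_right h2 (sub_nonneg.mpr hxy)
    push_cast
    calc _ ≤ y * ((m + 1) * (y - x) * y ^ m) + y ^ (m + 1) * (y - x) := add_le_add h3 h4
      _ = _ := by ring

/-- second-order domination. -/
lemma norm_prod_add_sub_le' {ι : Type*} (s : Finset ι) (m : ℕ) (hm : s.card = m + 1)
    (α μ : ℝ) (hα : 0 < α) (hμ : 0 ≤ μ) (x : ι → ℂ)
    (hx : ∑ i ∈ s, ‖x i‖ ≤ ((m : ℝ) + 1) * μ) :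
    ‖∏ i ∈ s, ((α : ℂ) + x i) - (α : ℂ) ^ s.card‖ ≤ (m + 1) * μ * (α + μ) ^ m := by
  have h1 := norm_prod_add_sub_le s α hα.le x
  have h2 := prod_le_pow s (fun i => α + ‖x i‖) (fun i _ => by positivity) (α + μ) (by linarith)
    (by
      rw [Finset.sum_add_distrib, Finset.sum_const, nsmul_eq_mul, hm]
      push_cast
      linarith)
  have h3 := pow_sub_pow_le' α (α + μ) hα.le (by linarith) m
  rw [hm] at h1 h2 ⊢
  have h4 : α + μ - α = μ := by ring
  rw [h4] at h3
  linarith

/-- `0.51^m` versus exponentials. -/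
lemma small_pow (N : ℝ) (m : ℕ) (hN : 10 ^ 10 ≤ N) (hm : N = (m : ℝ) + 2) :
    2 * ((m : ℝ) + 1) * (51 / 100 : ℝ) ^ m ≤ Real.exp (-(N / 4)) := by
  have h1 : (51 / 100 : ℝ) ^ m ≤ Real.exp (-(49 / 100) * m) := by
    have h2 := Real.add_one_le_exp (-(49 / 100) : ℝ)
    have h3 : (51 / 100 : ℝ) ≤ Real.exp (-(49 / 100)) := by linarith
    calc (51 / 100 : ℝ) ^ m ≤ (Real.exp (-(49 / 100))) ^ m := pow_le_pow_left₀ (by norm_num) h3 m
      _ = _ := by rw [← Real.exp_nat_mul]; ring_nf
  have hm1 : 2 * ((m : ℝ) + 1) ≤ 2 * N := by linarith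
  calc 2 * ((m : ℝ) + 1) * (51 / 100 : ℝ) ^ m ≤ 2 * N * Real.exp (-(49 / 100) * m) := by
        apply mul_le_mul hm1 h1 (by positivity) (by linarith)
    _ ≤ Real.exp (-(N / 4)) := by
        have h5 : Real.exp (-(49 / 100) * m) = Real.exp (-(N/4)) * Real.exp (-(24/100 * N - 98/100)) := by
          rw [← Real.exp_add]; congr 1; rw [hm]; ring
        rw [h5]
        have h6 : 2 * N * Real.exp (-(24/100 * N - 98/100)) ≤ 1 := by
          rw [Real.exp_neg, ← div_eq_mul_inv, div_le_one (Real.exp_pos _)]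
          have h7 : (10 : ℝ) ^ 10 = 10000000000 := by norm_num
          have h8 : 0 ≤ 24/100 * N - 98/100 := by linarith
          have h9 := exp_lb _ h8
          have h10 : (0:ℝ) ≤ (24/100 * N - 98/100) ^ 3 := by positivity
          nlinarith
        calc 2 * N * (Real.exp (-(N/4)) * Real.exp (-(24/100 * N - 98/100)))
            = Real.exp (-(N/4)) * (2 * N * Real.exp (-(24/100 * N - 98/100))) := by ring
          _ ≤ Real.exp (-(N/4)) * 1 := by
            apply mul_le_mul_of_nonneg_left h6 (Real.exp_pos _).le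
          _ = _ := by ring

section

variable {N : ℕ} {a : ℝ} {w : Fin N → ℂ} {p : ℂ → ℂ}

namespace Cfg

/-- `η_k = v_k/C - 1`. -/
noncomputable def eta (a : ℝ) (w : Fin N → ℂ) (k : Fin N) : ℂ := vv a w k / CC a w - 1

lemma sum_eta (h : Cfg N a w p) (hC : CC a w ≠ 0) : ∑ k, eta a w k = 0 := by
  unfold eta
  rw [Finset.sum_sub_distrib, ← Finset.sum_div, h.sum_vv]
  simp
  field_simp
  simp

/-- precise evaluation of `p` at `a - 1/C`. -/
lemma near_eps (h : Cfg N a w p) (hC : 9 / 10 ≤ ‖CC a w‖) (hQ : ∑ k, ‖eta a w k‖ ^ 2 ≤ 200) :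
    ‖((N : ℂ) + 1) * CC a w * p (a - (CC a w)⁻¹) / DD a w + 1‖
      ≤ 32 * (∑ k, ‖eta a w k‖ ^ 2) / N ^ 2 := by
  have hN := h.Npos
  have hNb := h.hN
  have hC0 : CC a w ≠ 0 := by
    intro h0; rw [h0, norm_zero] at hC; norm_num at hC
  have hD := h.DD_ne
  set C := CC a w with hCdef
  set u := C⁻¹ with hu
  have huC : u * C = 1 := by rw [hu]; field_simp
  set Q := ∑ k, ‖eta a w k‖ ^ 2 with hQdef
  have hQ0 : 0 ≤ Q := Finset.sum_nonneg (fun _ _ => sq_nonneg _)
  have huv : ∀ k, u * vv a w k = 1 + eta a w k := by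
    intro k; rw [eta, ← hCdef, hu]; field_simp; ring
  have hsum := h.sum_eta (by rw [← hCdef]; exact hC0)
  -- products
  set P : ℝ → ℂ := fun t : ℝ => ∏ k, (1 - ((t : ℂ) * u) * vv a w k) with hP
  set G : ℝ → Fin N → ℂ := fun t k =>
    ∏ j ∈ Finset.univ.erase k, (1 - ((t : ℂ) * u) * vv a w j) with hG
  have hPG : ∀ t k, P t = (1 - t * (1 + eta a w k)) * G t k := by
    intro t k
    simp only [hP, hG]
    rw [← Finset.mul_prod_erase _ _ (Finset.mem_univ k), mul_assoc, huv]
  have hPd : ∀ t : ℝ, HasDerivAt P (-(∑ k, (1 + eta a w k) * G t k)) t := by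
    intro t
    have h1 : ∀ k ∈ (Finset.univ : Finset (Fin N)),
        HasDerivAt (fun t : ℝ => 1 - ((t : ℂ) * u) * vv a w k) (-(u * vv a w k)) t := by
      intro k _
      have h3 : HasDerivAt (fun τ : ℝ => (τ : ℂ)) 1 t := Complex.ofRealCLM.hasDerivAt
      have h4 := ((h3.mul_const u).mul_const (vv a w k)).const_sub (1 : ℂ)
      simpa using h4
    have h2 := HasDerivAt.fun_finsetProd h1
    refine h2.congr_deriv ?_
    rw [← Finset.sum_neg_distrib]
    apply Finset.sum_congr rfl
    intro k _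
    rw [smul_eq_mul, huv]
    ring
  set R1 : ℝ → ℂ := fun t => ∑ k, eta a w k * G t k with hR1
  set R2 : ℝ → ℂ := fun t => ∑ k, eta a w k ^ 2 * G t k with hR2
  -- (1-t) G = P + t η G
  have hone : ∀ t : ℝ, ∀ k, (1 - (t : ℂ)) * G t k = P t + t * eta a w k * G t k := by
    intro t k; rw [hPG t k]; ring
  have hR12 : ∀ t : ℝ, (1 - (t : ℂ)) * R1 t = t * R2 t := by
    intro t
    simp only [hR1, hR2]
    rw [Finset.mul_sum, Finset.mul_sum]
    have h1 : ∀ k ∈ (Finset.univ : Finset (Fin N)), (1 - (t : ℂ)) * (eta a w k * G t k)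
        = P t * eta a w k + t * (eta a w k ^ 2 * G t k) := by
      intro k _
      have := hone t k
      linear_combination (eta a w k) * this
    rw [Finset.sum_congr rfl h1, Finset.sum_add_distrib, ← Finset.mul_sum, hsum, mul_zero,
      zero_add]
  set H : ℝ → ℂ := fun t => (1 - (t : ℂ)) * P t
    - ((N : ℂ) + 1) * C / DD a w * p ((a : ℂ) - t * u) with hH
  have hHd : ∀ t : ℝ, HasDerivAt H (-(t * (R1 t + R2 t))) t := by
    intro t
    have h3 : HasDerivAt (fun τ : ℝ => 1 - (τ : ℂ)) (-1) t := by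
      have h4 : HasDerivAt (fun τ : ℝ => (τ : ℂ)) 1 t := Complex.ofRealCLM.hasDerivAt
      simpa using h4.const_sub 1
    have h5 := (h3.mul (hPd t)).sub
      ((h.hasDerivAt_line u t).const_mul (((N : ℂ) + 1) * C / DD a w))
    refine h5.congr_deriv ?_
    have h6 : ∏ k, (1 - ((t : ℂ) * u) * vv a w k) = P t := rfl
    rw [h6]
    have h7 : ((N : ℂ) + 1) * C / DD a w * (-u * (DD a w * P t)) = -(((N : ℂ) + 1) * P t) := by
      have : ((N : ℂ) + 1) * C / DD a w * (-u * (DD a w * P t))
        = -(((N : ℂ) + 1) * (u * C) * P t) * (DD a w / DD a w) := by ring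
      rw [this, huC, div_self hD]; ring
    rw [h7]
    have h8 : (1 - (t : ℂ)) * -(∑ k, (1 + eta a w k) * G t k)
        = -(N * P t) - t * (R1 t + R2 t) := by
      have h9 : ∀ k ∈ (Finset.univ : Finset (Fin N)), (1 - (t : ℂ)) * ((1 + eta a w k) * G t k)
          = P t + eta a w k * P t + t * (eta a w k * G t k + eta a w k ^ 2 * G t k) := by
        intro k _
        have := hone t k
        linear_combination (1 + eta a w k) * this
      rw [mul_neg, Finset.mul_sum, Finset.sum_congr rfl h9, Finset.sum_add_distrib,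
        Finset.sum_add_distrib, ← Finset.mul_sum, Finset.sum_add_distrib, ← Finset.sum_mul, hsum]
      simp only [Finset.sum_const, Finset.card_univ, Fintype.card_fin, nsmul_eq_mul, hR1, hR2]
      ring
    rw [h8]
    ring
  -- bounds
  have hGb : ∀ t : ℝ, 0 ≤ t → t < 1 → ∀ k, ‖G t k‖ ≤ Real.exp (-(N / 4) * t) := by
    intro t ht0 ht1 k
    refine (h.prod_erase_le ((t : ℂ) * u) k).trans ?_
    apply Real.exp_le_exp.mpr
    have e1 : ((t : ℂ) * u * C).re = t := by
      rw [mul_assoc, huC]; simp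
    have e2 : ‖(t : ℂ) * u‖ ≤ 10 / 9 * t := by
      rw [norm_mul, Complex.norm_real, Real.norm_of_nonneg ht0, hu, norm_inv]
      have : ‖C‖⁻¹ ≤ 10 / 9 := by
        rw [inv_le_comm₀ (by linarith) (by norm_num)]
        norm_num
        exact hC
      nlinarith
    rw [e1]
    set s := Real.sqrt N with hs
    have hs2 : s ^ 2 = N := Real.sq_sqrt hN.le
    have hs0 : 0 < s := Real.sqrt_pos.mpr hN
    have hs10 : 10 ≤ s := by
      rw [hs]; apply Real.le_sqrt_of_sq_le
      have : (10 : ℝ) ^ 10 = 10000000000 := by norm_num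
      linarith
    have e3 : ‖(t : ℂ) * u‖ * s ≤ 10 / 9 * t * s := mul_le_mul_of_nonneg_right e2 hs0.le
    have e4 : ‖(t : ℂ) * u‖ ^ 2 ≤ 100 / 81 * t := by
      have : ‖(t : ℂ) * u‖ ^ 2 ≤ (10 / 9 * t) ^ 2 := pow_le_pow_left₀ (norm_nonneg _) e2 2
      nlinarith
    have e5 : N * ‖(t : ℂ) * u‖ ^ 2 / 2 ≤ N * (100 / 81 * t) / 2 := by
      have := mul_le_mul_of_nonneg_left e4 hN.le
      linarith
    have e6 : t * (10 * s) ≤ t * N := by
      apply mul_le_mul_of_nonneg_left _ ht0
      rw [← hs2]; nlinarith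
    nlinarith
  have hR2b : ∀ t : ℝ, 0 ≤ t → t < 1 → ‖R2 t‖ ≤ Q * Real.exp (-(N / 4) * t) := by
    intro t ht0 ht1
    calc ‖R2 t‖ ≤ ∑ k, ‖eta a w k ^ 2 * G t k‖ := norm_sum_le _ _
      _ ≤ ∑ k, ‖eta a w k‖ ^ 2 * Real.exp (-(N / 4) * t) := by
        apply Finset.sum_le_sum
        intro k _
        rw [norm_mul, norm_pow]
        exact mul_le_mul_of_nonneg_left (hGb t ht0 ht1 k) (sq_nonneg _)
      _ = _ := by rw [← Finset.sum_mul]
  have hR1b : ∀ t : ℝ, 0 ≤ t → t < 1 → ‖R1 t‖ ≤ Q * Real.exp (-(N / 4) * t) := by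
    intro t ht0 ht1
    rcases le_total t (1 / 2) with hle | hge
    · have h1 : ‖R1 t‖ * (1 - t) = t * ‖R2 t‖ := by
        have h2 := congrArg norm (hR12 t)
        rw [norm_mul, norm_mul, Complex.norm_real, Real.norm_of_nonneg ht0] at h2
        have h3 : ‖1 - (t : ℂ)‖ = 1 - t := by
          rw [show (1 : ℂ) - t = ((1 - t : ℝ) : ℂ) by push_cast; ring, Complex.norm_real,
            Real.norm_of_nonneg (by linarith)]
        rw [h3] at h2
        linarith
      have h4 : ‖R1 t‖ ≤ ‖R2 t‖ := by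
        nlinarith [norm_nonneg (R1 t), norm_nonneg (R2 t)]
      exact h4.trans (hR2b t ht0 ht1)
    · -- t ≥ 1/2
      obtain ⟨m, hm⟩ : ∃ m : ℕ, N = m + 2 := by
        have : 2 ≤ N := by
          have h1 : (2 : ℝ) ≤ N := by
            have : (10 : ℝ) ^ 10 = 10000000000 := by norm_num
            linarith
          exact_mod_cast h1
        exact ⟨N - 2, by omega⟩
      have hmR : (N : ℝ) = (m : ℝ) + 2 := by rw [hm]; push_cast; ring
      set μ := 2 * Real.sqrt (Q / N) with hμ
      have hμ0 : 0 ≤ μ := by positivity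
      have hsq : Real.sqrt (Q / N) ^ 2 = Q / N := Real.sq_sqrt (by positivity)
      have hμs : μ ≤ 1 / 100 := by
        rw [hμ]
        have h1 : Real.sqrt (Q / N) ≤ 1 / 200 := by
          apply Real.sqrt_le_iff.mpr
          refine ⟨by norm_num, ?_⟩
          rw [div_le_iff₀ hN]
          have : (10 : ℝ) ^ 10 = 10000000000 := by norm_num
          nlinarith
        linarith
      have hse : ∑ k, ‖eta a w k‖ ≤ N * Real.sqrt (Q / N) := by
        have h1 : (∑ k, ‖eta a w k‖) ^ 2 ≤ (N * Real.sqrt (Q / N)) ^ 2 := by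
          have h2 : (∑ k, ‖eta a w k‖) ^ 2 ≤ ((Finset.univ : Finset (Fin N)).card : ℝ)
            * ∑ k, ‖eta a w k‖ ^ 2 := sq_sum_le_card_mul_sum_sq
          rw [Finset.card_univ, Fintype.card_fin] at h2
          rw [mul_pow, hsq]
          refine h2.trans (le_of_eq ?_)
          rw [← hQdef]
          field_simp
        exact le_of_sq_le_sq h1 (by positivity)
      have hk : ∀ k, ‖G t k - ((1 - t : ℝ) : ℂ) ^ (m + 1)‖ ≤
          ((m : ℝ) + 1) * μ * (51 / 100) ^ m := by
        intro k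
        have hcard : (Finset.univ.erase k : Finset (Fin N)).card = m + 1 := by
          rw [Finset.card_erase_of_mem (Finset.mem_univ k), Finset.card_univ, Fintype.card_fin, hm]
          rfl
        have h1 := norm_prod_add_sub_le' (Finset.univ.erase k) m hcard (1 - t) μ (by linarith) hμ0
          (fun j => -(t * eta a w j)) (by
            calc ∑ j ∈ Finset.univ.erase k, ‖-((t : ℂ) * eta a w j)‖
                ≤ ∑ j, ‖-((t : ℂ) * eta a w j)‖ :=
                  Finset.sum_le_sum_of_subset_of_nonneg (Finset.erase_subset _ _)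
                    (fun i _ _ => norm_nonneg _)
              _ ≤ ∑ j, ‖eta a w j‖ := by
                  apply Finset.sum_le_sum
                  intro j _
                  rw [norm_neg, norm_mul, Complex.norm_real, Real.norm_of_nonneg ht0]
                  nlinarith [norm_nonneg (eta a w j)]
              _ ≤ N * Real.sqrt (Q / N) := hse
              _ ≤ ((m : ℝ) + 1) * μ := by
                  rw [hμ, hmR]
                  have : 0 ≤ Real.sqrt (Q / ((m : ℝ) + 2)) := Real.sqrt_nonneg _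
                  have hm0 : (0 : ℝ) ≤ m := Nat.cast_nonneg m
                  nlinarith)
        rw [hcard] at h1
        have h2 : ∏ i ∈ Finset.univ.erase k, (((1 - t : ℝ) : ℂ) + -(t * eta a w i)) = G t k := by
          simp only [hG]
          apply Finset.prod_congr rfl
          intro j _
          rw [mul_assoc, huv]
          push_cast; ring
        rw [h2] at h1
        refine h1.trans ?_
        apply mul_le_mul_of_nonneg_left _ (by positivity)
        apply pow_le_pow_left₀ (by linarith)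
        linarith
      have hR1eq : R1 t = ∑ k, eta a w k * (G t k - ((1 - t : ℝ) : ℂ) ^ (m + 1)) := by
        simp only [hR1]
        have : ∑ k, eta a w k * (G t k - ((1 - t : ℝ) : ℂ) ^ (m + 1))
          = ∑ k, eta a w k * G t k - (∑ k, eta a w k) * ((1 - t : ℝ) : ℂ) ^ (m + 1) := by
          rw [Finset.sum_mul, ← Finset.sum_sub_distrib]
          apply Finset.sum_congr rfl
          intro k _
          ring
        rw [this, hsum]; ring
      rw [hR1eq]
      calc ‖∑ k, eta a w k * (G t k - ((1 - t : ℝ) : ℂ) ^ (m + 1))‖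
          ≤ ∑ k, ‖eta a w k‖ * (((m : ℝ) + 1) * μ * (51 / 100) ^ m) := by
            refine (norm_sum_le _ _).trans ?_
            apply Finset.sum_le_sum
            intro k _
            rw [norm_mul]
            exact mul_le_mul_of_nonneg_left (hk k) (norm_nonneg _)
        _ = (∑ k, ‖eta a w k‖) * (((m : ℝ) + 1) * μ * (51 / 100) ^ m) := by
            rw [Finset.sum_mul]
        _ ≤ (N * Real.sqrt (Q / N)) * (((m : ℝ) + 1) * μ * (51 / 100) ^ m) := by
            apply mul_le_mul_of_nonneg_right hse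
            positivity
        _ = (N * Real.sqrt (Q / N) ^ 2) * (2 * ((m : ℝ) + 1) * (51 / 100) ^ m) := by
            rw [hμ]; ring
        _ = Q * (2 * ((m : ℝ) + 1) * (51 / 100) ^ m) := by
            rw [hsq]; field_simp
        _ ≤ Q * Real.exp (-(N / 4)) := by
            apply mul_le_mul_of_nonneg_left _ hQ0
            exact small_pow N m hNb hmR
        _ ≤ Q * Real.exp (-(N / 4) * t) := by
            apply mul_le_mul_of_nonneg_left _ hQ0
            apply Real.exp_le_exp.mpr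
            nlinarith
  have key := norm_sub_le_of_deriv_le H (fun t => -(t * (R1 t + R2 t))) (2 * Q) (N / 4) 1
    (by positivity) (by positivity) (by norm_num) (fun t _ => hHd t) (by
      intro t ht
      rw [norm_neg, norm_mul, Complex.norm_real, Real.norm_of_nonneg ht.1]
      have h1 := hR1b t ht.1 ht.2
      have h2 := hR2b t ht.1 ht.2
      have h3 : ‖R1 t + R2 t‖ ≤ 2 * Q * Real.exp (-(N / 4) * t) := by
        refine (norm_add_le _ _).trans ?_
        linarith
      calc t * ‖R1 t + R2 t‖ ≤ t * (2 * Q * Real.exp (-(N / 4) * t)) :=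
            mul_le_mul_of_nonneg_left h3 ht.1
        _ = _ := by ring)
  have hH0 : H 0 = 1 := by simp [hH, hP, h.hpa]
  have hH1 : H 1 = -(((N : ℂ) + 1) * C * p (a - u) / DD a w) := by
    simp only [hH, Complex.ofReal_one, sub_self, zero_mul, one_mul]
    ring
  have hfin : ((N : ℂ) + 1) * C * p (a - u) / DD a w + 1 = -(H 1 - H 0) := by
    rw [hH0, hH1]; ring
  rw [hfin, norm_neg]
  refine key.trans (le_of_eq ?_)
  field_simp
  ring

end Cfg

end

end Pool.Agent.MPf0bc87
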