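import Pool.Agent.Work.MP_f0bc87_an.Near

/-!
The regime where `a` and `|C|` are within `O(1/N)` of `1`: conclusion.
-/

set_option autoImplicit false

namespace Pool.Agent.MPf0bc87

open Finset

open scoped ComplexConjugate

lemma half_pow_small (N : ℝ) (m : ℕ) (hN : 10 ^ 10 ≤ N) (hm : N = (m : ℝ) + 2) :
    (N + 1) * (1 / 2 : ℝ) ^ m ≤ 1 / 1000 := by
  have h1 : (1 / 2 : ℝ) ^ m ≤ Real.exp (-(1 / 2) * m) := by
    have h2 := Real.add_one_le_exp (-(1 / 2) : ℝ)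
    have h3 : (1 / 2 : ℝ) ≤ Real.exp (-(1 / 2)) := by linarith
    calc (1 / 2 : ℝ) ^ m ≤ (Real.exp (-(1 / 2))) ^ m := pow_le_pow_left₀ (by norm_num) h3 m
      _ = _ := by rw [← Real.exp_nat_mul]; ring_nf
  have h7 : (10 : ℝ) ^ 10 = 10000000000 := by norm_num
  have hm0 : (0 : ℝ) ≤ m := Nat.cast_nonneg m
  have h4 : Real.exp (-(1 / 2) * m) ≤ 1 / (1000 * (N + 1)) := by
    rw [neg_mul, Real.exp_neg, ← one_div]
    apply one_div_le_one_div_of_le (by positivity)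
    have h8 := exp_lb (1 / 2 * m) (by positivity)
    have h10 : (0:ℝ) ≤ (1 / 2 * (m : ℝ)) ^ 3 := by positivity
    nlinarith
  calc (N + 1) * (1 / 2 : ℝ) ^ m ≤ (N + 1) * (1 / (1000 * (N + 1))) := by
        apply mul_le_mul_of_nonneg_left (h1.trans h4); linarith
    _ = 1 / 1000 := by
        have : N + 1 ≠ 0 := by linarith
        field_simp

section

variable {N : ℕ} {a : ℝ} {w : Fin N → ℂ} {p : ℂ → ℂ}

namespace Cfg

/-- `W = ∑ |v_k - C|²`. -/
noncomputable def WW (a : ℝ) (w : Fin N → ℂ) : ℝ := ∑ k, ‖vv a w k - CC a w‖ ^ 2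

lemma WW_nonneg : 0 ≤ WW a w := Finset.sum_nonneg (fun _ _ => sq_nonneg _)

lemma WW_eq (h : Cfg N a w p) : WW a w = ∑ k, ‖vv a w k‖ ^ 2 - N * ‖CC a w‖ ^ 2 := by
  have h1 : ∀ k, ‖vv a w k - CC a w‖ ^ 2 = ‖vv a w k‖ ^ 2
      - 2 * (vv a w k * conj (CC a w)).re + ‖CC a w‖ ^ 2 := by
    intro k
    rw [← Complex.normSq_eq_norm_sq, ← Complex.normSq_eq_norm_sq, ← Complex.normSq_eq_norm_sq,
      Complex.normSq_sub]
    ring
  rw [WW, Finset.sum_congr rfl (fun k _ => h1 k), Finset.sum_add_distrib, Finset.sum_sub_distrib,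
    ← Finset.mul_sum, ← Complex.re_sum, ← Finset.sum_mul, h.sum_vv]
  have h2 : ((N : ℂ) * CC a w * conj (CC a w)).re = N * ‖CC a w‖ ^ 2 := by
    rw [mul_assoc, Complex.mul_conj, Complex.normSq_eq_norm_sq]
    rw [← Complex.ofReal_natCast, ← Complex.ofReal_mul, Complex.ofReal_re]
  rw [h2]
  simp only [Finset.sum_const, Finset.card_univ, Fintype.card_fin, nsmul_eq_mul]
  ring

lemma WW_le (h : Cfg N a w p) : WW a w ≤ N * (1 - ‖CC a w‖ ^ 2) := by
  rw [h.WW_eq]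
  have := h.sum_sq_le
  linarith

lemma sum_eta_sq (_h : Cfg N a w p) (hC : CC a w ≠ 0) :
    ∑ k, ‖eta a w k‖ ^ 2 = WW a w / ‖CC a w‖ ^ 2 := by
  have h1 : ∀ k, ‖eta a w k‖ ^ 2 = ‖vv a w k - CC a w‖ ^ 2 / ‖CC a w‖ ^ 2 := by
    intro k
    have : eta a w k = (vv a w k - CC a w) / CC a w := by
      rw [eta]; field_simp
    rw [this, norm_div, div_pow]
  rw [Finset.sum_congr rfl (fun k _ => h1 k), ← Finset.sum_div]
  rfl

/-- `c = a - 1/C` -/
noncomputable def cc (a : ℝ) (w : Fin N → ℂ) : ℂ := (a : ℂ) - (CC a w)⁻¹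

/-- consequences of `1 - 80/N ≤ a |C|`. -/
lemma near_basic (h : Cfg N a w p) (hac : 1 - 80 / N ≤ a * ‖CC a w‖) :
    99 / 100 ≤ ‖CC a w‖ ∧ WW a w ≤ 160 ∧ ‖cc a w‖ ≤ 6 / Real.sqrt N := by
  have hN := h.Npos
  have hNb := h.hN
  have h7 : (10 : ℝ) ^ 10 = 10000000000 := by norm_num
  have ha0 := h.ha0
  have ha1 := h.ha1
  have hC1 := h.norm_CC_le
  have hC0 := norm_nonneg (CC a w)
  have hη : 80 / (N : ℝ) ≤ 1 / 100000000 := by
    rw [div_le_div_iff₀ hN (by norm_num)]; linarith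
  have hη0 : 0 < 80 / (N : ℝ) := by positivity
  have hCl : 1 - 80 / N ≤ ‖CC a w‖ := by nlinarith
  have hal : 1 - 80 / N ≤ a := by nlinarith
  refine ⟨by linarith, ?_, ?_⟩
  · have h1 := h.WW_le
    have h2 : 1 - ‖CC a w‖ ^ 2 ≤ 2 * (80 / N) := by nlinarith
    have h3 : N * (1 - ‖CC a w‖ ^ 2) ≤ N * (2 * (80 / N)) := mul_le_mul_of_nonneg_left h2 hN.le
    have h4 : N * (2 * (80 / N)) = (160 : ℝ) := by field_simp; norm_num
    linarith
  · have hCne : CC a w ≠ 0 := by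
      intro h0; rw [h0, norm_zero] at hCl; linarith
    set s := Real.sqrt N with hs
    have hs2 : s ^ 2 = N := Real.sq_sqrt hN.le
    have hs0 : 0 < s := Real.sqrt_pos.mpr hN
    have hs5 : 10 ^ 5 ≤ s := by
      rw [hs]; apply Real.le_sqrt_of_sq_le
      have h55 : ((10 : ℝ) ^ 5) ^ 2 = 10 ^ 10 := by norm_num
      rw [h55]; exact hNb
    have hY5 : s * ‖bb a w‖ ≤ 5 := by
      have h1 := h.caseA
      have h2 : (s * ‖bb a w‖) ^ 2 = N * ‖bb a w‖ ^ 2 := by rw [mul_pow, hs2]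
      have h3 : 0 ≤ s * ‖bb a w‖ := by positivity
      nlinarith
    have hbs : ‖bb a w‖ ≤ 5 / s := by
      rw [le_div_iff₀ hs0]; linarith
    have e1 : cc a w = ((a : ℂ) * CC a w - 1) / CC a w := by
      rw [cc]; field_simp
    have e2 : ‖(a : ℂ) * CC a w - 1‖ ≤ ‖bb a w‖ + 2 * (80 / N) := by
      have e3 : (a : ℂ) * CC a w - 1 = -((a : ℂ) * conj (bb a w)) + ((a ^ 2 - 1 : ℝ) : ℂ) := by
        rw [bb]; simp; ring
      rw [e3]
      refine (norm_add_le _ _).trans ?_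
      rw [norm_neg, norm_mul, Complex.norm_conj, Complex.norm_real, Complex.norm_real,
        Real.norm_of_nonneg ha0, Real.norm_eq_abs]
      have e4 : |a ^ 2 - 1| ≤ 2 * (80 / (N : ℝ)) := by
        rw [abs_le]; constructor <;> nlinarith
      have e5 : a * ‖bb a w‖ ≤ ‖bb a w‖ := by nlinarith [norm_nonneg (bb a w)]
      linarith
    rw [e1, norm_div, div_le_div_iff₀ (by linarith) hs0]
    have e6 : 2 * (80 / (N : ℝ)) ≤ 1 / 100 / s := by
      rw [← hs2]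
      have : 2 * (80 / s ^ 2) = (160 / s) / s := by field_simp; norm_num
      rw [this]
      apply div_le_div_of_nonneg_right _ hs0.le
      rw [div_le_iff₀ hs0]
      have : (10 : ℝ) ^ 5 = 100000 := by norm_num
      linarith
    have e7 : (‖bb a w‖ + 2 * (80 / N)) * s ≤ 5.01 := by
      have e8 : ‖bb a w‖ + 2 * (80 / N) ≤ 5.01 / s := by
        have : (5.01 : ℝ) / s = 5 / s + 1 / 100 / s := by field_simp; norm_num
        rw [this]
        linarith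
      calc (‖bb a w‖ + 2 * (80 / N)) * s ≤ 5.01 / s * s := mul_le_mul_of_nonneg_right e8 hs0.le
        _ = 5.01 := by field_simp
    have e9 : ‖(a : ℂ) * CC a w - 1‖ * s ≤ (‖bb a w‖ + 2 * (80 / N)) * s :=
      mul_le_mul_of_nonneg_right e2 hs0.le
    norm_num at e7
    linarith

/-- `|p(c)| ≥ 1 + W/(4N)`. -/
lemma near_pc (h : Cfg N a w p) (hac : 1 - 80 / N ≤ a * ‖CC a w‖) :
    1 + WW a w / N / 4 ≤ ‖p (cc a w)‖ := by
  obtain ⟨hC, hW, -⟩ := h.near_basic hac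
  have hN := h.Npos
  have hNb := h.hN
  have h7 : (10 : ℝ) ^ 10 = 10000000000 := by norm_num
  have hCne : CC a w ≠ 0 := by
    intro h0; rw [h0, norm_zero] at hC; norm_num at hC
  have hC0 : 0 < ‖CC a w‖ := norm_pos_iff.mpr hCne
  have hC1 := h.norm_CC_le
  have hW0 : 0 ≤ WW a w := WW_nonneg
  have hQ := h.sum_eta_sq hCne
  have hQle : WW a w / ‖CC a w‖ ^ 2 ≤ 5 / 4 * WW a w := by
    rw [div_le_iff₀ (by positivity)]
    have : (99 / 100 : ℝ) ^ 2 ≤ ‖CC a w‖ ^ 2 := pow_le_pow_left₀ (by norm_num) hC 2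
    nlinarith
  have h1 := h.near_eps (by linarith) (by rw [hQ]; linarith)
  rw [hQ] at h1
  have hD0 : 0 < ‖DD a w‖ := norm_pos_iff.mpr h.DD_ne
  have h2 : 1 - 40 * WW a w / N ^ 2 ≤ ‖((N : ℂ) + 1) * CC a w * p (cc a w) / DD a w‖ := by
    have h5 := norm_sub_le (((N : ℂ) + 1) * CC a w * p (cc a w) / DD a w + 1)
      (((N : ℂ) + 1) * CC a w * p (cc a w) / DD a w)
    have h6 : (((N : ℂ) + 1) * CC a w * p (cc a w) / DD a w + 1)
      - (((N : ℂ) + 1) * CC a w * p (cc a w) / DD a w) = 1 := by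
      ring
    rw [h6, norm_one] at h5
    have h8 : 32 * (WW a w / ‖CC a w‖ ^ 2) / N ^ 2 ≤ 40 * WW a w / N ^ 2 := by
      apply div_le_div_of_nonneg_right _ (by positivity)
      linarith
    have h9 : ‖((N : ℂ) + 1) * CC a w * p (cc a w) / DD a w + 1‖
      ≤ 32 * (WW a w / ‖CC a w‖ ^ 2) / N ^ 2 := h1
    linarith
  have hN1 : ‖(N : ℂ) + 1‖ = (N : ℝ) + 1 := by
    rw [show (N : ℂ) + 1 = ((N + 1 : ℕ) : ℂ) by push_cast; ring, Complex.norm_natCast]
    push_cast; ring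
  rw [norm_div, norm_mul, norm_mul, hN1, le_div_iff₀ hD0, h.norm_DD] at h2
  have h10 : 1 ≤ Real.exp (Lam a w) := Real.one_le_exp h.Lam_nonneg
  set y := WW a w / N with hy
  have hy0 : 0 ≤ y := by positivity
  have hy1 : y ≤ 1 / 1000000 := by
    rw [hy, div_le_iff₀ hN]; linarith
  have h11 : 40 * WW a w / (N : ℝ) ^ 2 = 40 * y / N := by rw [hy]; field_simp
  rw [h11] at h2
  have h12 : 40 * y / N ≤ y / 100000 := by
    rw [div_le_div_iff₀ hN (by norm_num)]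
    nlinarith
  have h13 : 1 - y / 100000 ≤ ‖CC a w‖ * ‖p (cc a w)‖ := by
    have h14 : (1 - y / 100000) * (((N : ℝ) + 1) * 1) ≤ (1 - 40 * y / N) * (((N : ℝ) + 1) *
        Real.exp (Lam a w)) := by
      apply mul_le_mul (by linarith) _ (by positivity) (by linarith)
      apply mul_le_mul_of_nonneg_left h10 (by positivity)
    have h15 : ((N : ℝ) + 1) * (1 - y / 100000) ≤ ((N : ℝ) + 1) * (‖CC a w‖ * ‖p (cc a w)‖) := by
      linarith
    exact le_of_mul_le_mul_left h15 (by positivity)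
  -- ‖C‖ (1 + y/2) ≤ 1
  have h16 : ‖CC a w‖ * (1 + y / 2) ≤ 1 := by
    have h17 : ‖CC a w‖ ^ 2 ≤ 1 - y := by
      have h18 := h.WW_le
      rw [hy]
      have : WW a w / N ≤ 1 - ‖CC a w‖ ^ 2 := by
        rw [div_le_iff₀ hN]; linarith
      linarith
    have h19 : (‖CC a w‖ * (1 + y / 2)) ^ 2 ≤ 1 ^ 2 := by
      rw [mul_pow]
      calc ‖CC a w‖ ^ 2 * (1 + y / 2) ^ 2 ≤ (1 - y) * (1 + y / 2) ^ 2 :=
            mul_le_mul_of_nonneg_right h17 (sq_nonneg _)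
        _ ≤ 1 ^ 2 := by nlinarith [mul_nonneg hy0 hy0, mul_nonneg (mul_nonneg hy0 hy0) hy0]
    exact le_of_sq_le_sq h19 (by norm_num)
  have h20 : (1 - y / 100000) * (1 + y / 2) ≤ ‖p (cc a w)‖ := by
    calc (1 - y / 100000) * (1 + y / 2) ≤ (‖CC a w‖ * ‖p (cc a w)‖) * (1 + y / 2) :=
          mul_le_mul_of_nonneg_right h13 (by positivity)
      _ = (‖CC a w‖ * (1 + y / 2)) * ‖p (cc a w)‖ := by ring
      _ ≤ 1 * ‖p (cc a w)‖ := mul_le_mul_of_nonneg_right h16 (norm_nonneg _)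
      _ = _ := one_mul _
  nlinarith

/-- `∑ |w_k - c|² ≤ 5 W`. -/
lemma near_sum_w (h : Cfg N a w p) (hac : 1 - 80 / N ≤ a * ‖CC a w‖) :
    ∑ k, ‖w k - cc a w‖ ^ 2 ≤ 5 * WW a w := by
  obtain ⟨hC, hW, -⟩ := h.near_basic hac
  have hCne : CC a w ≠ 0 := by
    intro h0; rw [h0, norm_zero] at hC; norm_num at hC
  rw [WW, Finset.mul_sum]
  apply Finset.sum_le_sum
  intro k _
  have hv := h.vv_ne k
  have hv2 := h.norm_vv_ge k
  have e1 : w k - cc a w = (vv a w k - CC a w) / (CC a w * vv a w k) := by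
    have h1 : w k = (a : ℂ) - (vv a w k)⁻¹ := by rw [vv, inv_inv]; ring
    rw [cc]
    rw [h1]
    field_simp
    ring
  rw [e1, norm_div, norm_mul, div_pow, div_le_iff₀ (by positivity)]
  have e2 : 1 ≤ 5 * (‖CC a w‖ * ‖vv a w k‖) ^ 2 := by
    have : 99 / 100 * (1 / 2) ≤ ‖CC a w‖ * ‖vv a w k‖ := mul_le_mul hC hv2 (by norm_num) (by linarith)
    have : (99 / 100 * (1 / 2)) ^ 2 ≤ (‖CC a w‖ * ‖vv a w k‖) ^ 2 :=
      pow_le_pow_left₀ (by norm_num) this 2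
    norm_num at this
    linarith
  nlinarith [sq_nonneg ‖vv a w k - CC a w‖]

/-- the mean of the critical points is very close to `c`. -/
lemma near_mean (h : Cfg N a w p) (hac : 1 - 80 / N ≤ a * ‖CC a w‖) :
    ‖(∑ k, w k) / N - cc a w‖ ≤ 3 * (WW a w / N) := by
  obtain ⟨hC, hW, -⟩ := h.near_basic hac
  have hN := h.Npos
  have hNne := h.Nne
  have hCne : CC a w ≠ 0 := by
    intro h0; rw [h0, norm_zero] at hC; norm_num at hC
  have e1 : ∀ k, w k - cc a w = (vv a w k - CC a w) / CC a w ^ 2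
      - (vv a w k - CC a w) ^ 2 / (CC a w ^ 2 * vv a w k) := by
    intro k
    have hv := h.vv_ne k
    have h1 : w k = (a : ℂ) - (vv a w k)⁻¹ := by rw [vv, inv_inv]; ring
    rw [cc]
    rw [h1]
    field_simp
    ring
  have e2 : ∑ k, (vv a w k - CC a w) = 0 := by
    rw [Finset.sum_sub_distrib, h.sum_vv]; simp
  have e3 : (∑ k, w k) / N - cc a w = (∑ k, (w k - cc a w)) / N := by
    rw [Finset.sum_sub_distrib]
    simp only [Finset.sum_const, Finset.card_univ, Fintype.card_fin, nsmul_eq_mul]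
    field_simp
  have e4 : ∑ k, (w k - cc a w) = - ∑ k, (vv a w k - CC a w) ^ 2 / (CC a w ^ 2 * vv a w k) := by
    rw [Finset.sum_congr rfl (fun k _ => e1 k), Finset.sum_sub_distrib, ← Finset.sum_div, e2]
    simp
  rw [e3, e4, norm_div, norm_neg, Complex.norm_natCast, div_le_iff₀ hN]
  have e5 : 3 * (WW a w / N) * N = ∑ k, 3 * ‖vv a w k - CC a w‖ ^ 2 := by
    rw [← Finset.mul_sum, WW]; field_simp
  rw [e5]
  refine (norm_sum_le _ _).trans ?_
  apply Finset.sum_le_sum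
  intro k _
  have hv := h.vv_ne k
  have hv0 : 0 < ‖vv a w k‖ := norm_pos_iff.mpr hv
  have hv2 := h.norm_vv_ge k
  rw [norm_div, norm_pow, norm_mul, norm_pow, div_le_iff₀ (by positivity)]
  have e6 : 1 ≤ 3 * (‖CC a w‖ ^ 2 * ‖vv a w k‖) := by
    have h9 : (99 / 100 : ℝ) ^ 2 ≤ ‖CC a w‖ ^ 2 := pow_le_pow_left₀ (by norm_num) hC 2
    have : (99 / 100 : ℝ) ^ 2 * (1 / 2) ≤ ‖CC a w‖ ^ 2 * ‖vv a w k‖ :=
      mul_le_mul h9 hv2 (by norm_num) (by positivity)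
    norm_num at this
    linarith
  nlinarith [sq_nonneg ‖vv a w k - CC a w‖]

/-- bound for the derivative near `c`. -/
lemma near_deriv (h : Cfg N a w p) (hac : 1 - 80 / N ≤ a * ‖CC a w‖) (T : ℝ) (hT : 0 < T)
    (hT2 : 18 * ‖cc a w‖ ^ 2 + 10 * (WW a w / N) ≤ T ^ 2) (z : ℂ)
    (hz : ‖z - cc a w‖ ≤ 3 * ‖cc a w‖) :
    ‖((N : ℂ) + 1) * ∏ k, (z - w k)‖ ≤ ((N : ℝ) + 1) * T ^ N := by
  have hN := h.Npos
  have hN1 : ‖(N : ℂ) + 1‖ = (N : ℝ) + 1 := by
    rw [show (N : ℂ) + 1 = ((N + 1 : ℕ) : ℂ) by push_cast; ring, Complex.norm_natCast]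
    push_cast; ring
  rw [norm_mul, hN1]
  apply mul_le_mul_of_nonneg_left _ (by positivity)
  rw [norm_prod]
  have h1 : ∑ k, ‖z - w k‖ ^ 2 ≤ (N : ℝ) * T ^ 2 := by
    have h2 : ∀ k, ‖z - w k‖ ^ 2 ≤ 2 * ‖z - cc a w‖ ^ 2 + 2 * ‖w k - cc a w‖ ^ 2 := by
      intro k
      have h3 : ‖z - w k‖ ≤ ‖z - cc a w‖ + ‖w k - cc a w‖ := by
        have : z - w k = (z - cc a w) - (w k - cc a w) := by ring
        rw [this]; exact norm_sub_le _ _
      have h4 : ‖z - w k‖ ^ 2 ≤ (‖z - cc a w‖ + ‖w k - cc a w‖) ^ 2 :=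
        pow_le_pow_left₀ (norm_nonneg _) h3 2
      nlinarith [sq_nonneg (‖z - cc a w‖ - ‖w k - cc a w‖)]
    refine (Finset.sum_le_sum (fun k _ => h2 k)).trans ?_
    rw [Finset.sum_add_distrib, ← Finset.mul_sum, ← Finset.mul_sum]
    simp only [Finset.sum_const, Finset.card_univ, Fintype.card_fin, nsmul_eq_mul]
    have h5 := h.near_sum_w hac
    have h6 : ‖z - cc a w‖ ^ 2 ≤ 9 * ‖cc a w‖ ^ 2 := by
      have : ‖z - cc a w‖ ^ 2 ≤ (3 * ‖cc a w‖) ^ 2 := pow_le_pow_left₀ (norm_nonneg _) hz 2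
      nlinarith
    have h7 : (N : ℝ) * (18 * ‖cc a w‖ ^ 2 + 10 * (WW a w / N)) ≤ N * T ^ 2 :=
      mul_le_mul_of_nonneg_left hT2 hN.le
    have h8 : (N : ℝ) * (18 * ‖cc a w‖ ^ 2 + 10 * (WW a w / N))
      = 18 * (N * ‖cc a w‖ ^ 2) + 10 * WW a w := by field_simp
    have h9 : (N : ℝ) * ‖z - cc a w‖ ^ 2 ≤ N * (9 * ‖cc a w‖ ^ 2) :=
      mul_le_mul_of_nonneg_left h6 hN.le
    linarith
  have h10 := prod_le_pow Finset.univ (fun k => ‖z - w k‖ ^ 2) (fun k _ => sq_nonneg _) (T ^ 2)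
    (by positivity) (by rw [Finset.card_univ, Fintype.card_fin]; exact h1)
  rw [Finset.card_univ, Fintype.card_fin, Finset.prod_pow] at h10
  have h11 : (∏ k, ‖z - w k‖) ^ 2 ≤ (T ^ N) ^ 2 := by
    refine h10.trans (le_of_eq ?_)
    rw [← pow_mul, ← pow_mul, mul_comm]
  exact le_of_sq_le_sq h11 (by positivity)

/-- conclusion of the near regime. -/
lemma near_final (h : Cfg N a w p) (hac : 1 - 80 / N ≤ a * ‖CC a w‖) :
    a = 1 ∧ ∀ k, w k = 0 := by
  obtain ⟨hC, hW, hc6⟩ := h.near_basic hac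
  have hpc := h.near_pc hac
  have hN := h.Npos
  have hNb := h.hN
  have h7 : (10 : ℝ) ^ 10 = 10000000000 := by norm_num
  have hW0 : 0 ≤ WW a w := WW_nonneg
  set c := cc a w with hcdef
  set y := WW a w / N with hy
  have hy0 : 0 ≤ y := by positivity
  have hy1 : y ≤ 1 / 1000000 := by
    rw [hy, div_le_iff₀ hN]; linarith
  have hc5 : ‖c‖ ≤ 1 / 1000 := by
    refine hc6.trans ?_
    have hs0 : 0 < Real.sqrt N := Real.sqrt_pos.mpr hN
    have hs5 : 10 ^ 5 ≤ Real.sqrt N := by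
      apply Real.le_sqrt_of_sq_le
      have h55 : ((10 : ℝ) ^ 5) ^ 2 = 10 ^ 10 := by norm_num
      rw [h55]; exact hNb
    rw [div_le_div_iff₀ hs0 (by norm_num)]
    have : (10 : ℝ) ^ 5 = 100000 := by norm_num
    linarith
  have hp0 := h.hp0
  have ha1 := h.ha1
  have hcz : c = 0 := by
    by_contra hcne
    have hcpos : 0 < ‖c‖ := norm_pos_iff.mpr hcne
    set T := Real.sqrt (18 * ‖c‖ ^ 2 + 10 * y) with hTdef
    have hTsq : T ^ 2 = 18 * ‖c‖ ^ 2 + 10 * y := Real.sq_sqrt (by positivity)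
    have hT0 : 0 < T := Real.sqrt_pos.mpr (by positivity)
    have hThalf : T ≤ 1 / 2 := by
      rw [hTdef]
      apply Real.sqrt_le_iff.mpr
      refine ⟨by norm_num, ?_⟩
      nlinarith
    obtain ⟨m, hm⟩ : ∃ m : ℕ, N = m + 2 := by
      have : 2 ≤ N := by
        have h1 : (2 : ℝ) ≤ N := by linarith
        exact_mod_cast h1
      exact ⟨N - 2, by omega⟩
    have hmR : (N : ℝ) = (m : ℝ) + 2 := by rw [hm]; push_cast; ring
    have hTN : ((N : ℝ) + 1) * T ^ N ≤ 1 / 1000 * T ^ 2 := by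
      have e1 : T ^ N = T ^ m * T ^ 2 := by
        conv_lhs => rw [hm]
        rw [pow_add]
      rw [e1]
      have e2 : T ^ m ≤ (1 / 2) ^ m := pow_le_pow_left₀ hT0.le hThalf m
      have e3 := half_pow_small N m hNb hmR
      calc ((N : ℝ) + 1) * (T ^ m * T ^ 2) = (((N : ℝ) + 1) * T ^ m) * T ^ 2 := by ring
        _ ≤ (((N : ℝ) + 1) * (1 / 2) ^ m) * T ^ 2 := by
            apply mul_le_mul_of_nonneg_right _ (by positivity)
            apply mul_le_mul_of_nonneg_left e2 (by positivity)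
        _ ≤ 1 / 1000 * T ^ 2 := mul_le_mul_of_nonneg_right e3 (by positivity)
    have hlip : ∀ x ∈ Metric.closedBall c (3 * ‖c‖), ∀ z ∈ Metric.closedBall c (3 * ‖c‖),
        ‖p z - p x‖ ≤ (1 / 1000 * T ^ 2) * ‖z - x‖ := by
      intro x hx z hz
      apply Convex.norm_image_sub_le_of_norm_hasDerivWithin_le
        (f' := fun z => ((N : ℂ) + 1) * ∏ k, (z - w k)) (s := Metric.closedBall c (3 * ‖c‖))
        _ _ (convex_closedBall _ _) hx hz
      · intro z _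
        exact (h.hp z).hasDerivWithinAt
      · intro z hz
        rw [Metric.mem_closedBall, dist_eq_norm] at hz
        exact (h.near_deriv hac T hT0 (by rw [hTsq]) z hz).trans hTN
    have hc_mem : c ∈ Metric.closedBall c (3 * ‖c‖) := by
      apply Metric.mem_closedBall_self; positivity
    have h0_mem : (0 : ℂ) ∈ Metric.closedBall c (3 * ‖c‖) := by
      rw [Metric.mem_closedBall, dist_eq_norm, zero_sub, norm_neg]; linarith
    -- first estimate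
    have h1 := hlip 0 h0_mem c hc_mem
    rw [sub_zero] at h1
    have h2 : ‖p c‖ ≤ ‖p 0‖ + 1 / 1000 * T ^ 2 * ‖c‖ := by
      have := norm_sub_norm_le (p c) (p 0)
      linarith
    have h3 : y / 4 ≤ 1 / 1000 * T ^ 2 * ‖c‖ := by linarith
    rw [hTsq] at h3
    have h4 : y ≤ ‖c‖ ^ 3 := by
      have e1 : 1 / 1000 * (18 * ‖c‖ ^ 2 + 10 * y) * ‖c‖ = 18 / 1000 * ‖c‖ ^ 3
        + 1 / 100 * (y * ‖c‖) := by ring
      have e2 : y * ‖c‖ ≤ y * 1 := mul_le_mul_of_nonneg_left (by linarith) hy0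
      have e3 : 0 ≤ ‖c‖ ^ 3 := by positivity
      linarith
    have h5 : ‖c‖ ^ 3 ≤ 1 / 1000 * ‖c‖ ^ 2 := by
      have : ‖c‖ ^ 3 = ‖c‖ * ‖c‖ ^ 2 := by ring
      rw [this]; exact mul_le_mul_of_nonneg_right hc5 (sq_nonneg _)
    have h6 : ‖c‖ ^ 2 ≤ 1 / 1000 * ‖c‖ := by nlinarith
    -- the mean
    set mm := (∑ k, w k) / N with hmm
    have h8 : ‖mm - c‖ ≤ 3 * y := h.near_mean hac
    have h9 : ‖mm - c‖ ≤ 1 / 100 * ‖c‖ := by nlinarith
    have hmm_mem : mm ∈ Metric.closedBall c (3 * ‖c‖) := by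
      rw [Metric.mem_closedBall, dist_eq_norm]; linarith
    have h10 := hlip mm hmm_mem c hc_mem
    have h11 : ‖p c‖ ≤ ‖p mm‖ + 1 / 1000 * T ^ 2 * (1 / 100 * ‖c‖) := by
      have := norm_sub_norm_le (p c) (p mm)
      have h12 : 1 / 1000 * T ^ 2 * ‖c - mm‖ ≤ 1 / 1000 * T ^ 2 * (1 / 100 * ‖c‖) := by
        apply mul_le_mul_of_nonneg_left _ (by positivity)
        rw [norm_sub_rev]; exact h9
      linarith
    have h13 : 99 / 100 * ‖c‖ ≤ ‖mm‖ := by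
      have := norm_sub_norm_le c mm
      rw [norm_sub_rev] at this
      linarith
    have h14 : ‖mm‖ ≤ 1 := by
      have := norm_sub_norm_le mm c
      linarith
    have h15 := h.hup mm h14
    have h16 : -(((N : ℝ) + 1) / N) * (conj mm * ∑ k, w k).re + ((N : ℝ) + 1) * ‖mm‖ ^ 2 / 2
        = -(((N : ℝ) + 1) * ‖mm‖ ^ 2 / 2) := by
      have e1 : ∑ k, w k = N * mm := by
        rw [hmm]; have := h.Nne; field_simp
      rw [e1]
      have e2 : (conj mm * ((N : ℂ) * mm)).re = N * ‖mm‖ ^ 2 := by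
        have : conj mm * ((N : ℂ) * mm) = ((N * ‖mm‖ ^ 2 : ℝ) : ℂ) := by
          have e3 : mm * conj mm = ((‖mm‖ ^ 2 : ℝ) : ℂ) := by
            rw [Complex.mul_conj, Complex.normSq_eq_norm_sq]
          calc conj mm * ((N : ℂ) * mm) = N * (mm * conj mm) := by ring
            _ = _ := by rw [e3]; push_cast; ring
        rw [this, Complex.ofReal_re]
      rw [e2]
      field_simp
      ring
    rw [h16] at h15
    have h17 : ‖c‖ ^ 2 ≤ ((N : ℝ) + 1) * ‖mm‖ ^ 2 / 2 := by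
      have e1 : (99 / 100 * ‖c‖) ^ 2 ≤ ‖mm‖ ^ 2 := pow_le_pow_left₀ (by positivity) h13 2
      have e2 : 4 * ‖mm‖ ^ 2 ≤ ((N : ℝ) + 1) * ‖mm‖ ^ 2 :=
        mul_le_mul_of_nonneg_right (by linarith) (sq_nonneg _)
      nlinarith [sq_nonneg ‖c‖]
    have h18 : Real.exp (-(((N : ℝ) + 1) * ‖mm‖ ^ 2 / 2)) ≤ 1 - ‖c‖ ^ 2 / 2 := by
      calc Real.exp (-(((N : ℝ) + 1) * ‖mm‖ ^ 2 / 2)) ≤ Real.exp (-(‖c‖ ^ 2)) :=
            Real.exp_le_exp.mpr (by linarith)
        _ ≤ 1 - ‖c‖ ^ 2 / 2 := by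
            have e1 : Real.exp (-(‖c‖ ^ 2)) ≤ 1 / (‖c‖ ^ 2 + 1) := by
              rw [Real.exp_neg, ← one_div]
              apply one_div_le_one_div_of_le (by positivity) (Real.add_one_le_exp _)
            refine e1.trans ?_
            rw [div_le_iff₀ (by positivity)]
            have e2 : ‖c‖ ^ 2 ≤ 1 := by nlinarith
            nlinarith [sq_nonneg (‖c‖ ^ 2), sq_nonneg ‖c‖]
    have h19 : T ^ 2 ≤ 19 * ‖c‖ ^ 2 := by rw [hTsq]; linarith
    have h20 : 1 / 1000 * T ^ 2 * (1 / 100 * ‖c‖) ≤ 1 / 1000 * ‖c‖ ^ 2 := by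
      have e1 : T ^ 2 * ‖c‖ ≤ 19 * ‖c‖ ^ 2 * 1 :=
        mul_le_mul h19 (by linarith) (norm_nonneg _) (by positivity)
      have : 1 / 1000 * T ^ 2 * (1 / 100 * ‖c‖) = 1 / 100000 * (T ^ 2 * ‖c‖) := by ring
      rw [this]
      nlinarith [sq_nonneg ‖c‖]
    have h21 : 0 < ‖c‖ ^ 2 := by positivity
    linarith
  -- c = 0
  rw [hcz] at hpc
  have hy00 : y = 0 := by linarith
  have hW00 : WW a w = 0 := by
    rw [hy] at hy00
    rcases div_eq_zero_iff.mp hy00 with h1 | h1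
    · exact h1
    · exact absurd h1 hN.ne'
  have h1 := h.near_sum_w hac
  rw [hW00, mul_zero, ← hcdef, hcz] at h1
  have hw : ∀ k, w k = 0 := by
    intro k
    have h2 : ‖w k - 0‖ ^ 2 ≤ 0 :=
      (Finset.single_le_sum (f := fun k => ‖w k - 0‖ ^ 2) (fun i _ => sq_nonneg _)
        (Finset.mem_univ k)).trans h1
    have h3 : ‖w k‖ = 0 := by
      rw [sub_zero] at h2
      nlinarith [norm_nonneg (w k)]
    exact norm_eq_zero.mp h3
  refine ⟨?_, hw⟩
  have hS := h.hS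
  simp only [hw, sub_zero, Complex.norm_real, Real.norm_of_nonneg h.ha0, Finset.sum_const,
    Finset.card_univ, Fintype.card_fin, nsmul_eq_mul] at hS
  have ha0 := h.ha0
  have ha : a ≠ 0 := by
    intro h0
    have hk : 0 < N := by exact_mod_cast hN
    have := h.hwa ⟨0, hk⟩
    rw [hw, h0] at this
    simp at this
  have hapos : 0 < a := lt_of_le_of_ne ha0 (Ne.symm ha)
  have h2 : (a ^ 2)⁻¹ ≤ 1 := by
    have : (N : ℝ) * (a ^ 2)⁻¹ ≤ N * 1 := by linarith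
    exact le_of_mul_le_mul_left this hN
  have h3 : 1 ≤ a ^ 2 := by
    rw [inv_le_one₀ (by positivity)] at h2
    exact h2
  nlinarith

end Cfg

end

end Pool.Agent.MPf0bc87
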