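import Pool.Agent.Work.MP_f0bc87_an.Defs

/-!
Linear criteria for `ScalarOK`.
-/

set_option autoImplicit false

namespace Pool.Agent.Work.F0bc87

/-- The bracket `Q` with `Yb = a^2/4 * Q`. -/
noncomputable def Qb (m : ℕ) (t r : ℝ) : ℝ :=
  2 / ((1 - r) ^ 2 * (m - 1)) + 27183 / 10000 * m * (2 / 3 * r ^ (m - 2) + 5 / 6 * t ^ (m - 2))

theorem Yb_eq (m : ℕ) (a t r : ℝ) : Yb m a t r = a ^ 2 / 4 * Qb m t r := rfl

theorem Qb_nonneg (m : ℕ) (hm : 2 ≤ m) (t r : ℝ) (ht : 0 ≤ t) (hr : 0 ≤ r) : 0 ≤ Qb m t r := by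
  have hm' : (2 : ℝ) ≤ m := by exact_mod_cast hm
  unfold Qb
  have h1 : 0 ≤ (1 - r) ^ 2 * ((m : ℝ) - 1) := mul_nonneg (sq_nonneg _) (by linarith)
  positivity

theorem Yb_nonneg (m : ℕ) (hm : 2 ≤ m) (a t r : ℝ) (ht : 0 ≤ t) (hr : 0 ≤ r) :
    0 ≤ Yb m a t r := by
  rw [Yb_eq]
  exact mul_nonneg (by positivity) (Qb_nonneg m hm t r ht hr)

/-- (Lin), vacuous case. -/
theorem ScalarOK.of_vacuous (m : ℕ) (a t r : ℝ) (ht0 : 0 < t) (ht1 : t ≤ 1)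
    (hK : (1 + (1 - a ^ 2) * (1 - t ^ 2)) ^ m ≤ (1 + m * (1 - a)) ^ 2)
    (hr0 : 0 < r) (hr1 : r < 1) (hr : (1 + t ^ 2) / 2 - a ^ 2 / 4 ≤ r ^ 2)
    (ha : 0 < a) (hta : t < 1 - a) : ScalarOK m a := by
  refine ⟨t, r, ht0, ht1, hK, hr0, hr1, hr, ?_⟩
  intro U h1 h2
  exfalso
  have h3 : 2 * a * U ≤ 2 * a := by nlinarith
  nlinarith [mul_pos ht0 (sub_pos.2 hta)]

/-- (Lin), main case. -/
theorem ScalarOK.of_lin (m : ℕ) (hm : 2 ≤ m) (a t r : ℝ) (ht0 : 0 < t) (ht1 : t ≤ 1)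
    (hK : (1 + (1 - a ^ 2) * (1 - t ^ 2)) ^ m ≤ (1 + m * (1 - a)) ^ 2)
    (hr0 : 0 < r) (hr1 : r < 1) (hr : (1 + t ^ 2) / 2 - a ^ 2 / 4 ≤ r ^ 2)
    (ha : 0 < a) (hL1 : t ^ (m + 1) < 1 - a)
    (hL2 : (t ^ 2 - (1 - a) ^ 2) * (a / 2) * Qb m t r < 1 - a ^ 2 + t ^ 2 - 2 * t ^ (m + 1)) :
    ScalarOK m a := by
  refine ⟨t, r, ht0, ht1, hK, hr0, hr1, hr, ?_⟩
  intro U h1 h2
  set E := t ^ (m + 1) with hE
  set Y := Yb m a t r with hY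
  have hY0 : 0 ≤ Y := Yb_nonneg m hm a t r ht0.le hr0.le
  have hQ : 4 * Y = a ^ 2 * Qb m t r := by rw [hY, Yb_eq]; ring
  -- `s = 1 - U`
  have hs0 : 0 ≤ 1 - U := by linarith
  have hs : 2 * a * (1 - U) ≤ t ^ 2 - (1 - a) ^ 2 := by nlinarith
  have hq : Y * (1 - U ^ 2) ≤ 2 * Y * (1 - U) := by
    have : Y * (1 - U ^ 2) = Y * ((1 - U) * (1 + U)) := by ring
    rw [this]
    have : (1 - U) * (1 + U) ≤ (1 - U) * 2 := mul_le_mul_of_nonneg_left (by linarith) hs0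
    nlinarith [mul_le_mul_of_nonneg_left this hY0]
  have key : (1 - U) * (2 * Y - a) < 1 - a - E := by
    rcases le_or_gt (2 * Y) a with h | h
    · have : (1 - U) * (2 * Y - a) ≤ 0 := mul_nonpos_of_nonneg_of_nonpos hs0 (by linarith)
      linarith
    · have h4 : 2 * a * (1 - U) * (2 * Y - a) ≤ (t ^ 2 - (1 - a) ^ 2) * (2 * Y - a) :=
        mul_le_mul_of_nonneg_right hs (by linarith)
      have h5 : (t ^ 2 - (1 - a) ^ 2) * (2 * Y) < a * (1 - a ^ 2 + t ^ 2 - 2 * E) := by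
        have h6 : (t ^ 2 - (1 - a) ^ 2) * (2 * Y) =
            a * ((t ^ 2 - (1 - a) ^ 2) * (a / 2) * Qb m t r) := by
          have : 2 * Y = a ^ 2 * Qb m t r / 2 := by linarith
          rw [this]; ring
        rw [h6]
        exact mul_lt_mul_of_pos_left hL2 ha
      have h7 : 2 * a * ((1 - U) * (2 * Y - a)) < 2 * a * (1 - a - E) := by nlinarith
      exact lt_of_mul_lt_mul_left h7 (by positivity)
  nlinarith

/-- Criterion for large `m`. -/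
theorem ScalarOK.of_large (m : ℕ) (hm : 2 ≤ m) (a t r : ℝ) (ht0 : 0 < t) (ht1 : t ≤ 1)
    (hK : (1 + (1 - a ^ 2) * (1 - t ^ 2)) ^ m ≤ (1 + m * (1 - a)) ^ 2)
    (hr0 : 0 < r) (hr1 : r < 1) (hr : (1 + t ^ 2) / 2 - a ^ 2 / 4 ≤ r ^ 2)
    (ha : 0 < a) (h1 : a + t ^ (m + 1) < 1) (h2 : 2 * Yb m a t r + t ^ (m + 1) < 1) :
    ScalarOK m a := by
  refine ⟨t, r, ht0, ht1, hK, hr0, hr1, hr, ?_⟩
  intro U h3 h4
  set E := t ^ (m + 1) with hE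
  set Y := Yb m a t r with hY
  have hY0 : 0 ≤ Y := Yb_nonneg m hm a t r ht0.le hr0.le
  have hU0 : 0 ≤ U := by
    by_contra hU
    push Not at hU
    have : 2 * a * U < 0 := by nlinarith
    nlinarith [sq_nonneg a]
  have hs0 : 0 ≤ 1 - U := by linarith
  have hq : Y * (1 - U ^ 2) ≤ 2 * Y * (1 - U) := by
    have : Y * (1 - U ^ 2) = Y * ((1 - U) * (1 + U)) := by ring
    rw [this]
    have : (1 - U) * (1 + U) ≤ (1 - U) * 2 := mul_le_mul_of_nonneg_left (by linarith) hs0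
    nlinarith [mul_le_mul_of_nonneg_left this hY0]
  rcases eq_or_lt_of_le hU0 with h | h
  · rw [← h] at hq ⊢
    nlinarith
  · nlinarith [mul_lt_mul_of_pos_left h1 h, mul_le_mul_of_nonneg_left h2.le hs0]

end Pool.Agent.Work.F0bc87
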