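import Mathlib
import Pool.Agent.Work.MP_f0bc87_an.ScalarLin

/-!
Soundness of the box certificates (problem MP_f0bc87_an).
-/

set_option autoImplicit false

namespace Pool.Agent.Work.F0bc87

/-- transfer of the K condition from the corner of a box to the box -/
theorem kcond_box {m m2 : ℕ} {e e1 h : ℝ} (hm : 2 ≤ m) (hm2 : m ≤ m2) (he0 : 0 ≤ e) (he : e ≤ e1)
    (he1 : 0 < e1) (hh : 0 ≤ h) (hC : (1 + e1 * h) ^ m2 ≤ (1 + m2 * e1) ^ 2) :
    (1 + e * h) ^ m ≤ (1 + m * e) ^ 2 := by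
  have hmr : (2 : ℝ) ≤ m := by exact_mod_cast hm
  have hm0 : (0 : ℝ) < m := by linarith
  have hmm : (m : ℝ) ≤ m2 := by exact_mod_cast hm2
  have hm20 : (0 : ℝ) < m2 := by linarith
  have hX : 0 < 1 + e1 * h := by positivity
  have hZ : 0 < 1 + m * e1 := by positivity
  -- first step: `(1 + e1 h)^(m/2) ≤ 1 + m e1`
  have h1 : (1 + e1 * h) ^ ((m : ℝ) / 2) ≤ 1 + m * e1 := by
    have hb : 1 + (m2 : ℝ) * e1 ≤ (1 + m * e1) ^ ((m2 : ℝ) / m) := by
      have := one_add_mul_self_le_rpow_one_add (s := m * e1) (by nlinarith) (p := (m2 : ℝ) / m)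
        (by rw [le_div_iff₀ hm0]; linarith)
      refine le_trans (le_of_eq ?_) this
      field_simp
    have h2 : (1 + e1 * h) ^ (m2 : ℝ) ≤ (1 + m * e1) ^ (2 * ((m2 : ℝ) / m)) := by
      rw [Real.rpow_natCast]
      refine hC.trans ?_
      calc (1 + (m2 : ℝ) * e1) ^ 2 ≤ ((1 + m * e1) ^ ((m2 : ℝ) / m)) ^ 2 :=
            pow_le_pow_left₀ (by positivity) hb 2
        _ = (1 + m * e1) ^ (2 * ((m2 : ℝ) / m)) := by
            rw [← Real.rpow_natCast, ← Real.rpow_mul hZ.le]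
            congr 1
            push_cast
            ring
    have h3 : ((1 + e1 * h) ^ (m2 : ℝ)) ^ ((m : ℝ) / (2 * m2)) ≤
        ((1 + m * e1) ^ (2 * ((m2 : ℝ) / m))) ^ ((m : ℝ) / (2 * m2)) :=
      Real.rpow_le_rpow (by positivity) h2 (by positivity)
    rw [← Real.rpow_mul hX.le, ← Real.rpow_mul hZ.le] at h3
    have e3 : (m2 : ℝ) * ((m : ℝ) / (2 * m2)) = m / 2 := by field_simp
    have e4 : 2 * ((m2 : ℝ) / m) * ((m : ℝ) / (2 * m2)) = 1 := by field_simp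
    rw [e3, e4, Real.rpow_one] at h3
    exact h3
  -- second step: convexity
  have h5 : (1 + e * h) ^ ((m : ℝ) / 2) ≤ 1 + m * e := by
    have hconv := convexOn_rpow (p := (m : ℝ) / 2) (by linarith)
    set l : ℝ := e / e1 with hl
    have hl0 : 0 ≤ l := by positivity
    have hl1 : l ≤ 1 := by rw [hl, div_le_one he1]; exact he
    have hle : l * e1 = e := by rw [hl]; field_simp
    have h6 := hconv.2 (Set.mem_Ici.mpr (zero_le_one (α := ℝ))) (Set.mem_Ici.mpr hX.le)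
      (sub_nonneg.mpr hl1) hl0 (by ring)
    simp only [smul_eq_mul, Real.one_rpow, mul_one] at h6
    have h7 : 1 - l + l * (1 + e1 * h) = 1 + e * h := by rw [← hle]; ring
    rw [h7] at h6
    refine h6.trans ?_
    have h8 : l * (1 + e1 * h) ^ ((m : ℝ) / 2) ≤ l * (1 + m * e1) :=
      mul_le_mul_of_nonneg_left h1 hl0
    have h9 : l * (1 + m * e1) = l + m * e := by rw [← hle]; ring
    linarith
  have hW : 0 < 1 + e * h := by positivity
  calc (1 + e * h) ^ m = ((1 + e * h) ^ ((m : ℝ) / 2)) ^ 2 := by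
        rw [← Real.rpow_natCast ((1 + e * h) ^ ((m : ℝ) / 2)), ← Real.rpow_mul hW.le,
          ← Real.rpow_natCast]
        congr 1
        push_cast
        ring
    _ ≤ _ := pow_le_pow_left₀ (by positivity) h5 2

/-- soundness of a box -/
theorem box_sound {m1 m2 m : ℕ} {e1 e2 h t r a : ℝ} (hm1 : 4 ≤ m1) (h1 : m1 ≤ m) (h2 : m ≤ m2)
    (he2 : 0 < e2) (he : e2 ≤ e1) (he1 : e1 ≤ 1) (hh : 0 ≤ h) (ht0 : 0 < t) (ht1 : t ≤ 1)
    (hr0 : 0 < r) (hr1 : r < 1)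
    (C1 : (1 + e1 * h) ^ m2 ≤ (1 + m2 * e1) ^ 2) (C2 : (1 - t ^ 2) * (2 - e2) ≤ h)
    (C3 : (1 + t ^ 2) / 2 - (1 - e1) ^ 2 / 4 ≤ r ^ 2)
    (C45 : t < e2 ∨ (t ^ (m1 + 1) < e2 ∧ (t ^ 2 - e2 ^ 2) * ((1 - e2) / 2) *
      (2 / ((1 - r) ^ 2 * (m1 - 1)) + 27183 / 10000 * m2 *
        (2 / 3 * r ^ (m1 - 2) + 5 / 6 * t ^ (m1 - 2))) <
        1 - (1 - e2) ^ 2 + t ^ 2 - 2 * t ^ (m1 + 1)))
    (ha0 : 0 < a) (hae2 : e2 ≤ 1 - a) (hae1 : 1 - a ≤ e1) : ScalarOK m a := by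
  have hm1r : (4 : ℝ) ≤ m1 := by exact_mod_cast hm1
  have hmr : (m1 : ℝ) ≤ m := by exact_mod_cast h1
  have hmr2 : (m : ℝ) ≤ m2 := by exact_mod_cast h2
  have ht2 : t ^ 2 ≤ 1 := by nlinarith
  have hK : (1 + (1 - a ^ 2) * (1 - t ^ 2)) ^ m ≤ (1 + m * (1 - a)) ^ 2 := by
    have hk := kcond_box (m := m) (m2 := m2) (e := 1 - a) (e1 := e1) (h := h) (by omega) h2
      (by linarith) hae1 (by linarith) hh C1
    refine le_trans ?_ hk
    have h3 : (1 - a ^ 2) * (1 - t ^ 2) ≤ (1 - a) * h := by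
      have h4 : (1 - a ^ 2) * (1 - t ^ 2) = (1 - a) * ((1 - t ^ 2) * (2 - (1 - a))) := by ring
      rw [h4]
      apply mul_le_mul_of_nonneg_left _ (by linarith)
      refine le_trans ?_ C2
      apply mul_le_mul_of_nonneg_left <;> linarith
    have h5 : 0 ≤ (1 - a ^ 2) * (1 - t ^ 2) := by
      apply mul_nonneg _ (by linarith)
      nlinarith
    exact pow_le_pow_left₀ (by linarith) (by linarith) m
  have hr : (1 + t ^ 2) / 2 - a ^ 2 / 4 ≤ r ^ 2 := by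
    have h3 : (1 - e1) ^ 2 ≤ a ^ 2 := pow_le_pow_left₀ (by linarith) (by linarith) 2
    linarith
  rcases C45 with hv | ⟨C4, C5⟩
  · exact ScalarOK.of_vacuous m a t r ht0 ht1 hK hr0 hr1 hr ha0 (by linarith)
  · rcases lt_or_ge t e2 with hv | hv
    · exact ScalarOK.of_vacuous m a t r ht0 ht1 hK hr0 hr1 hr ha0 (by linarith)
    have htm : t ^ (m + 1) ≤ t ^ (m1 + 1) := pow_le_pow_of_le_one ht0.le ht1 (by omega)
    apply ScalarOK.of_lin m (by omega) a t r ht0 ht1 hK hr0 hr1 hr ha0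
    · linarith
    · have hD : 0 ≤ t ^ 2 - e2 ^ 2 := by nlinarith
      have hQ : Qb m t r ≤ (2 / ((1 - r) ^ 2 * (m1 - 1)) + 27183 / 10000 * m2 *
          (2 / 3 * r ^ (m1 - 2) + 5 / 6 * t ^ (m1 - 2))) := by
        unfold Qb
        have h3 : (0 : ℝ) < (m1 : ℝ) - 1 := by linarith
        have h4 : 0 < (1 - r) ^ 2 := by
          have : 0 < 1 - r := by linarith
          positivity
        have h5 : r ^ (m - 2) ≤ r ^ (m1 - 2) := pow_le_pow_of_le_one hr0.le hr1.le (by omega)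
        have h6 : t ^ (m - 2) ≤ t ^ (m1 - 2) := pow_le_pow_of_le_one ht0.le ht1 (by omega)
        have h7 : 2 / ((1 - r) ^ 2 * ((m : ℝ) - 1)) ≤ 2 / ((1 - r) ^ 2 * ((m1 : ℝ) - 1)) := by
          apply div_le_div_of_nonneg_left (by norm_num) (mul_pos h4 h3)
          exact mul_le_mul_of_nonneg_left (by linarith) h4.le
        have h8 : 0 ≤ r ^ (m - 2) := by positivity
        have h9 : 0 ≤ t ^ (m - 2) := by positivity
        have h10 : 2 / 3 * r ^ (m - 2) + 5 / 6 * t ^ (m - 2) ≤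
            2 / 3 * r ^ (m1 - 2) + 5 / 6 * t ^ (m1 - 2) := by linarith
        have h11 : 27183 / 10000 * (m : ℝ) * (2 / 3 * r ^ (m - 2) + 5 / 6 * t ^ (m - 2)) ≤
            27183 / 10000 * (m2 : ℝ) * (2 / 3 * r ^ (m1 - 2) + 5 / 6 * t ^ (m1 - 2)) :=
          mul_le_mul (by linarith) h10 (by linarith) (by linarith)
        linarith
      have hQ0 : 0 ≤ Qb m t r := Qb_nonneg m (by omega) t r ht0.le hr0.le
      have hD1 : t ^ 2 - (1 - a) ^ 2 ≤ t ^ 2 - e2 ^ 2 := by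
        have : e2 ^ 2 ≤ (1 - a) ^ 2 := pow_le_pow_left₀ he2.le hae2 2
        linarith
      have h7 : (t ^ 2 - (1 - a) ^ 2) * (a / 2) * Qb m t r ≤
          (t ^ 2 - e2 ^ 2) * ((1 - e2) / 2) *
          (2 / ((1 - r) ^ 2 * (m1 - 1)) + 27183 / 10000 * m2 *
          (2 / 3 * r ^ (m1 - 2) + 5 / 6 * t ^ (m1 - 2))) := by
        calc (t ^ 2 - (1 - a) ^ 2) * (a / 2) * Qb m t r
            = (t ^ 2 - (1 - a) ^ 2) * ((a / 2) * Qb m t r) := by ring
          _ ≤ (t ^ 2 - e2 ^ 2) * ((a / 2) * Qb m t r) :=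
              mul_le_mul_of_nonneg_right hD1 (by positivity)
          _ ≤ (t ^ 2 - e2 ^ 2) * (((1 - e2) / 2) * (2 / ((1 - r) ^ 2 * (m1 - 1)) +
              27183 / 10000 * m2 * (2 / 3 * r ^ (m1 - 2) + 5 / 6 * t ^ (m1 - 2)))) := by
              apply mul_le_mul_of_nonneg_left _ hD
              apply mul_le_mul _ hQ hQ0 (by linarith)
              linarith
          _ = _ := by ring
      have h8 : a ^ 2 ≤ (1 - e2) ^ 2 := pow_le_pow_left₀ ha0.le (by linarith) 2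
      linarith

/-- the checker for a single box; all numbers have denominator `N = 2^20` -/
def boxOK (m1 m2 E2 E1 H T R : ℕ) : Bool :=
  Nat.ble 1 E2 && Nat.ble E2 E1 && Nat.ble E1 1048576 && Nat.ble 1 T && Nat.ble T 1048576 &&
  Nat.ble 1 R && Nat.blt R 1048576 &&
  Nat.ble ((1048576 * 1048576 + E1 * H) ^ m2 * 1048576 ^ 2)
    ((1048576 + m2 * E1) ^ 2 * (1048576 * 1048576) ^ m2) &&
  Nat.ble (2 * 1048576 ^ 3 + T ^ 2 * E2) (H * 1048576 ^ 2 + 2 * T ^ 2 * 1048576 + 1048576 ^ 2 * E2) &&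
  Nat.ble (1048576 ^ 2 + 2 * T ^ 2 + 2 * 1048576 * E1) (4 * R ^ 2 + E1 ^ 2) &&
  (Nat.blt T E2 || (Nat.blt (T ^ (m1 + 1)) (E2 * 1048576 ^ m1) &&
    Nat.blt (120000 * ((T ^ 2 - E2 ^ 2) * (1048576 - E2)) * 1048576 ^ m1 +
      ((T ^ 2 - E2 ^ 2) * (1048576 - E2)) * (27183 * m2 * (4 * R ^ (m1 - 2) + 5 * T ^ (m1 - 2))) *
        ((1048576 - R) ^ 2 * (m1 - 1)) +
      240000 * ((1048576 - R) ^ 2 * (m1 - 1)) * T ^ (m1 + 1))
      (120000 * ((1048576 - R) ^ 2 * (m1 - 1)) * (2 * 1048576 * E2 + T ^ 2 - E2 ^ 2) *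
        1048576 ^ (m1 - 1))))

end Pool.Agent.Work.F0bc87
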