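import Pool.Agent.Work.MP_f0bc87_an.Basic

/-!
The configuration (a zero `a`, critical points `w k`, the polynomial function `p`)
and the first consequences of the hypothesis `∑ |a - w_k|⁻² ≤ N`.
-/

set_option autoImplicit false

namespace Pool.Agent.MPf0bc87

open Finset

open scoped ComplexConjugate

/-- All the facts about the polynomial that are used. -/
structure Cfg (N : ℕ) (a : ℝ) (w : Fin N → ℂ) (p : ℂ → ℂ) : Prop where
  hN : (10 : ℝ) ^ 10 ≤ (N : ℝ)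
  ha0 : 0 ≤ a
  ha1 : a ≤ 1
  hw1 : ∀ k, ‖w k‖ ≤ 1
  hwa : ∀ k, (a : ℂ) - w k ≠ 0
  hp : ∀ z, HasDerivAt p (((N : ℂ) + 1) * ∏ k, (z - w k)) z
  hpa : p a = 0
  hup : ∀ z : ℂ, ‖z‖ ≤ 1 → ‖p z‖ ≤
    Real.exp (-(((N : ℝ) + 1) / N) * (conj z * ∑ k, w k).re + ((N : ℝ) + 1) * ‖z‖ ^ 2 / 2)
  hp0 : ‖p 0‖ ≤ a
  hda : ((N : ℝ) + 1) * ∏ k, ‖(a : ℂ) - w k‖ ≤
    Real.exp (-a * (((N : ℝ) + 1) / N) * (∑ k, w k).re + a ^ 2 + N * a ^ 2 / 2)
  hS : ∑ k, (‖(a : ℂ) - w k‖ ^ 2)⁻¹ ≤ N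

section

variable {N : ℕ} {a : ℝ} {w : Fin N → ℂ} {p : ℂ → ℂ}

/-- `v_k = 1/(a - w_k)`. -/
noncomputable def vv (a : ℝ) (w : Fin N → ℂ) (k : Fin N) : ℂ := ((a : ℂ) - w k)⁻¹

/-- mean of the `v_k`. -/
noncomputable def CC (a : ℝ) (w : Fin N → ℂ) : ℂ := (∑ k, vv a w k) / N

/-- `b = a - conj C`. -/
noncomputable def bb (a : ℝ) (w : Fin N → ℂ) : ℂ := (a : ℂ) - conj (CC a w)

/-- `Λ = ∑ log |a - w_k|`. -/
noncomputable def Lam (a : ℝ) (w : Fin N → ℂ) : ℝ := ∑ k, Real.log ‖(a : ℂ) - w k‖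

/-- `D = p'(a)`. -/
noncomputable def DD (a : ℝ) (w : Fin N → ℂ) : ℂ := ((N : ℂ) + 1) * ∏ k, ((a : ℂ) - w k)

namespace Cfg

lemma Npos (h : Cfg N a w p) : (0 : ℝ) < N := lt_of_lt_of_le (by norm_num) h.hN

lemma Nne (h : Cfg N a w p) : (N : ℂ) ≠ 0 := by
  have := h.Npos
  exact_mod_cast this.ne'

lemma norm_aw_pos (h : Cfg N a w p) (k : Fin N) : 0 < ‖(a : ℂ) - w k‖ :=
  norm_pos_iff.mpr (h.hwa k)

lemma norm_aw_le (h : Cfg N a w p) (k : Fin N) : ‖(a : ℂ) - w k‖ ≤ 2 := by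
  have h1 := norm_sub_le (a : ℂ) (w k)
  have h2 : ‖(a : ℂ)‖ = a := by rw [Complex.norm_real, Real.norm_of_nonneg h.ha0]
  have := h.hw1 k
  have := h.ha1
  linarith

lemma vv_ne (h : Cfg N a w p) (k : Fin N) : vv a w k ≠ 0 := inv_ne_zero (h.hwa k)

lemma norm_vv (k : Fin N) : ‖vv a w k‖ = ‖(a : ℂ) - w k‖⁻¹ := by
  rw [vv, norm_inv]

lemma norm_vv_ge (h : Cfg N a w p) (k : Fin N) : 1 / 2 ≤ ‖vv a w k‖ := by
  rw [norm_vv, one_div]
  exact inv_anti₀ (h.norm_aw_pos k) (h.norm_aw_le k)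

lemma sum_sq_le (h : Cfg N a w p) : ∑ k, ‖vv a w k‖ ^ 2 ≤ N := by
  have := h.hS
  simpa [norm_vv, inv_pow] using this

lemma norm_vv_le (h : Cfg N a w p) (k : Fin N) : ‖vv a w k‖ ≤ Real.sqrt N := by
  apply Real.le_sqrt_of_sq_le
  refine le_trans ?_ h.sum_sq_le
  exact Finset.single_le_sum (f := fun k => ‖vv a w k‖ ^ 2) (fun i _ => sq_nonneg _)
    (Finset.mem_univ k)

lemma sum_vv (h : Cfg N a w p) : ∑ k, vv a w k = N * CC a w := by
  rw [CC]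
  have := h.Nne
  field_simp

lemma norm_CC_sq_le (h : Cfg N a w p) : (N : ℝ) * ‖CC a w‖ ^ 2 ≤ ∑ k, ‖vv a w k‖ ^ 2 := by
  have h1 := norm_sum_sq_le Finset.univ (vv a w)
  rw [h.sum_vv, norm_mul, Complex.norm_natCast, Finset.card_univ, Fintype.card_fin] at h1
  have h2 := h.Npos
  have h3 : (N : ℝ) * ((N : ℝ) * ‖CC a w‖ ^ 2) ≤ N * ∑ k, ‖vv a w k‖ ^ 2 := by
    calc (N : ℝ) * ((N : ℝ) * ‖CC a w‖ ^ 2) = ((N : ℝ) * ‖CC a w‖) ^ 2 := by ring
      _ ≤ _ := h1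
  exact le_of_mul_le_mul_left h3 h2

lemma norm_CC_le (h : Cfg N a w p) : ‖CC a w‖ ≤ 1 := by
  have h1 := h.norm_CC_sq_le.trans h.sum_sq_le
  have h2 := h.Npos
  have h3 : ‖CC a w‖ ^ 2 ≤ 1 := by
    by_contra hc
    push Not at hc
    nlinarith
  nlinarith [norm_nonneg (CC a w)]

/-- the disc condition `|w| ≤ 1` in terms of `v`. -/
lemma disc_cond (h : Cfg N a w p) (k : Fin N) :
    1 ≤ (1 - a ^ 2) * ‖vv a w k‖ ^ 2 + 2 * a * (vv a w k).re := by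
  have hv := h.vv_ne k
  have h1 : w k = (a : ℂ) - (vv a w k)⁻¹ := by rw [vv, inv_inv]; ring
  have h2 : ‖w k‖ ^ 2 * ‖vv a w k‖ ^ 2 = a ^ 2 * ‖vv a w k‖ ^ 2 - 2 * a * (vv a w k).re + 1 := by
    have h3 : w k * vv a w k = a * vv a w k - 1 := by
      have e1 : w k * vv a w k = ((a : ℂ) - (vv a w k)⁻¹) * vv a w k := by rw [← h1]
      rw [e1, sub_mul, inv_mul_cancel₀ hv]
    have h4 : ‖w k‖ ^ 2 * ‖vv a w k‖ ^ 2 = ‖w k * vv a w k‖ ^ 2 := by rw [norm_mul]; ring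
    rw [h4, h3, ← Complex.normSq_eq_norm_sq, ← Complex.normSq_eq_norm_sq, Complex.normSq_apply,
      Complex.normSq_apply]
    simp
    ring
  have h5 : ‖w k‖ ^ 2 ≤ 1 := by
    have := h.hw1 k
    have := norm_nonneg (w k)
    nlinarith
  have h6 : ‖w k‖ ^ 2 * ‖vv a w k‖ ^ 2 ≤ ‖vv a w k‖ ^ 2 := by
    have := sq_nonneg ‖vv a w k‖
    nlinarith
  nlinarith

lemma re_CC_ge (h : Cfg N a w p) : a ^ 2 ≤ 2 * a * (CC a w).re := by
  have h1 : ∑ k : Fin N, (1 : ℝ) ≤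
      ∑ k, ((1 - a ^ 2) * ‖vv a w k‖ ^ 2 + 2 * a * (vv a w k).re) :=
    Finset.sum_le_sum (fun k _ => h.disc_cond k)
  rw [Finset.sum_add_distrib, ← Finset.mul_sum, ← Finset.mul_sum, ← Complex.re_sum, h.sum_vv] at h1
  simp only [Finset.sum_const, Finset.card_univ, Fintype.card_fin, nsmul_eq_mul, mul_one] at h1
  have h2 : ((N : ℂ) * CC a w).re = N * (CC a w).re := by simp
  rw [h2] at h1
  have h3 := h.sum_sq_le
  have h4 : 0 ≤ 1 - a ^ 2 := by have := h.ha0; have := h.ha1; nlinarith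
  have h5 := mul_le_mul_of_nonneg_left h3 h4
  have h6 : (N : ℝ) * a ^ 2 ≤ N * (2 * a * (CC a w).re) := by nlinarith
  exact le_of_mul_le_mul_left h6 h.Npos

lemma norm_bb_sq (_h : Cfg N a w p) :
    ‖bb a w‖ ^ 2 = ‖CC a w‖ ^ 2 - (2 * a * (CC a w).re - a ^ 2) := by
  rw [bb, ← Complex.normSq_eq_norm_sq, ← Complex.normSq_eq_norm_sq, Complex.normSq_apply,
      Complex.normSq_apply]
  simp
  ring

lemma norm_bb_le (h : Cfg N a w p) : ‖bb a w‖ ^ 2 ≤ ‖CC a w‖ ^ 2 := by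
  rw [h.norm_bb_sq]
  have := h.re_CC_ge
  linarith

lemma prod_norm_eq (h : Cfg N a w p) : ∏ k, ‖(a : ℂ) - w k‖ = Real.exp (Lam a w) := by
  rw [Lam, Real.exp_sum]
  apply Finset.prod_congr rfl
  intro k _
  rw [Real.exp_log (h.norm_aw_pos k)]

lemma norm_DD (h : Cfg N a w p) : ‖DD a w‖ = ((N : ℝ) + 1) * Real.exp (Lam a w) := by
  rw [DD, norm_mul, norm_prod, h.prod_norm_eq]
  congr 1
  have : ((N : ℂ) + 1) = ((N + 1 : ℕ) : ℂ) := by push_cast; ring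
  rw [this, Complex.norm_natCast]
  push_cast; ring

lemma DD_ne (h : Cfg N a w p) : DD a w ≠ 0 := by
  rw [← norm_pos_iff, h.norm_DD]
  have := h.Npos
  positivity

/-- the sum of the critical points is `N b` up to a small error. -/
lemma err_sq_le (h : Cfg N a w p) :
    ‖∑ k, w k - N * bb a w‖ ^ 2 ≤ N * (10 * Lam a w) := by
  have h1 : ∑ k, w k - N * bb a w = ∑ k, (conj (vv a w k) - (vv a w k)⁻¹) := by
    have h2 : (N : ℂ) * bb a w = ∑ k : Fin N, ((a : ℂ) - conj (vv a w k)) := by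
      rw [bb, mul_sub, Finset.sum_sub_distrib, Finset.sum_const, Finset.card_univ,
        Fintype.card_fin, nsmul_eq_mul, ← map_sum, h.sum_vv, map_mul, Complex.conj_natCast]
    rw [h2, ← Finset.sum_sub_distrib]
    apply Finset.sum_congr rfl
    intro k _
    rw [vv, inv_inv]
    ring
  rw [h1]
  refine (norm_sum_sq_le _ _).trans ?_
  rw [Finset.card_univ, Fintype.card_fin]
  apply mul_le_mul_of_nonneg_left _ h.Npos.le
  have h3 : ∀ k, ‖conj (vv a w k) - (vv a w k)⁻¹‖ ^ 2 ≤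
      5 * (‖vv a w k‖ ^ 2 - 1 + 2 * Real.log ‖(a : ℂ) - w k‖) := by
    intro k
    have hv := h.vv_ne k
    have hv0 : 0 < ‖vv a w k‖ := norm_pos_iff.mpr hv
    have e1 : conj (vv a w k) - (vv a w k)⁻¹ = ((‖vv a w k‖ ^ 2 - 1 : ℝ) : ℂ) / vv a w k := by
      rw [eq_div_iff hv, sub_mul, inv_mul_cancel₀ hv, mul_comm (conj (vv a w k)),
        Complex.mul_conj, Complex.normSq_eq_norm_sq]
      push_cast; ring
    have e2 : ‖conj (vv a w k) - (vv a w k)⁻¹‖ ^ 2 =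
        (‖vv a w k‖ ^ 2 - 1) ^ 2 / (‖vv a w k‖ ^ 2) := by
      rw [e1, norm_div, Complex.norm_real, div_pow, Real.norm_eq_abs, sq_abs]
    rw [e2]
    have h4 := phi_ineq (‖vv a w k‖ ^ 2) (by
      have := h.norm_vv_ge k
      nlinarith)
    refine h4.trans (le_of_eq ?_)
    have h5 : Real.log (‖vv a w k‖ ^ 2) = -2 * Real.log ‖(a : ℂ) - w k‖ := by
      rw [Real.log_pow, norm_vv, Real.log_inv]; push_cast; ring
    rw [h5]; ring
  refine (Finset.sum_le_sum (fun k _ => h3 k)).trans ?_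
  rw [← Finset.mul_sum, Finset.sum_add_distrib, Finset.sum_sub_distrib, ← Finset.mul_sum]
  simp only [Finset.sum_const, Finset.card_univ, Fintype.card_fin, nsmul_eq_mul, mul_one]
  have h6 := h.sum_sq_le
  have h7 : ∑ k, Real.log ‖(a : ℂ) - w k‖ = Lam a w := rfl
  rw [h7]
  linarith

lemma Lam_nonneg (h : Cfg N a w p) : 0 ≤ Lam a w := by
  have h1 := h.err_sq_le
  have h2 := sq_nonneg ‖∑ k, w k - N * bb a w‖
  have h3 := h.Npos
  by_contra hc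
  push Not at hc
  nlinarith

/-- factorisation of `p'` around `a`. -/
lemma deriv_eq (h : Cfg N a w p) (u : ℂ) :
    ((N : ℂ) + 1) * ∏ k, ((a : ℂ) - u - w k) = DD a w * ∏ k, (1 - u * vv a w k) := by
  rw [DD, mul_assoc, ← Finset.prod_mul_distrib]
  congr 1
  apply Finset.prod_congr rfl
  intro k _
  have := h.hwa k
  rw [vv]
  field_simp
  ring

/-- bound for subproducts. -/
lemma prod_erase_le (h : Cfg N a w p) (u : ℂ) (k : Fin N) :
    ‖∏ j ∈ Finset.univ.erase k, (1 - u * vv a w j)‖ ≤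
      Real.exp (-(N * (u * CC a w).re) + ‖u‖ * Real.sqrt N + N * ‖u‖ ^ 2 / 2) := by
  refine (norm_prod_one_sub_le _ _).trans ?_
  apply Real.exp_le_exp.mpr
  have h1 : ∑ j ∈ Finset.univ.erase k, u * vv a w j = N * (u * CC a w) - u * vv a w k := by
    rw [eq_sub_iff_add_eq, Finset.sum_erase_add _ _ (Finset.mem_univ k), ← Finset.mul_sum, h.sum_vv]
    ring
  have h2 : ∑ j ∈ Finset.univ.erase k, ‖u * vv a w j‖ ^ 2 ≤ N * ‖u‖ ^ 2 := by
    calc ∑ j ∈ Finset.univ.erase k, ‖u * vv a w j‖ ^ 2 ≤ ∑ j, ‖u * vv a w j‖ ^ 2 :=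
          Finset.sum_le_sum_of_subset_of_nonneg (Finset.erase_subset _ _)
            (fun i _ _ => sq_nonneg _)
      _ = ‖u‖ ^ 2 * ∑ j, ‖vv a w j‖ ^ 2 := by
          rw [Finset.mul_sum]
          apply Finset.sum_congr rfl
          intro j _
          rw [norm_mul]; ring
      _ ≤ ‖u‖ ^ 2 * N := by
          apply mul_le_mul_of_nonneg_left h.sum_sq_le (sq_nonneg _)
      _ = _ := by ring
  have h3 : (u * vv a w k).re ≤ ‖u‖ * Real.sqrt N := by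
    calc (u * vv a w k).re ≤ ‖u * vv a w k‖ := Complex.re_le_norm _
      _ = ‖u‖ * ‖vv a w k‖ := norm_mul _ _
      _ ≤ _ := by
        apply mul_le_mul_of_nonneg_left (h.norm_vv_le k) (norm_nonneg _)
  have h4 : ((N : ℂ) * (u * CC a w)).re = N * (u * CC a w).re := by simp
  rw [h1, Complex.sub_re, h4]
  linarith

/-- bound for the full product. -/
lemma prod_all_le (h : Cfg N a w p) (u : ℂ) :
    ‖∏ j, (1 - u * vv a w j)‖ ≤
      Real.exp (-(N * (u * CC a w).re) + N * ‖u‖ ^ 2 / 2) := by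
  refine (norm_prod_one_sub_le _ _).trans ?_
  apply Real.exp_le_exp.mpr
  have h1 : ∑ j, u * vv a w j = N * (u * CC a w) := by
    rw [← Finset.mul_sum, h.sum_vv]
    ring
  have h2 : ∑ j, ‖u * vv a w j‖ ^ 2 ≤ N * ‖u‖ ^ 2 := by
    calc ∑ j, ‖u * vv a w j‖ ^ 2 = ‖u‖ ^ 2 * ∑ j, ‖vv a w j‖ ^ 2 := by
          rw [Finset.mul_sum]
          apply Finset.sum_congr rfl
          intro j _
          rw [norm_mul]; ring
      _ ≤ ‖u‖ ^ 2 * N := by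
          apply mul_le_mul_of_nonneg_left h.sum_sq_le (sq_nonneg _)
      _ = _ := by ring
  have h4 : ((N : ℂ) * (u * CC a w)).re = N * (u * CC a w).re := by simp
  rw [h1, h4]
  linarith

end Cfg

end

end Pool.Agent.MPf0bc87
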